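import Pool.Agent.MP_81f5b7_pr.H42.Kit

/-! Sudden freezing in the model with independent letters. -/

set_option autoImplicit false
set_option linter.style.haveILetI false

namespace Pool.Agent.MP_81f5b7_pr.H42

open Finset Filter

namespace IGN

variable {V : Type}

/-- the hard run dies at step `t` -/
def dth (l : List (Pr V)) (t : ℕ) : Prop :=
  (hr (l.take t)).Nonempty ∧ ¬ (hr (l.take (t + 1))).Nonempty

theorem hr_snoc (l : List (Pr V)) (a : Pr V) : hr (l ++ [a]) = hs (hr l) a := by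
  simp [hr, List.foldl_append]

theorem gr_append (l l' : List (Pr V)) : gr (l ++ l') = l'.foldl gs (gr l) := by
  simp [gr, List.foldl_append]

theorem gr_death {l : List (Pr V)} {t : ℕ} (h : dth l t) : gr (l.take (t + 1)) = hr (l.take t) := by
  by_cases ht : t < l.length
  · have e : l.take (t + 1) = l.take t ++ [l[t]] := by simp
    have h2 := h.2
    rw [e, hr_snoc] at h2
    rw [e, gr_append, gr_of_alive h.1, List.foldl_cons, List.foldl_nil, gs_of_dead h2]
  · have h2 := h.2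
    rw [List.take_of_length_le (by omega)] at h2
    have h1 := h.1
    rw [List.take_of_length_le (by omega)] at h1
    exact absurd h1 h2

theorem gr_after {l : List (Pr V)} {t : ℕ} (h : dth l t) (r : ℕ) :
    gr (l.take (t + (r + 1))) = ((l.drop (t + 1)).take r).foldl gs (hr (l.take t)) := by
  have e : t + (r + 1) = (t + 1) + r := by omega
  rw [e, List.take_add, gr_append, gr_death h]

theorem exists_dth (l : List (Pr V)) (M : ℕ) (h : ¬ (hr (l.take M)).Nonempty) :
    ∃ t, t < M ∧ dth l t := by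
  induction M with
  | zero => exact absurd (by simp [hr]) h
  | succ M ih =>
    by_cases hM : (hr (l.take M)).Nonempty
    · exact ⟨M, Nat.lt_succ_self M, hM, h⟩
    · obtain ⟨t, ht, hd⟩ := ih hM
      exact ⟨t, by omega, hd⟩

theorem not_par_univ (v : V) : ¬ par (Set.univ : St V) v := by
  classical
  rintro ⟨w, hw, he⟩
  have := he (fun u => if u = v then 0 else 1) trivial
  simp [hw] at this

theorem tri_take {l : List (Pr V)} {t : ℕ} {v : V} (h : tri (l.take t) v) : tri l v := by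
  have key : ∀ x y, adj (l.take t) x y → adj l x y := fun x y ⟨e, he, h1⟩ =>
    ⟨e, List.mem_of_mem_take he, h1⟩
  obtain ⟨u, w, h1, h2, h3⟩ := h
  exact ⟨u, w, key _ _ h1, key _ _ h2, key _ _ h3⟩

variable [Fintype V]

theorem yy_univ : yy (Set.univ : St V) = 0 := by
  have : (fun v : V => ind (par (Set.univ : St V) v)) = fun _ => 0 :=
    funext fun v => ind_neg (not_par_univ v)
  rw [yy, this, av_zero]

theorem beta_nonneg (l : List (Pr V)) : 0 ≤ beta l := av_nonneg fun _ => ind_nonneg _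
theorem yg_nonneg (l : List (Pr V)) : 0 ≤ yg l := av_nonneg fun _ => ind_nonneg _

theorem yy_le (l : List (Pr V)) (t : ℕ) : yy (hr (l.take t)) ≤ yg (l.take t) + beta l := by
  rw [yy, yg, beta, ← av_add]
  refine av_mono fun v => (ind_mono ?_).trans (ind_or_le _ _)
  intro hp
  by_cases h : tri (l.take t) v
  · exact Or.inr (tri_take h)
  · exact Or.inl ⟨hp, h⟩

/-- many partnered vertices long before death make the total mass large -/
theorem mass_large {l : List (Pr V)} {t M K : ℕ} {ζ : ℝ} (hζ : 0 < ζ) (ht : t < M) (hd : dth l t)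
    (hy : ζ < yy (hr (l.take (t - K)))) :
    (K : ℝ) * ζ ≤ ∑ m ∈ range M, chi (hr (l.take m)) * yy (hr (l.take m)) := by
  have hK : K ≤ t := by
    by_contra hK
    have e : t - K = 0 := by omega
    rw [e, List.take_zero, show hr ([] : List (Pr V)) = Set.univ from rfl, yy_univ] at hy
    linarith
  have hsub : Ico (t - K) t ⊆ range M := fun m hm => by
    have := mem_Ico.1 hm
    exact mem_range.2 (by omega)
  refine le_trans ?_ (sum_le_sum_of_subset_of_nonneg hsub fun m _ _ =>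
    mul_nonneg (chi_nonneg _) (yy_nonneg _))
  have h1 : ∀ m ∈ Ico (t - K) t, ζ ≤ chi (hr (l.take m)) * yy (hr (l.take m)) := fun m hm => by
    have hm' := mem_Ico.1 hm
    rw [chi_pos (hd.1.mono (hr_take_anti l hm'.2.le)), one_mul]
    exact hy.le.trans (yy_mono (hr_take_anti l hm'.1))
  refine le_trans ?_ (sum_le_sum h1)
  rw [sum_const, Nat.card_Ico, nsmul_eq_mul, show t - (t - K) = K by omega]

/-- the pointwise cover of the bad event -/
theorem cover (l : List (Pr V)) (M r k : ℕ) {ζ δ x ε : ℝ} (hζ : 0 < ζ) (hx : 0 < x) :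
    ind (¬ ∃ t, t < M ∧ (hr (l.take t)).Nonempty ∧ ¬ (hr (l.take (t + 1))).Nonempty ∧
      yy (hr (l.take (t - (r + 1)))) ≤ ζ ∧ Tri (gr (l.take (t + (r + 1)))) δ) ≤
    chi (hr (l.take M)) +
      (1 / (((r + 1 : ℕ) : ℝ) * ζ)) * (∑ m ∈ range M, chi (hr (l.take m)) * yy (hr (l.take m))) +
      (∑ t ∈ range M, ind (dth l t) * ind (yy (hr (l.take t)) ≤ x)) +
      (1 / x) * beta l +
      (1 / x) * (∑ m ∈ range M,
        ind ((hr (l.take m)).Nonempty ∧ rho (hr (l.take m)) U k ≤ ε) * yg (l.take m)) +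
      ∑ t ∈ range M, ind (dth l t) * ind (ε ≤ rho (hr (l.take t)) U k ∧
        ¬ Tri (((l.drop (t + 1)).take r).foldl gs (hr (l.take t))) δ) := by
  have hK : (0 : ℝ) < ((r + 1 : ℕ) : ℝ) * ζ := by positivity
  have p0 := chi_nonneg (hr (l.take M))
  have p1 : 0 ≤ (1 / (((r + 1 : ℕ) : ℝ) * ζ)) *
      (∑ m ∈ range M, chi (hr (l.take m)) * yy (hr (l.take m))) :=
    mul_nonneg (by positivity) (sum_nonneg fun _ _ => mul_nonneg (chi_nonneg _) (yy_nonneg _))
  have p2 : 0 ≤ ∑ t ∈ range M, ind (dth l t) * ind (yy (hr (l.take t)) ≤ x) :=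
    sum_nonneg fun _ _ => mul_nonneg (ind_nonneg _) (ind_nonneg _)
  have p3 : 0 ≤ (1 / x) * beta l := mul_nonneg (by positivity) (beta_nonneg l)
  have p4 : 0 ≤ (1 / x) * (∑ m ∈ range M,
      ind ((hr (l.take m)).Nonempty ∧ rho (hr (l.take m)) U k ≤ ε) * yg (l.take m)) :=
    mul_nonneg (by positivity) (sum_nonneg fun _ _ => mul_nonneg (ind_nonneg _) (yg_nonneg _))
  have p5 : 0 ≤ ∑ t ∈ range M, ind (dth l t) * ind (ε ≤ rho (hr (l.take t)) U k ∧
      ¬ Tri (((l.drop (t + 1)).take r).foldl gs (hr (l.take t))) δ) :=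
    sum_nonneg fun _ _ => mul_nonneg (ind_nonneg _) (ind_nonneg _)
  by_cases hB : ∃ t, t < M ∧ (hr (l.take t)).Nonempty ∧ ¬ (hr (l.take (t + 1))).Nonempty ∧
      yy (hr (l.take (t - (r + 1)))) ≤ ζ ∧ Tri (gr (l.take (t + (r + 1)))) δ
  · rw [ind_neg (not_not.2 hB)]; linarith
  rw [ind_pos hB]
  by_cases h0 : (hr (l.take M)).Nonempty
  · rw [chi_pos h0]; linarith
  obtain ⟨t, ht, hd⟩ := exists_dth l M h0
  have hm : t ∈ range M := mem_range.2 ht
  by_cases h1 : yy (hr (l.take (t - (r + 1)))) ≤ ζ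
  swap
  · have h2 := mass_large hζ ht hd (not_le.1 h1)
    have h3 : 1 ≤ (1 / (((r + 1 : ℕ) : ℝ) * ζ)) *
        (∑ m ∈ range M, chi (hr (l.take m)) * yy (hr (l.take m))) := by
      rw [one_div, inv_mul_eq_div, le_div_iff₀ hK, one_mul]; exact h2
    linarith
  have hT : ¬ Tri (((l.drop (t + 1)).take r).foldl gs (hr (l.take t))) δ := fun h =>
    hB ⟨t, ht, hd.1, hd.2, h1, by rw [gr_after hd]; exact h⟩
  by_cases h5 : ε ≤ rho (hr (l.take t)) U k
  · have h6 := single_le_sum (f := fun t => ind (dth l t) * ind (ε ≤ rho (hr (l.take t)) U k ∧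
      ¬ Tri (((l.drop (t + 1)).take r).foldl gs (hr (l.take t))) δ))
      (fun _ _ => mul_nonneg (ind_nonneg _) (ind_nonneg _)) hm
    simp only [ind_pos hd, ind_pos (And.intro h5 hT), mul_one] at h6
    linarith
  by_cases h2 : yy (hr (l.take t)) ≤ x
  · have h6 := single_le_sum (f := fun t => ind (dth l t) * ind (yy (hr (l.take t)) ≤ x))
      (fun _ _ => mul_nonneg (ind_nonneg _) (ind_nonneg _)) hm
    simp only [ind_pos hd, ind_pos h2, mul_one] at h6
    linarith
  have h6 := single_le_sum (f := fun m =>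
    ind ((hr (l.take m)).Nonempty ∧ rho (hr (l.take m)) U k ≤ ε) * yg (l.take m))
    (fun _ _ => mul_nonneg (ind_nonneg _) (yg_nonneg _)) hm
  simp only [ind_pos (And.intro hd.1 (not_le.1 h5).le), one_mul] at h6
  have h7 := yy_le l t
  have h8 : 1 ≤ (1 / x) * beta l + (1 / x) * (∑ m ∈ range M,
      ind ((hr (l.take m)).Nonempty ∧ rho (hr (l.take m)) U k ≤ ε) * yg (l.take m)) := by
    rw [← mul_add, one_div, inv_mul_eq_div, le_div_iff₀ hx, one_mul]
    linarith [not_le.1 h2]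
  linarith

variable [DecidableEq V]

/-- conditioning on death at step `t` -/
theorem death {t L : ℕ} (ht : t < L) (G : St V → List (Pr V) → ℝ) (g : St V → ℝ)
    (hG : ∀ S : St V, S.Nonempty → EL (L - (t + 1)) (G S) ≤ g S) :
    EL L (fun l => ind (dth l t) * G (hr (l.take t)) (l.drop (t + 1))) ≤
      EL t fun l : List (Pr V) => chi (hr l) * hz (hr l) * g (hr l) := by
  obtain ⟨r, rfl⟩ : ∃ r, L = t + 1 + r := ⟨L - (t + 1), by omega⟩
  rw [show t + 1 + r - (t + 1) = r by omega] at hG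
  rw [EL_append, EL_snoc]
  refine EL_mono' t fun l hl => ?_
  have e1 : ∀ (a : Pr V) (l' : List (Pr V)), (l ++ [a] ++ l').take t = l := fun a l' => by
    rw [← hl]; simp
  have e2 : ∀ (a : Pr V) (l' : List (Pr V)), (l ++ [a] ++ l').take (t + 1) = l ++ [a] :=
    fun a l' => by
      have : t + 1 = (l ++ [a]).length := by simp [hl]
      rw [this, List.take_left]
  have e3 : ∀ (a : Pr V) (l' : List (Pr V)), (l ++ [a] ++ l').drop (t + 1) = l' := fun a l' => by
    have : t + 1 = (l ++ [a]).length := by simp [hl]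
    rw [this, List.drop_left]
  simp only [dth, e1, e2, e3, hr_snoc, EL_mul_left, ind_and]
  by_cases hS : (hr l).Nonempty
  · rw [chi_pos hS, ind_pos hS, one_mul, hz, ← av_mul_right]
    refine av_mono fun a => ?_
    rw [one_mul]
    exact mul_le_mul_of_nonneg_left (hG _ hS) (ind_nonneg _)
  · rw [ind_neg hS, chi, ind_neg hS]
    simp only [zero_mul, av_zero, le_refl]

theorem E2 (h : 2 ≤ Fintype.card V) {M L : ℕ} (hM : M ≤ L) {x : ℝ} (hx : 0 < x) :
    EL L (fun l : List (Pr V) => ∑ t ∈ range M, ind (dth l t) * ind (yy (hr (l.take t)) ≤ x)) ≤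
      2 * x * sm hs M (fun T : St V => chi T * yy T) Set.univ := by
  haveI := nonempty_Pr h
  rw [EL_sum, sm_hs_eq, mul_sum]
  refine sum_le_sum fun t ht => ?_
  have ht' : t < L := lt_of_lt_of_le (mem_range.1 ht) hM
  refine (death ht' (fun S _ => ind (yy S ≤ x)) (fun S => ind (yy S ≤ x))
    (fun S _ => (EL_const _ _).le)).trans ?_
  rw [← EL_mul_left]
  refine EL_mono t fun l => ?_
  have c0 := chi_nonneg (hr l)
  have y0 := yy_nonneg (hr l)
  by_cases hy : yy (hr l) ≤ x
  · rw [ind_pos hy, mul_one]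
    have h1 : hz (hr l) ≤ 2 * x * yy (hr l) := (hz_le h _).trans (by nlinarith)
    calc chi (hr l) * hz (hr l) ≤ chi (hr l) * (2 * x * yy (hr l)) :=
          mul_le_mul_of_nonneg_left h1 c0
      _ = _ := by ring
  · rw [ind_neg hy, mul_zero]; positivity

theorem E5 (h : 2 ≤ Fintype.card V) (M r k : ℕ) {ε δ B : ℝ} (hB : 0 ≤ B)
    (hT : ∀ S : St V, S.Nonempty → ε ≤ rho S U k → it gs r (fun T => ind (¬ Tri T δ)) S ≤ B) :
    EL (M + (r + 1)) (fun l : List (Pr V) => ∑ t ∈ range M, ind (dth l t) *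
      ind (ε ≤ rho (hr (l.take t)) U k ∧
        ¬ Tri (((l.drop (t + 1)).take r).foldl gs (hr (l.take t))) δ)) ≤ B := by
  haveI := nonempty_Pr h
  have h1 := sm_hz_le h M (Set.univ : St V)
  rw [sm_hs_eq] at h1
  rw [EL_sum]
  refine le_trans (sum_le_sum fun t ht => ?_ : _ ≤ ∑ t ∈ range M,
    (EL t fun l : List (Pr V) => chi (hr l) * hz (hr l)) * B) ?_
  · have ht' := mem_range.1 ht
    rw [← EL_mul_right]
    refine death (by omega) (fun S l' => ind (ε ≤ rho S U k ∧ ¬ Tri ((l'.take r).foldl gs S) δ))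
      (fun _ => B) fun S hS => ?_
    rw [EL_take (by omega) fun l' => ind (ε ≤ rho S U k ∧ ¬ Tri (l'.foldl gs S) δ)]
    by_cases hr' : ε ≤ rho S U k
    · exact le_trans (EL_mono r fun l' => ind_mono And.right) (hT S hS hr')
    · exact EL_le r fun l' _ => by rw [ind_neg fun h2 => hr' h2.1]; exact hB
  · rw [← sum_mul]; nlinarith

/-- the bound for one vertex set -/
theorem bound (h : 2 ≤ Fintype.card V) (M r k : ℕ) {ζ δ x ε B : ℝ} (hζ : 0 < ζ) (hx : 0 < x)
    (hB : 0 ≤ B)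
    (hT : ∀ S : St V, S.Nonempty → ε ≤ rho S U k → it gs r (fun T => ind (¬ Tri T δ)) S ≤ B) :
    EL (M + (r + 1)) (fun l : List (Pr V) => ind (¬ ∃ t, t < M ∧ (hr (l.take t)).Nonempty ∧
      ¬ (hr (l.take (t + 1))).Nonempty ∧ yy (hr (l.take (t - (r + 1)))) ≤ ζ ∧
      Tri (gr (l.take (t + (r + 1)))) δ)) ≤
    al M (Set.univ : St V) +
      (1 / (((r + 1 : ℕ) : ℝ) * ζ)) * sm hs M (fun T : St V => chi T * yy T) Set.univ +
      2 * x * sm hs M (fun T : St V => chi T * yy T) Set.univ +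
      (1 / x) * EL (M + (r + 1)) (fun l : List (Pr V) => beta l) +
      (1 / x) * (∑ m ∈ range M, EL m (fun l : List (Pr V) =>
        ind ((hr l).Nonempty ∧ rho (hr l) U k ≤ ε) * yg l)) + B := by
  haveI := nonempty_Pr h
  refine (EL_mono _ fun l => cover l M r k (δ := δ) (ε := ε) hζ hx).trans ?_
  rw [EL_add, EL_add, EL_add, EL_add, EL_add, EL_mul_left, EL_mul_left, EL_mul_left,
    EL_take (by omega) fun l : List (Pr V) => chi (hr l),
    EL_sum_take (by omega) fun l : List (Pr V) => chi (hr l) * yy (hr l),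
    EL_sum_take (by omega) fun l : List (Pr V) =>
      ind ((hr l).Nonempty ∧ rho (hr l) U k ≤ ε) * yg l]
  have h2 := E2 h (M := M) (L := M + (r + 1)) (by omega) hx
  have h5 := E5 h M r k hB hT
  have e0 : al M (Set.univ : St V) = EL M fun l : List (Pr V) => chi (hr l) := rfl
  rw [e0, sm_hs_eq] at *
  linarith

end IGN

open IGN in
theorem rowIGN (hY : RowY) (hP : RowYP) (hB : RowBETA) (hF : RowFM) (hT : RowTRI) : RowIGN := by
  intro η hη
  obtain ⟨C, hC⟩ := hY
  obtain ⟨D, hD⟩ := hB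
  have hC1 : 0 < |C| + 1 := by positivity
  set x : ℝ := η / (12 * (|C| + 1)) with hxd
  have hx : 0 < x := by positivity
  obtain ⟨k, ε, hk, hε, hP⟩ := hP (η / 6 * x) (by positivity)
  have hk0 : (0 : ℝ) < k := by exact_mod_cast hk
  have hδ : 0 < ε / (2 * k) := by positivity
  refine ⟨ε / (2 * k), hδ, fun ζ hζ => ?_⟩
  set δ : ℝ := ε / (2 * k) with hδd
  obtain ⟨r, hr1⟩ := exists_nat_ge
    (1 + ((k : ℝ) + 1) / (η / 6 * δ ^ 4) + (|C| + 1) / (η / 6 * ζ))
  have q1 : 0 ≤ ((k : ℝ) + 1) / (η / 6 * δ ^ 4) := by positivity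
  have q2 : 0 ≤ (|C| + 1) / (η / 6 * ζ) := by positivity
  have r1 : (1 : ℝ) ≤ r := by linarith
  have r2 : ((k : ℝ) + 1) / (r * δ ^ 4) ≤ η / 6 := by
    have : ((k : ℝ) + 1) / (η / 6 * δ ^ 4) ≤ r := by linarith
    rw [div_le_iff₀ (by positivity)] at this ⊢
    linarith
  have r3 : (1 / (((r + 1 : ℕ) : ℝ) * ζ)) * (|C| + 1) ≤ η / 6 := by
    have : (|C| + 1) / (η / 6 * ζ) ≤ ((r + 1 : ℕ) : ℝ) := by push_cast; linarith
    rw [div_le_iff₀ (by positivity)] at this
    rw [one_div, inv_mul_eq_div, div_le_iff₀ (by positivity)]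
    linarith
  refine ⟨r + 1, ?_⟩
  have ev1 : ∀ᶠ n : ℕ in atTop, pp n (3 * n) ≤ η / 6 :=
    (hF.eventually (gt_mem_nhds (show (0 : ℝ) < η / 6 by positivity))).mono fun _ h => h.le
  have ev2 : ∀ᶠ n : ℕ in atTop, D / (n : ℝ) ≤ η / 6 * x :=
    ((tendsto_const_div_atTop_nhds_zero_nat D).eventually
      (gt_mem_nhds (show (0 : ℝ) < η / 6 * x by positivity))).mono fun _ h => h.le
  filter_upwards [ev1, ev2, eventually_ge_atTop 2, eventually_ge_atTop (r + 1)] with n h1 h2 h3 h4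
  have hn : 2 ≤ Fintype.card (Fin n) := by simpa using h3
  have hb := bound hn (3 * n) r k (δ := δ) (ε := ε) (B := η / 6) hζ hx (by positivity)
    fun S hS hρ => (hT (Fin n) hn k r ε δ S hk (by exact_mod_cast r1) hδ
      (by rw [hδd]; field_simp; exact le_rfl) hS hρ).trans r2
  have y1 : sm hs (3 * n) (fun T : St (Fin n) => chi T * yy T) Set.univ ≤ |C| + 1 :=
    (hC (Fin n) hn (3 * n) (by simp)).trans (by linarith [le_abs_self C])
  have y2 := hP (Fin n) hn (3 * n) (by simp)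
  have y3 := hD (Fin n) hn (3 * n + (r + 1)) (by simp; omega)
  rw [Fintype.card_fin] at y3
  have b1 := mul_le_mul_of_nonneg_left y1
    (show (0 : ℝ) ≤ 1 / (((r + 1 : ℕ) : ℝ) * ζ) by positivity)
  have b2 := mul_le_mul_of_nonneg_left y1 (show (0 : ℝ) ≤ 2 * x by positivity)
  have b3 := mul_le_mul_of_nonneg_left (y3.trans h2) (show (0 : ℝ) ≤ 1 / x by positivity)
  have b4 := mul_le_mul_of_nonneg_left y2 (show (0 : ℝ) ≤ 1 / x by positivity)
  have e1 : 2 * x * (|C| + 1) = η / 6 := by rw [hxd]; field_simp; ring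
  have e2 : 1 / x * (η / 6 * x) = η / 6 := by field_simp
  have e3 : al (3 * n) (Set.univ : St (Fin n)) = pp n (3 * n) := rfl
  refine hb.trans ?_
  linarith

end Pool.Agent.MP_81f5b7_pr.H42
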