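import Pool.Agent.MP_81f5b7_pr.H42.Spec

/-! The threshold in the model with independent letters. -/

set_option autoImplicit false

namespace Pool.Agent.MP_81f5b7_pr.H42

open Finset Filter

namespace THR

theorem av_le {α : Type} [Fintype α] (f : α → ℝ) (c : ℝ) (hc : 0 ≤ c) (h : ∀ a, f a ≤ c) :
    av f ≤ c := by
  unfold av
  rcases Nat.eq_zero_or_pos (Fintype.card α) with h0 | h0
  · simp [h0, hc]
  · rw [div_le_iff₀ (by exact_mod_cast h0)]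
    calc ∑ a, f a ≤ ∑ _a : α, c := Finset.sum_le_sum fun a _ => h a
      _ = c * Fintype.card α := by simp [mul_comm]

theorem av_mono {α : Type} [Fintype α] (f g : α → ℝ) (h : ∀ a, f a ≤ g a) : av f ≤ av g :=
  div_le_div_of_nonneg_right (Finset.sum_le_sum fun a _ => h a) (Nat.cast_nonneg _)

theorem av_nonneg {α : Type} [Fintype α] (f : α → ℝ) (h : ∀ a, 0 ≤ f a) : 0 ≤ av f :=
  div_nonneg (Finset.sum_nonneg fun a _ => h a) (Nat.cast_nonneg _)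

theorem it_succ {α X : Type} [Fintype α] (st : X → α → X) (m : ℕ) (f : X → ℝ) (S : X) :
    it st (m + 1) f S = av fun a => it st m f (st S a) := rfl

theorem it_zero {α X : Type} [Fintype α] (st : X → α → X) (f : X → ℝ) (S : X) :
    it st 0 f S = f S := rfl

theorem chi_nonneg {V : Type} (S : St V) : 0 ≤ chi S := by
  unfold chi ind; split_ifs <;> norm_num

theorem chi_le_one {V : Type} (S : St V) : chi S ≤ 1 := by
  unfold chi ind; split_ifs <;> norm_num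

theorem chi_mono {V : Type} {S T : St V} (h : S ⊆ T) : chi S ≤ chi T := by
  unfold chi ind
  by_cases hS : S.Nonempty
  · rw [if_pos hS, if_pos (hS.mono h)]
  · rw [if_neg hS]; split_ifs <;> norm_num

theorem it_nonneg {α V : Type} [Fintype α] (st : St V → α → St V) (m : ℕ) :
    ∀ S : St V, 0 ≤ it st m chi S := by
  induction m with
  | zero => intro S; exact chi_nonneg S
  | succ m ih => intro S; rw [it_succ]; exact av_nonneg _ fun a => ih _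

theorem it_le_one {α V : Type} [Fintype α] (st : St V → α → St V) (m : ℕ) :
    ∀ S : St V, it st m chi S ≤ 1 := by
  induction m with
  | zero => intro S; exact chi_le_one S
  | succ m ih => intro S; rw [it_succ]; exact av_le _ _ zero_le_one fun a => ih _

theorem it_step {α V : Type} [Fintype α] (st : St V → α → St V) (h : ∀ S a, st S a ⊆ S) (m : ℕ) :
    ∀ S : St V, it st (m + 1) chi S ≤ it st m chi S := by
  induction m with
  | zero =>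
    intro S
    rw [it_succ]
    exact av_le _ _ (chi_nonneg S) fun a => chi_mono (h S a)
  | succ m ih =>
    intro S
    rw [it_succ st (m + 1), it_succ st m]
    exact av_mono _ _ fun a => ih _

theorem p0 (n m : ℕ) : 0 ≤ pp n m := it_nonneg _ _ _

theorem p1 (n m : ℕ) : pp n m ≤ 1 := it_le_one _ _ _

theorem pa (n : ℕ) : Antitone (pp n) :=
  antitone_nat_of_succ_le fun m => it_step hs (fun _ _ _ h => h.1) m _

theorem q0 (n m : ℕ) : 0 ≤ pl n m := it_nonneg _ _ _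

theorem qa (n : ℕ) : Antitone (pl n) :=
  antitone_nat_of_succ_le fun m => it_step ls (fun _ _ _ h => h.1) m _

theorem qz (n : ℕ) : pl n 0 = 1 := by
  show chi Set.univ = 1
  unfold chi ind
  rw [if_pos Set.univ_nonempty]

/-- expected life time -/
noncomputable def mu (n : ℕ) : ℝ := ∑ i ∈ range (3 * n), pp n i

/-- fourth root -/
noncomputable def rt (x : ℝ) : ℝ := Real.sqrt (Real.sqrt x)

/-- variance bound -/
def HW (C : ℝ) : Prop := ∀ n : ℕ, 2 ≤ n →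
  ∑ i ∈ range (3 * n), (2 * (i : ℝ) + 1) * pp n i - mu n ^ 2 ≤ C * (n * Real.sqrt n)

theorem mu_nonneg (n : ℕ) : 0 ≤ mu n := Finset.sum_nonneg fun i _ => p0 n i

theorem mu_le (n : ℕ) : mu n ≤ 3 * n := by
  unfold mu
  calc ∑ i ∈ range (3 * n), pp n i ≤ ∑ _i ∈ range (3 * n), (1 : ℝ) :=
        Finset.sum_le_sum fun i _ => p1 n i
    _ = 3 * n := by simp

theorem rt_sq (x : ℝ) : rt x ^ 2 = Real.sqrt x := Real.sq_sqrt (Real.sqrt_nonneg x)

theorem rt_four (x : ℝ) (hx : 0 ≤ x) : rt x ^ 4 = x := by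
  have h : rt x ^ 4 = (rt x ^ 2) ^ 2 := by ring
  rw [h, rt_sq, Real.sq_sqrt hx]

theorem rt_six (x : ℝ) (hx : 0 ≤ x) : rt x ^ 6 = x * Real.sqrt x := by
  have h : rt x ^ 6 = rt x ^ 4 * rt x ^ 2 := by ring
  rw [h, rt_sq, rt_four x hx]

theorem one_le_rt (x : ℝ) (hx : 1 ≤ x) : 1 ≤ rt x :=
  Real.one_le_sqrt.mpr (Real.one_le_sqrt.mpr hx)

theorem rt_tendsto : Tendsto (fun n : ℕ => rt n) atTop atTop :=
  Real.tendsto_sqrt_atTop.comp (Real.tendsto_sqrt_atTop.comp tendsto_natCast_atTop_atTop)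

theorem exA (C η : ℝ) (hC : 0 ≤ C) (hη : 0 < η) : ∃ A : ℝ, 1 ≤ A ∧ C ≤ η * A ^ 2 := by
  refine ⟨C / η + 1, by have := div_nonneg hC hη.le; linarith, ?_⟩
  have h0 : 0 ≤ C / η := div_nonneg hC hη.le
  have h1 : η * (C / η) = C := by field_simp
  have h2 : C / η ≤ (C / η + 1) ^ 2 := by nlinarith
  calc C = η * (C / η) := h1.symm
    _ ≤ η * (C / η + 1) ^ 2 := mul_le_mul_of_nonneg_left h2 hη.le

theorem cheb (hC : RowCHE) {C : ℝ} (hW : HW C) (hC0 : 0 ≤ C) (n N m : ℕ) (A η : ℝ) (hn : 2 ≤ n)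
    (hN : n ≤ N) (hA : 1 ≤ A) (hη : C ≤ η * A ^ 2) :
    ((m : ℝ) + A * rt N ^ 3 ≤ mu n → 1 - η ≤ pp n m) ∧
    (m < 3 * n → mu n + A * rt N ^ 3 ≤ m → pp n m ≤ η) := by
  have hN1 : (1 : ℝ) ≤ N := by exact_mod_cast (by omega : 1 ≤ N)
  have ht : 1 ≤ rt N := one_le_rt _ hN1
  have hD : 0 < A * rt N ^ 3 := by positivity
  have hnN : (n : ℝ) ≤ N := by exact_mod_cast hN
  have hle : (n : ℝ) * Real.sqrt n ≤ rt N ^ 6 := by
    rw [rt_six _ (by positivity)]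
    exact mul_le_mul hnN (Real.sqrt_le_sqrt hnN) (Real.sqrt_nonneg _) (by positivity)
  have hW' : ∑ i ∈ range (3 * n), (2 * (i : ℝ) + 1) * pp n i -
      (∑ i ∈ range (3 * n), pp n i) ^ 2 ≤ C * rt N ^ 6 :=
    (hW n hn).trans (mul_le_mul_of_nonneg_left hle hC0)
  have hq : C * rt N ^ 6 / (A * rt N ^ 3) ^ 2 ≤ η := by
    rw [div_le_iff₀ (by positivity)]
    have h6 : 0 ≤ rt (N : ℝ) ^ 6 := by positivity
    calc C * rt N ^ 6 ≤ η * A ^ 2 * rt N ^ 6 := mul_le_mul_of_nonneg_right hη h6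
      _ = η * (A * rt N ^ 3) ^ 2 := by ring
  have h := hC (pp n) (3 * n) m _ _ (p0 n) (p1 n) (pa n) hD hW'
  refine ⟨fun h1 => ?_, fun h1 h2 => ?_⟩
  · have := h.1 h1
    linarith
  · exact (h.2 h1 h2).trans hq

theorem pow_ge (a b K : ℝ) (m : ℕ) (ha : 0 < a) (hb : 0 ≤ b) (h : m * b ≤ K * a) :
    Real.exp (-K) ≤ (a / (a + b)) ^ m := by
  have h1 : Real.exp (-(b / a)) ≤ a / (a + b) := by
    have h2 : b / a + 1 ≤ Real.exp (b / a) := Real.add_one_le_exp _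
    have h3 : a / (a + b) = (b / a + 1)⁻¹ := by field_simp; ring
    rw [h3, Real.exp_neg]
    exact inv_anti₀ (by positivity) h2
  have h4 : (m : ℝ) * (b / a) ≤ K := by
    rw [← mul_div_assoc, div_le_iff₀ ha]; exact h
  calc Real.exp (-K) ≤ Real.exp (m * -(b / a)) := Real.exp_le_exp.mpr (by linarith)
    _ = Real.exp (-(b / a)) ^ m := Real.exp_nat_mul _ _
    _ ≤ (a / (a + b)) ^ m := pow_le_pow_left₀ (Real.exp_pos _).le h1 m

theorem q_ge (hB : RowBGT) (n k : ℕ) (hn : 2 ≤ n) (hk : (k : ℝ) ≤ 3 * n)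
    (h : 1 / 2 ≤ pp n k) : Real.exp (-6) / 2 ≤ pl n k := by
  have hn' : (2 : ℝ) ≤ n := by exact_mod_cast hn
  have h1 := pow_ge ((n : ℝ) - 1) 1 6 k (by linarith) zero_le_one (by linarith)
  have h2 : ((n : ℝ) - 1) / ((n : ℝ) - 1 + 1) = 1 - 1 / (n : ℝ) := by
    have : (n : ℝ) - 1 + 1 = n := by ring
    rw [this]; field_simp
  rw [h2] at h1
  rw [hB.1 n k hn]
  have h3 := Real.exp_pos (-6)
  nlinarith

theorem q_le (hB : RowBGT) (n k : ℕ) (hn : 2 ≤ n) : pl n k ≤ pp n k := by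
  have hn' : (2 : ℝ) ≤ n := by exact_mod_cast hn
  have h1 : 1 / (n : ℝ) ≤ 1 := by rw [div_le_one (by linarith)]; linarith
  have h2 : 0 ≤ 1 / (n : ℝ) := by positivity
  rw [hB.1 n k hn]
  exact mul_le_of_le_one_left (p0 n k) (pow_le_one₀ (by linarith) (by linarith))

/-- one side of the interpolation -/
theorem side (hC : RowCHE) (hB : RowBGT) {C : ℝ} (hW : HW C) (hC0 : 0 ≤ C) (A c θ : ℝ)
    (n N m : ℕ) (hA : 1 ≤ A) (hCA : C ≤ 1 / 2 * A ^ 2) (hn : 2 ≤ n) (hN : n ≤ N)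
    (hθ : 1 / 3 ≤ θ) (hθn : θ * N = n) (hc : c * n ≤ mu n)
    (hm : (m : ℝ) ≤ c * N - 3 * (A + 4) * rt N ^ 3) :
    Real.exp (-6) / 2 ≤ pl n ⌈m * θ + 3 * rt N ^ 2⌉₊ := by
  have hN1 : (1 : ℝ) ≤ N := by exact_mod_cast (by omega : 1 ≤ N)
  have ht : 1 ≤ rt N := one_le_rt _ hN1
  have h2 : 1 ≤ rt (N : ℝ) ^ 2 := one_le_pow₀ ht
  have h3 : rt (N : ℝ) ^ 2 ≤ rt N ^ 3 := pow_le_pow_right₀ ht (by norm_num)
  have hx : 0 ≤ (m : ℝ) * θ + 3 * rt N ^ 2 := by positivity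
  have hk := (Nat.ceil_lt_add_one hx).le
  have h4 : (m : ℝ) * θ ≤ (c * N - 3 * (A + 4) * rt N ^ 3) * θ :=
    mul_le_mul_of_nonneg_right hm (by linarith)
  have h5 : (c * N - 3 * (A + 4) * rt N ^ 3) * θ = c * n - (A + 4) * rt N ^ 3 * (3 * θ) := by
    rw [← hθn]; ring
  have h6 : (A + 4) * rt N ^ 3 * 1 ≤ (A + 4) * rt N ^ 3 * (3 * θ) :=
    mul_le_mul_of_nonneg_left (by linarith) (by positivity)
  have h7 : ((⌈(m : ℝ) * θ + 3 * rt N ^ 2⌉₊ : ℕ) : ℝ) + A * rt N ^ 3 ≤ mu n := by linarith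
  have h8 := (cheb hC hW hC0 n N _ A (1 / 2) hn hN hA hCA).1 h7
  have h9 : 0 ≤ A * rt (N : ℝ) ^ 3 := by positivity
  exact q_ge hB n _ hn (by linarith [mu_le n]) (by linarith)

theorem super (hC : RowCHE) (hB : RowBGT) (hI : RowBIN) {C : ℝ} (hW : HW C) (hC0 : 0 ≤ C) :
    ∃ (A : ℝ) (n₀ : ℕ), ∀ n₁ n₂ : ℕ, n₀ ≤ n₁ → n₀ ≤ n₂ → n₁ ≤ 2 * n₂ → n₂ ≤ 2 * n₁ →
      min (mu n₁ / n₁) (mu n₂ / n₂) - A / Real.sqrt (Real.sqrt ((n₁ : ℝ) + n₂)) ≤
        mu (n₁ + n₂) / ((n₁ + n₂ : ℕ) : ℝ) := by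
  obtain ⟨A, hA, hCA⟩ := exA C (1 / 2) hC0 (by norm_num)
  have he := Real.exp_pos (-6)
  obtain ⟨A', hA', hCA'⟩ := exA C (Real.exp (-6) ^ 2 / 16) hC0 (by positivity)
  refine ⟨3 * (A + 4) + A' + 1, 2, fun n₁ n₂ h1 h2 h12 h21 => ?_⟩
  have hcast : ((n₁ + n₂ : ℕ) : ℝ) = (n₁ : ℝ) + n₂ := by push_cast; ring
  have hr : Real.sqrt (Real.sqrt ((n₁ : ℝ) + n₂)) = rt ((n₁ + n₂ : ℕ) : ℝ) := by
    rw [hcast]; rfl
  rw [hr]
  have a1 : (2 : ℝ) ≤ n₁ := by exact_mod_cast h1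
  have a2 : (2 : ℝ) ≤ n₂ := by exact_mod_cast h2
  have a12 : (n₁ : ℝ) ≤ 2 * n₂ := by exact_mod_cast h12
  have a21 : (n₂ : ℝ) ≤ 2 * n₁ := by exact_mod_cast h21
  set c := min (mu n₁ / n₁) (mu n₂ / n₂) with hc
  have c1 : c * n₁ ≤ mu n₁ := by
    rw [← le_div_iff₀ (by linarith)]; exact min_le_left _ _
  have c2 : c * n₂ ≤ mu n₂ := by
    rw [← le_div_iff₀ (by linarith)]; exact min_le_right _ _
  have hNpos : (0 : ℝ) < ((n₁ + n₂ : ℕ) : ℝ) := by rw [hcast]; linarith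
  have ht : 1 ≤ rt ((n₁ + n₂ : ℕ) : ℝ) := one_le_rt _ (by rw [hcast]; linarith)
  have h4 := rt_four ((n₁ + n₂ : ℕ) : ℝ) hNpos.le
  have c3 : c * ((n₁ + n₂ : ℕ) : ℝ) ≤ 3 * ((n₁ + n₂ : ℕ) : ℝ) := by
    rw [hcast]; linarith [mu_le n₁, mu_le n₂]
  have t3 : 1 ≤ rt ((n₁ + n₂ : ℕ) : ℝ) ^ 3 := one_le_pow₀ ht
  have key : c * ((n₁ + n₂ : ℕ) : ℝ) - (3 * (A + 4) + A' + 1) * rt ((n₁ + n₂ : ℕ) : ℝ) ^ 3 ≤
      mu (n₁ + n₂) := by
    by_cases hneg : c * ((n₁ + n₂ : ℕ) : ℝ) - 3 * (A + 4) * rt ((n₁ + n₂ : ℕ) : ℝ) ^ 3 < 0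
    · have := mu_nonneg (n₁ + n₂)
      nlinarith
    · have hpos := not_lt.mp hneg
      have hm := Nat.floor_le hpos
      have hm' := (Nat.lt_floor_add_one
        (c * ((n₁ + n₂ : ℕ) : ℝ) - 3 * (A + 4) * rt ((n₁ + n₂ : ℕ) : ℝ) ^ 3)).le
      set m := ⌊c * ((n₁ + n₂ : ℕ) : ℝ) - 3 * (A + 4) * rt ((n₁ + n₂ : ℕ) : ℝ) ^ 3⌋₊ with hmdef
      have hs0 : (0 : ℝ) < (n₁ : ℝ) + n₂ := by linarith
      have θ1 : 1 / 3 ≤ (n₁ : ℝ) / (n₁ + n₂) := by rw [le_div_iff₀ hs0]; linarith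
      have θ2 : (n₁ : ℝ) / (n₁ + n₂) ≤ 2 / 3 := by rw [div_le_iff₀ hs0]; linarith
      have s1 := side hC hB hW hC0 A c ((n₁ : ℝ) / (n₁ + n₂)) n₁ (n₁ + n₂) m hA hCA h1
        (by omega) θ1 (by rw [hcast]; field_simp) c1 hm
      have s2 := side hC hB hW hC0 A c (1 - (n₁ : ℝ) / (n₁ + n₂)) n₂ (n₁ + n₂) m hA hCA h2
        (by omega) (by linarith) (by rw [hcast]; field_simp; ring) c2 hm
      have hD : 0 < 3 * rt ((n₁ + n₂ : ℕ) : ℝ) ^ 2 := by positivity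
      have b := hI ((n₁ : ℝ) / (n₁ + n₂)) _ m _ _ (pl n₁) (pl n₂) (by linarith) (by linarith) hD
        (q0 n₁) (q0 n₂) (qa n₁) (qa n₂) (Nat.le_ceil _) (Nat.le_ceil _)
      have b2 := b.trans (hB.2 n₁ n₂ m (by omega) (by omega))
      have hml : (m : ℝ) < 3 * ((n₁ + n₂ : ℕ) : ℝ) := by nlinarith
      have hfrac : (m : ℝ) / (3 * rt ((n₁ + n₂ : ℕ) : ℝ) ^ 2) ^ 2 ≤ 1 / 2 := by
        rw [div_le_iff₀ (by positivity)]
        have : (3 * rt ((n₁ + n₂ : ℕ) : ℝ) ^ 2) ^ 2 = 9 * rt ((n₁ + n₂ : ℕ) : ℝ) ^ 4 := by ring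
        rw [this, h4]; linarith
      have b3 : Real.exp (-6) / 2 * (Real.exp (-6) / 2) ≤ _ :=
        mul_le_mul s1 s2 (by positivity) (q0 _ _)
      have b4 : 1 / 2 * (Real.exp (-6) / 2 * (Real.exp (-6) / 2)) ≤ pl (n₁ + n₂) m :=
        (mul_le_mul (by linarith) b3 (by positivity) (by linarith)).trans b2
      have b5 := b4.trans (q_le hB (n₁ + n₂) m (by omega))
      have hml' : m < 3 * (n₁ + n₂) := by exact_mod_cast hml
      have b6 := (cheb hC hW hC0 (n₁ + n₂) (n₁ + n₂) m A' _ (by omega) le_rfl hA' hCA').2 hml'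
      by_contra hcon
      have hcon' := not_le.mp hcon
      have b7 := b6 (by linarith)
      have : 0 < Real.exp (-6) ^ 2 := by positivity
      nlinarith
  rw [le_div_iff₀ hNpos]
  have e1 : (3 * (A + 4) + A' + 1) / rt ((n₁ + n₂ : ℕ) : ℝ) * ((n₁ + n₂ : ℕ) : ℝ) =
      (3 * (A + 4) + A' + 1) * rt ((n₁ + n₂ : ℕ) : ℝ) ^ 3 := by
    have h0 : rt ((n₁ + n₂ : ℕ) : ℝ) ≠ 0 := by positivity
    generalize rt ((n₁ + n₂ : ℕ) : ℝ) = t at h4 h0
    rw [← h4]; field_simp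
  rw [sub_mul, e1]
  exact key

theorem shift (hC : RowCHE) (hB : RowBGT) {C : ℝ} (hW : HW C) (hC0 : 0 ≤ C) (j : ℕ) (hj : 1 ≤ j) :
    ∃ A : ℝ, 0 ≤ A ∧ ∀ n : ℕ, 2 ≤ n → mu n - A * rt ((n + j : ℕ) : ℝ) ^ 3 ≤ mu (n + j) := by
  obtain ⟨A, hA, hCA⟩ := exA C (1 / 2) hC0 (by norm_num)
  have he := Real.exp_pos (-6)
  have he' := Real.exp_pos (-(3 * (j : ℝ)))
  obtain ⟨A', hA', hCA'⟩ :=
    exA C (Real.exp (-(3 * (j : ℝ))) * (Real.exp (-6) / 4)) hC0 (by positivity)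
  refine ⟨A + A' + 1, by linarith, fun n hn => ?_⟩
  have a1 : (2 : ℝ) ≤ n := by exact_mod_cast hn
  have hN1 : (1 : ℝ) ≤ ((n + j : ℕ) : ℝ) := by exact_mod_cast (by omega : 1 ≤ n + j)
  have ht := one_le_rt _ hN1
  have t3 : 1 ≤ rt ((n + j : ℕ) : ℝ) ^ 3 := one_le_pow₀ ht
  by_cases hneg : mu n - A * rt ((n + j : ℕ) : ℝ) ^ 3 < 0
  · have := mu_nonneg (n + j)
    nlinarith
  · have hpos := not_lt.mp hneg
    have hm := Nat.floor_le hpos
    have hm' := (Nat.lt_floor_add_one (mu n - A * rt ((n + j : ℕ) : ℝ) ^ 3)).le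
    set m := ⌊mu n - A * rt ((n + j : ℕ) : ℝ) ^ 3⌋₊ with hmdef
    have h8 := (cheb hC hW hC0 n (n + j) m A (1 / 2) hn (by omega) hA hCA).1 (by linarith)
    have h9 : 0 ≤ A * rt ((n + j : ℕ) : ℝ) ^ 3 := by positivity
    have hm3 : (m : ℝ) ≤ 3 * n := by linarith [mu_le n]
    have s1 := q_ge hB n m hn hm3 (by linarith)
    have hj0 : (0 : ℝ) ≤ j := Nat.cast_nonneg j
    have s2 := pow_ge (n : ℝ) j (3 * j) m (by linarith) hj0 (by nlinarith)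
    have hs0 : (0 : ℝ) < (n : ℝ) + j := by linarith
    have θ0 : 0 ≤ (n : ℝ) / (n + j) := by positivity
    have θ1 : 0 ≤ 1 - (n : ℝ) / (n + j) := by
      rw [sub_nonneg, div_le_one hs0]; linarith
    have b := hB.2 n j m (by omega) hj
    have b1 := Finset.single_le_sum (f := fun k => (m.choose k : ℝ) * ((n : ℝ) / (n + j)) ^ k *
      (1 - (n : ℝ) / (n + j)) ^ (m - k) * (pl n k * pl j (m - k))) (s := range (m + 1))
      (fun k _ => mul_nonneg (mul_nonneg (mul_nonneg (Nat.cast_nonneg _) (pow_nonneg θ0 _))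
        (pow_nonneg θ1 _)) (mul_nonneg (q0 _ _) (q0 _ _))) (self_mem_range_succ m)
    have b2 := b1.trans b
    simp only [Nat.choose_self, Nat.cast_one, one_mul, Nat.sub_self, pow_zero, mul_one, qz] at b2
    have b3 : Real.exp (-(3 * (j : ℝ))) * (Real.exp (-6) / 2) ≤ pl (n + j) m :=
      (mul_le_mul s2 s1 (by positivity) (pow_nonneg θ0 _)).trans b2
    have b5 := b3.trans (q_le hB (n + j) m (by omega))
    have hml : m ≤ 3 * n := by exact_mod_cast hm3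
    have b6 := (cheb hC hW hC0 (n + j) (n + j) m A' _ (by omega) le_rfl hA' hCA').2 (by omega)
    by_contra hcon
    have hcon' := not_le.mp hcon
    have b7 := b6 (by linarith)
    have : 0 < Real.exp (-(3 * (j : ℝ))) * Real.exp (-6) := by positivity
    nlinarith

theorem shift' (hC : RowCHE) (hB : RowBGT) {C : ℝ} (hW : HW C) (hC0 : 0 ≤ C) (j : ℕ) (ε : ℝ)
    (hε : 0 < ε) : ∀ᶠ n : ℕ in atTop, mu n / n - ε ≤ mu (n + j) / ((n + j : ℕ) : ℝ) := by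
  rcases Nat.eq_zero_or_pos j with rfl | hj
  · exact Eventually.of_forall fun n => by simp [hε.le]
  obtain ⟨A, hA, h⟩ := shift hC hB hW hC0 j hj
  have e1 : ∀ᶠ n : ℕ in atTop, (A + 3 * j) / ε ≤ rt ((n + j : ℕ) : ℝ) :=
    (rt_tendsto.comp (tendsto_add_atTop_nat j)).eventually_ge_atTop _
  filter_upwards [e1, eventually_ge_atTop 2] with n h1 hn
  have a1 : (2 : ℝ) ≤ n := by exact_mod_cast hn
  have hj0 : (0 : ℝ) ≤ j := Nat.cast_nonneg j
  have hN1 : (1 : ℝ) ≤ ((n + j : ℕ) : ℝ) := by exact_mod_cast (by omega : 1 ≤ n + j)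
  have ht := one_le_rt _ hN1
  have t3 : 1 ≤ rt ((n + j : ℕ) : ℝ) ^ 3 := one_le_pow₀ ht
  have h4 := rt_four ((n + j : ℕ) : ℝ) (by linarith)
  have h5 := h n hn
  have hc3 : mu n / n ≤ 3 := by rw [div_le_iff₀ (by linarith)]; exact mu_le n
  have hcn : mu n / n * n = mu n := by field_simp
  have hcast : ((n + j : ℕ) : ℝ) = (n : ℝ) + j := by push_cast; ring
  rw [div_le_iff₀ hε] at h1
  have h6 : (A + 3 * j) * rt ((n + j : ℕ) : ℝ) ^ 3 ≤ ε * ((n + j : ℕ) : ℝ) := by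
    calc (A + 3 * j) * rt ((n + j : ℕ) : ℝ) ^ 3
        ≤ rt ((n + j : ℕ) : ℝ) * ε * rt ((n + j : ℕ) : ℝ) ^ 3 :=
          mul_le_mul_of_nonneg_right h1 (by linarith)
      _ = ε * rt ((n + j : ℕ) : ℝ) ^ 4 := by ring
      _ = ε * ((n + j : ℕ) : ℝ) := by rw [h4]
  rw [le_div_iff₀ (by linarith), sub_mul]
  have h7 : mu n / n * ((n + j : ℕ) : ℝ) = mu n + mu n / n * j := by rw [hcast, mul_add, hcn]
  have h8 : mu n / n * j ≤ 3 * j := mul_le_mul_of_nonneg_right hc3 hj0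
  have h9 : 3 * (j : ℝ) * 1 ≤ 3 * j * rt ((n + j : ℕ) : ℝ) ^ 3 :=
    mul_le_mul_of_nonneg_left t3 (by linarith)
  rw [h7]
  linarith

theorem exW (hY : RowY) (hV : RowVAR) : ∃ C : ℝ, 0 ≤ C ∧ HW C := by
  obtain ⟨C, hC⟩ := hY
  refine ⟨18 * max C 0, by positivity, fun n hn => ?_⟩
  have h1 := hC (Fin n) (by simpa using hn) (3 * n) (by simp)
  have h2 := hV (Fin n) (by simpa using hn) (3 * n) Set.univ
  have h3 : Real.sqrt (2 * ((3 * n : ℕ) : ℝ)) ≤ 3 * Real.sqrt n := by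
    have h9 : (3 : ℝ) * Real.sqrt n = Real.sqrt (9 * n) := by
      rw [Real.sqrt_mul (by norm_num), show (9 : ℝ) = 3 ^ 2 by norm_num,
        Real.sqrt_sq (by norm_num)]
    rw [h9]
    apply Real.sqrt_le_sqrt
    have : (0 : ℝ) ≤ n := Nat.cast_nonneg n
    push_cast; linarith
  have h4 : 2 * ((3 * n : ℕ) : ℝ) * Real.sqrt (2 * ((3 * n : ℕ) : ℝ)) *
      sm hs (3 * n) (fun T : St (Fin n) => chi T * yy T) Set.univ ≤
      18 * max C 0 * (n * Real.sqrt n) := by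
    calc _ ≤ 2 * ((3 * n : ℕ) : ℝ) * Real.sqrt (2 * ((3 * n : ℕ) : ℝ)) * max C 0 :=
          mul_le_mul_of_nonneg_left (h1.trans (le_max_left _ _)) (by positivity)
      _ ≤ 2 * ((3 * n : ℕ) : ℝ) * (3 * Real.sqrt n) * max C 0 :=
          mul_le_mul_of_nonneg_right (mul_le_mul_of_nonneg_left h3 (by positivity))
            (le_max_right _ _)
      _ = 18 * max C 0 * (n * Real.sqrt n) := by push_cast; ring
  exact h2.trans h4

end THR

open THR in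
theorem rowTHR (hY : RowY) (hV : RowVAR) (hF : RowFM) (hB : RowBGT) (hC : RowCHE) (hI : RowBIN)
    (hL : RowLIM) : RowTHR := by
  obtain ⟨C, hC0, hW⟩ := exW hY hV
  have c0 : ∀ n : ℕ, 0 ≤ mu n / n := fun n => div_nonneg (mu_nonneg n) (Nat.cast_nonneg n)
  have c3 : ∀ n : ℕ, mu n / n ≤ 3 := fun n =>
    div_le_of_le_mul₀ (Nat.cast_nonneg n) (by norm_num) (mu_le n)
  obtain ⟨c, hc⟩ := hL (fun n => mu n / n) c0 c3 (super hC hB hI hW hC0)
    (fun j ε hε => shift' hC hB hW hC0 j ε hε)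
  refine ⟨c, ge_of_tendsto' hc c0, le_of_tendsto' hc c3, fun ε η hε hη => ?_⟩
  obtain ⟨A, hA, hCA⟩ := exA C η hC0 hη
  have e1 : ∀ᶠ n : ℕ in atTop, c - ε / 2 < mu n / n := hc.eventually_const_lt (by linarith)
  have e2 : ∀ᶠ n : ℕ in atTop, mu n / n < c + ε / 2 := hc.eventually_lt_const (by linarith)
  have e3 : ∀ᶠ n : ℕ in atTop, A / (ε / 2) ≤ rt n := rt_tendsto.eventually_ge_atTop _
  have e4 : ∀ᶠ n : ℕ in atTop, pp n (3 * n) < η := hF.eventually_lt_const hη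
  filter_upwards [e1, e2, e3, e4, eventually_ge_atTop 2] with n h1 h2 h3 h4 hn m
  have a1 : (2 : ℝ) ≤ n := by exact_mod_cast hn
  have ht := one_le_rt (n : ℝ) (by linarith)
  have h5 := rt_four (n : ℝ) (by linarith)
  rw [lt_div_iff₀ (by linarith)] at h1
  rw [div_lt_iff₀ (by linarith)] at h2
  rw [div_le_iff₀ (by linarith)] at h3
  have h6 : A * rt n ^ 3 ≤ ε / 2 * n := by
    calc A * rt n ^ 3 ≤ rt n * (ε / 2) * rt n ^ 3 :=
          mul_le_mul_of_nonneg_right h3 (by positivity)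
      _ = ε / 2 * rt n ^ 4 := by ring
      _ = ε / 2 * n := by rw [h5]
  have h7 := cheb hC hW hC0 n n m A η hn le_rfl hA hCA
  refine ⟨fun h => h7.1 (by linarith), fun h => ?_⟩
  by_cases hm : m < 3 * n
  · exact h7.2 hm (by linarith)
  · exact (pa n (not_lt.mp hm)).trans h4.le

end Pool.Agent.MP_81f5b7_pr.H42
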