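import Pool.Agent.MP_81f5b7_pr.H42.FIN
import Pool.Agent.MP_81f5b7_pr.H42.THR

/-! The window of the first rejection and the limit of its centre. -/

set_option autoImplicit false
set_option linter.style.haveILetI false

namespace Pool.Agent.MP_81f5b7_pr.H42

open Finset Filter

/-- First hand-in, with the window. -/
def GoalW : Prop := ∃ μ : ℕ → ℝ, (∃ c : ℝ, Tendsto (fun n : ℕ => μ n / n) atTop (nhds c)) ∧
  ∀ η : ℝ, 0 < η → ∃ A : ℝ, ∀ᶠ n : ℕ in atTop, 1 - η ≤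
    prob fun π : Scan n => ∃ t : ℕ, FirstRej π t ∧ |(t : ℝ) - μ n| ≤ A * (n : ℝ) ^ (3 / 4 : ℝ)

namespace WIN

theorem rt_cube (x : ℝ) (hx : 0 ≤ x) : THR.rt x ^ 3 = x ^ (3 / 4 : ℝ) := by
  unfold THR.rt
  rw [Real.sqrt_eq_rpow, Real.sqrt_eq_rpow, ← Real.rpow_mul hx, ← Real.rpow_natCast,
    ← Real.rpow_mul hx]
  norm_num

end WIN

open FIN THR WIN in
theorem goalW (hY : RowY) (hV : RowVAR) (hF : RowFM) (hB : RowBGT) (hCh : RowCHE) (hI : RowBIN)
    (hLim : RowLIM) (hL : RowLINK) (hS : RowSEM) : GoalW := by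
  obtain ⟨W, hW0, hW⟩ := exW hY hV
  have c0 : ∀ n : ℕ, 0 ≤ mu n / n := fun n => div_nonneg (mu_nonneg n) (Nat.cast_nonneg n)
  have c3 : ∀ n : ℕ, mu n / n ≤ 3 := fun n =>
    div_le_of_le_mul₀ (Nat.cast_nonneg n) (by norm_num) (mu_le n)
  obtain ⟨C, hC, hL⟩ := hL
  refine ⟨mu, hLim (fun n => mu n / n) c0 c3 (super hCh hB hI hW hW0)
    (fun j ε hε => shift' hCh hB hW hW0 j ε hε), fun η hη => ?_⟩
  have hη' : 0 < η / (2 * C) := by positivity
  obtain ⟨A, hA, hCA⟩ := exA W (η / (2 * C)) hW0 hη'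
  refine ⟨A + 1, ?_⟩
  filter_upwards [hL, hF.eventually_lt_const hη', eventually_ge_atTop 2] with n hL h3 hn
  have hn' : (2 : ℝ) ≤ n := by exact_mod_cast hn
  haveI : Nonempty (Pr (Fin n)) := nonempty_Pr (by simpa using hn)
  rw [← rt_cube _ (by linarith)]
  have hr1 : 1 ≤ rt n ^ 3 := one_le_pow₀ (one_le_rt _ (by linarith))
  set D := rt n ^ 3 with hD
  have hAD : 0 ≤ A * D := by positivity
  set m₁ := ⌊mu n - A * D⌋₊ with hm₁
  set m₂ := min ⌈mu n + A * D⌉₊ (3 * n) with hm₂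
  have h2' : (m₂ : ℝ) ≤ mu n + A * D + 1 := by
    have h : (m₂ : ℝ) ≤ ⌈mu n + A * D⌉₊ := by exact_mod_cast min_le_left _ _
    linarith [Nat.ceil_lt_add_one (add_nonneg (mu_nonneg n) hAD)]
  have h1' : mu n - A * D < m₁ + 1 := Nat.lt_floor_add_one _
  have h24 : m₂ ≤ 4 * n := (min_le_right _ _).trans (by omega)
  have h12 : m₁ ≤ m₂ := by
    refine le_min (Nat.floor_le_of_le ?_) (Nat.floor_le_of_le ?_)
    · linarith [Nat.le_ceil (mu n + A * D)]
    · push_cast; linarith [mu_le n]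
  have hp1 : 1 - η / (2 * C) ≤ pp n m₁ := by
    by_cases h : 0 ≤ mu n - A * D
    · exact (cheb hCh hW hW0 n n m₁ A _ hn le_rfl hA hCA).1 (by linarith [Nat.floor_le h])
    · rw [hm₁, Nat.floor_of_nonpos (not_le.1 h).le, pp_zero]; linarith
  have hp2 : pp n m₂ ≤ η / (2 * C) := by
    by_cases h : ⌈mu n + A * D⌉₊ < 3 * n
    · rw [hm₂, min_eq_left h.le]
      exact (cheb hCh hW hW0 n n _ A _ hn le_rfl hA hCA).2 h (Nat.le_ceil _)
    · rw [hm₂, min_eq_right (not_lt.1 h)]; exact h3.le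
  have key := hL m₂ h24
    (fun π => ¬ ∃ t : ℕ, FirstRej π t ∧ |(t : ℝ) - mu n| ≤ (A + 1) * D)
    (fun l => ¬ (hr (l.take m₁)).Nonempty ∨ (hr (l.take m₂)).Nonempty) (by
      intro π l hl hm hb
      by_contra hB
      rw [not_or, not_not] at hB
      obtain ⟨t, t1, t2, t3⟩ := exists_death l hB.1 hB.2
      refine hb ⟨t, ((hS n π l hm).2 t (hl ▸ t2)).2 t3, ?_⟩
      have t1' : (m₁ : ℝ) ≤ t := by exact_mod_cast t1
      have t2' : (t : ℝ) ≤ m₂ := by exact_mod_cast t2.le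
      rw [abs_le]; constructor <;> nlinarith)
  have hE : EL m₂ (fun l : List (Pr (Fin n)) =>
      ind (¬ (hr (l.take m₁)).Nonempty ∨ (hr (l.take m₂)).Nonempty)) ≤
      (1 - pp n m₁) + pp n m₂ := by
    refine (EL_mono _ fun l => ind_or_le _ _).trans_eq ?_
    simp only [ind_not]
    rw [EL_add, EL_sub, EL_const, EL_take h12 fun l => ind (hr l).Nonempty,
      EL_take le_rfl fun l => ind (hr l).Nonempty]
    rfl
  rw [prob_not]
  have h3 : C * (2 * (η / (2 * C))) = η := by field_simp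
  have h4 := mul_le_mul_of_nonneg_left (hE.trans (show _ ≤ 2 * (η / (2 * C)) by linarith)) hC.le
  linarith

end Pool.Agent.MP_81f5b7_pr.H42
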