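import Pool.Agent.MP_81f5b7_pr.H42.Kit

/-! Covering probabilities and their drift. -/

set_option autoImplicit false
set_option linter.style.haveILetI false

namespace Pool.Agent.MP_81f5b7_pr.H42

open Finset

variable {V : Type}

theorem cov_mono {S T : St V} (h : T ⊆ S) {Q : Lst V} {z : List V} (c : cov S Q z) : cov T Q z :=
  fun σ hσ => c σ (h hσ)
theorem cov_mono_list {S : St V} {Q : Lst V} {z z' : List V} (h : ∀ x ∈ z, x ∈ z')
    (c : cov S Q z) : cov S Q z' := fun σ hσ a ha =>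
  let ⟨x, hx, e⟩ := c σ hσ a ha; ⟨x, h x hx, e⟩
theorem cov_cons {S : St V} {Q : Lst V} {z : List V} (x : V) (c : cov S Q z) : cov S Q (x :: z) :=
  cov_mono_list (fun _ h => List.mem_cons_of_mem _ h) c
theorem cov_swap {S : St V} {Q : Lst V} {z : List V} {x y : V} :
    cov S Q (x :: y :: z) ↔ cov S Q (y :: x :: z) :=
  ⟨cov_mono_list (by simp only [List.mem_cons]; tauto),
    cov_mono_list (by simp only [List.mem_cons]; tauto)⟩
theorem cov_mono_Q {S : St V} {Q Q' : Lst V} (h : ∀ σ ∈ S, Q' σ ⊆ Q σ) {z : List V}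
    (c : cov S Q z) : cov S Q' z := fun σ hσ a ha => c σ hσ a (h σ hσ ha)
theorem cov_er {S : St V} {Q : Lst V} {z : List V} {x : V} :
    cov S (er Q x) z ↔ cov S Q (x :: z) := by
  constructor
  · intro h σ hσ c hc
    by_cases e : σ x = c
    · exact ⟨x, List.mem_cons_self, e⟩
    · obtain ⟨y, hy, e'⟩ := h σ hσ c (mem_erase.2 ⟨fun e' => e e'.symm, hc⟩)
      exact ⟨y, List.mem_cons_of_mem _ hy, e'⟩
  · intro h σ hσ c hc
    obtain ⟨h1, h2⟩ := mem_erase.1 hc
    obtain ⟨y, hy, e⟩ := h σ hσ c h2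
    rcases List.mem_cons.1 hy with rfl | hy
    · exact absurd e.symm h1
    · exact ⟨y, hy, e⟩
theorem not_cov_of_lt {S : St V} {Q : Lst V} {z : List V} {σ : V → Fin 3} (hσ : σ ∈ S)
    (h : z.length < (Q σ).card) : ¬ cov S Q z := by
  intro c
  have h1 : Q σ ⊆ (z.map σ).toFinset := fun a ha => by
    obtain ⟨x, hx, e⟩ := c σ hσ a ha
    exact List.mem_toFinset.2 (List.mem_map.2 ⟨x, hx, e⟩)
  have h2 := (card_le_card h1).trans (List.toFinset_card_le _)
  rw [List.length_map] at h2; omega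
theorem cov_cut {S : St V} {Q : Lst V} {z : List V} {x y : V} (hx : cov S Q (x :: z))
    (hy : cov S Q (y :: z)) : cov (cut S x y) Q z := by
  intro σ hσ c hc
  obtain ⟨a, ha, ea⟩ := hx σ hσ.1 c hc
  obtain ⟨b, hb, eb⟩ := hy σ hσ.1 c hc
  rcases List.mem_cons.1 ha with rfl | ha
  · rcases List.mem_cons.1 hb with rfl | hb
    · exact absurd (ea.trans eb.symm) hσ.2
    · exact ⟨b, hb, eb⟩
  · exact ⟨a, ha, ea⟩
theorem card_er_ge (Q : Lst V) (x : V) (σ : V → Fin 3) : (Q σ).card - 1 ≤ (er Q x σ).card :=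
  pred_card_le_card_erase
theorem er_subset (Q : Lst V) (x : V) (σ : V → Fin 3) : er Q x σ ⊆ Q σ := erase_subset _ _
theorem card_U (σ : V → Fin 3) : (U σ).card = 3 := by simp [U]

variable [Fintype V]

theorem rho_nonneg (S : St V) (Q : Lst V) (j : ℕ) : 0 ≤ rho S Q j := EL_nonneg _ fun _ => ind_nonneg _
theorem rho_le_one [Nonempty V] (S : St V) (Q : Lst V) (j : ℕ) : rho S Q j ≤ 1 :=
  EL_le _ fun _ _ => ind_le_one _
/-- D1 -/
theorem rho_mono {S T : St V} (h : T ⊆ S) (Q : Lst V) (j : ℕ) : rho S Q j ≤ rho T Q j :=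
  EL_mono _ fun _ => ind_mono (cov_mono h)
theorem rho_mono_Q {S : St V} {Q Q' : Lst V} (h : ∀ σ ∈ S, Q' σ ⊆ Q σ) (j : ℕ) :
    rho S Q j ≤ rho S Q' j := EL_mono _ fun _ => ind_mono (cov_mono_Q h)
theorem rho_zero (S : St V) (Q : Lst V) : rho S Q 0 = ind (cov S Q []) := rfl
theorem rho_er (S : St V) (Q : Lst V) (x : V) (j : ℕ) :
    rho S (er Q x) j = EL j fun z => ind (cov S Q (x :: z)) := by
  simp only [rho, ind_congr cov_er]
/-- D3 -/
theorem rho_succ (S : St V) (Q : Lst V) (j : ℕ) :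
    rho S Q (j + 1) = av fun x => rho S (er Q x) j := by
  simp only [rho_er]; rfl
theorem rho_succ' (S : St V) (Q : Lst V) (j : ℕ) :
    rho S Q (j + 1) = EL j fun z => av fun x => ind (cov S Q (x :: z)) := by
  rw [EL_av]; rfl
/-- D2 -/
theorem rho_le_succ [Nonempty V] (S : St V) (Q : Lst V) (j : ℕ) : rho S Q j ≤ rho S Q (j + 1) := by
  rw [rho_succ]; exact le_av fun x => rho_mono_Q (fun σ _ => er_subset Q x σ) j
theorem rho_mono_j [Nonempty V] (S : St V) (Q : Lst V) : Monotone (rho S Q) :=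
  monotone_nat_of_le_succ (rho_le_succ S Q)
/-- D4 -/
theorem rho_eq_zero {S : St V} {Q : Lst V} {σ : V → Fin 3} (hσ : σ ∈ S) {j : ℕ}
    (h : j < (Q σ).card) : rho S Q j = 0 := by
  rw [rho, EL_congr j (g := fun _ => 0) fun z hz => ind_neg (not_cov_of_lt hσ (hz ▸ h)), EL_fun_zero]
/-- D5 -/
theorem rho_add_JJ (S : St V) (Q : Lst V) (j : ℕ) (x y : V) :
    rho S Q j + JJ S Q j x y ≤ rho (cut S x y) Q j := by
  rw [rho, JJ, ← EL_add]
  refine EL_mono _ fun z => ?_
  by_cases h : cov S Q z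
  · rw [ind_pos h, ind_pos (cov_mono (cut_subset S x y) h)]; simp
  · rw [ind_neg h, zero_add, sub_zero, one_mul, ← ind_and]
    exact ind_mono fun h1 => cov_cut h1.1 h1.2
/-- D6 -/
theorem JJ_nonneg (S : St V) (Q : Lst V) (j : ℕ) (x y : V) : 0 ≤ JJ S Q j x y :=
  EL_nonneg _ fun _ => mul_nonneg (mul_nonneg (sub_nonneg.2 (ind_le_one _)) (ind_nonneg _))
    (ind_nonneg _)
theorem JJ_le (S : St V) (Q : Lst V) (j : ℕ) (x y : V) : JJ S Q j x y ≤ rho S (er Q x) j := by
  rw [rho_er]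
  refine EL_mono _ fun z => ?_
  rw [← ind_not, ← ind_and, ← ind_and]
  exact ind_mono fun h => h.1.2
theorem av_av_JJ (S : St V) (Q : Lst V) (j : ℕ) : (av fun x => av fun y => JJ S Q j x y) =
    EL j fun z => (1 - ind (cov S Q z)) * (av fun x => ind (cov S Q (x :: z))) ^ 2 := by
  simp only [JJ, ← EL_av, av_mul_left, av_mul_right]
  exact EL_congr _ fun z _ => by ring
/-- the increment of `rho` as one expectation -/
theorem rho_delta [Nonempty V] (S : St V) (Q : Lst V) (j : ℕ) : rho S Q (j + 1) - rho S Q j =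
    EL j fun z => (1 - ind (cov S Q z)) * av fun x => ind (cov S Q (x :: z)) := by
  rw [rho_succ', rho, ← EL_sub]
  refine EL_congr _ fun z _ => ?_
  by_cases h : cov S Q z
  · simp only [ind_pos h, ind_pos (cov_cons _ h), av_const]; ring
  · rw [ind_neg h]; ring
theorem av_JJ_diag [Nonempty V] (S : St V) (Q : Lst V) (j : ℕ) :
    (av fun x => JJ S Q j x x) = rho S Q (j + 1) - rho S Q j := by
  rw [rho_delta]
  simp only [JJ, ← EL_av, mul_assoc, ← sq, ind_sq, av_mul_left]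
theorem delta_sq_le [Nonempty V] (S : St V) (Q : Lst V) (j : ℕ) :
    (rho S Q (j + 1) - rho S Q j) ^ 2 ≤ av fun x => av fun y => JJ S Q j x y := by
  rw [rho_delta, av_av_JJ]
  refine (EL_sq_le _ _).trans_eq (EL_congr _ fun z _ => ?_)
  rw [mul_pow, ← ind_not, ind_sq]

variable [DecidableEq V]

/-- D8 -/
theorem av_av_JJ_le (h : 2 ≤ Fintype.card V) (S : St V) (Q : Lst V) (j : ℕ) :
    (av fun x => av fun y => JJ S Q j x y) ≤ (av fun e : Pr V => JJ S Q j e.1.1 e.1.2) +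
      (rho S Q (j + 1) - rho S Q j) / Fintype.card V := by
  haveI := nonempty_of_two h
  rw [← av_JJ_diag]
  exact av_av_le_av_Pr h (JJ_nonneg S Q j)
/-- D7 -/
theorem drift (h : 2 ≤ Fintype.card V) (S : St V) (Q : Lst V) (j : ℕ) :
    (rho S Q (j + 1) - rho S Q j) ^ 2 - (rho S Q (j + 1) - rho S Q j) / Fintype.card V ≤
      av fun e : Pr V => JJ S Q j e.1.1 e.1.2 := by
  haveI := nonempty_of_two h
  linarith [delta_sq_le S Q j, av_av_JJ_le h S Q j]
/-- D7 in the form used for potentials -/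
theorem drift_half (h : 2 ≤ Fintype.card V) (S : St V) (Q : Lst V) (j : ℕ) {d : ℝ}
    (hd : 2 ≤ d * Fintype.card V) (hΔ : d ≤ rho S Q (j + 1) - rho S Q j) :
    d ^ 2 / 2 ≤ av fun e : Pr V => JJ S Q j e.1.1 e.1.2 := by
  have h2 : (2 : ℝ) ≤ Fintype.card V := by exact_mod_cast h
  have h0 : (0 : ℝ) < Fintype.card V := by linarith
  have hd0 : 0 < d := by by_contra hn; nlinarith
  refine le_trans ?_ (drift h S Q j)
  set D := rho S Q (j + 1) - rho S Q j
  have h3 : D / Fintype.card V ≤ D ^ 2 / 2 := by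
    rw [div_le_iff₀ h0]; nlinarith [mul_nonneg (sub_nonneg.2 hΔ) h0.le]
  nlinarith
/-- one hard step raises `rho` on average by the average of `JJ` -/
theorem rho_step (h : 2 ≤ Fintype.card V) (S : St V) (Q : Lst V) (j : ℕ) :
    rho S Q j + (av fun e : Pr V => JJ S Q j e.1.1 e.1.2) ≤ av fun e => rho (hs S e) Q j := by
  haveI := nonempty_Pr h
  rw [← av_const (α := Pr V) (rho S Q j), ← av_add]
  exact av_mono fun e => rho_add_JJ S Q j _ _
/-- the same for the capped potential -/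
theorem rho_step_cap (h : 2 ≤ Fintype.card V) (S : St V) (Q : Lst V) (j : ℕ) {B : ℝ}
    (h1 : rho S Q j ≤ B) (h2 : ∀ x, rho S (er Q x) j ≤ B) :
    min (rho S Q j) (2 * B) + (av fun e : Pr V => JJ S Q j e.1.1 e.1.2) ≤
      av fun e => min (rho (hs S e) Q j) (2 * B) := by
  haveI := nonempty_Pr h
  rw [← av_const (α := Pr V) (min (rho S Q j) (2 * B)), ← av_add]
  refine av_mono fun e => le_min ?_ ?_
  · linarith [min_le_left (rho S Q j) (2 * B), rho_add_JJ S Q j e.1.1 e.1.2, show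
      rho (hs S e) Q j = rho (cut S e.1.1 e.1.2) Q j from rfl]
  · linarith [min_le_left (rho S Q j) (2 * B), JJ_le S Q j e.1.1 e.1.2, h2 e.1.1]

end Pool.Agent.MP_81f5b7_pr.H42
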