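import Pool.Agent.MP_81f5b7_pr.H42.Spec
import Pool.Agent.MP_81f5b7_pr.H42.Rho

/-! The anchor case of Lemma C. -/

set_option autoImplicit false
set_option linter.style.haveILetI false

namespace Pool.Agent.MP_81f5b7_pr.H42

open Finset

namespace ANC

variable {V : Type}

/-- both anchors are needed to cover -/
def ww (S : St V) (z : List V) (a b : V) : Prop :=
  cov S U (a :: b :: z) ∧ ¬ cov S U (a :: z) ∧ ¬ cov S U (b :: z)

theorem ww_symm {S : St V} {z : List V} {a b : V} : ww S z a b ↔ ww S z b a :=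
  ⟨fun h => ⟨cov_swap.1 h.1, h.2.2, h.2.1⟩, fun h => ⟨cov_swap.1 h.1, h.2.2, h.2.1⟩⟩

theorem exists_third (p q : Fin 3) : ∃ c : Fin 3, c ≠ p ∧ c ≠ q := by
  revert p q; decide

theorem cov_single {S T : St V} (hT : T ⊆ S) {W z : List V} {σ₀ : V → Fin 3}
    (hp : ∀ σ ∈ T, ∀ x ∈ W, σ x = σ₀ x) {a b : V} (ha : a ∈ W) (hb : b ∈ W)
    (h : cov S U (a :: b :: z)) : ∃ c ∈ (univ : Finset (Fin 3)), cov T (fun _ => {c}) z := by
  obtain ⟨c, h1, h2⟩ := exists_third (σ₀ a) (σ₀ b)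
  refine ⟨c, mem_univ _, fun σ hσ c' hc' => ?_⟩
  obtain rfl := mem_singleton.1 hc'
  obtain ⟨x, hx, e⟩ := h σ (hT hσ) c' (mem_univ _)
  rcases List.mem_cons.1 hx with rfl | hx
  · exact absurd (e.symm.trans (hp σ hσ _ ha)) h1
  · rcases List.mem_cons.1 hx with rfl | hx
    · exact absurd (e.symm.trans (hp σ hσ _ hb)) h2
    · exact ⟨x, hx, e⟩

variable [Fintype V]

theorem lam_ge [Nonempty V] (S : St V) (k : ℕ) : rho S U (k + 2) - 2 * rho S U (k + 1) ≤
    EL k (fun z => av fun a => av fun b => ind (ww S z a b)) := by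
  have e2 : rho S U (k + 2) = EL k fun z => av fun a => av fun b => ind (cov S U (a :: b :: z)) := by
    simp only [EL_av]; rfl
  have e1 : rho S U (k + 1) = EL k fun z => av fun a => av fun _ : V => ind (cov S U (a :: z)) := by
    simp only [av_const]; exact rho_succ' _ _ _
  have e1' : rho S U (k + 1) = EL k fun z => av fun _ : V => av fun b => ind (cov S U (b :: z)) := by
    simp only [av_const]; exact rho_succ' _ _ _
  have : rho S U (k + 2) - 2 * rho S U (k + 1) =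
      EL k fun z => av fun a => av fun b =>
        ind (cov S U (a :: b :: z)) - ind (cov S U (a :: z)) - ind (cov S U (b :: z)) := by
    simp only [av_sub, EL_sub]
    rw [← e2, ← e1, ← e1']; ring
  rw [this]
  refine EL_mono _ fun z => av_mono fun a => av_mono fun b => ?_
  by_cases h : ww S z a b
  · rw [ind_pos h]
    linarith [ind_le_one (cov S U (a :: b :: z)), ind_nonneg (cov S U (a :: z)),
      ind_nonneg (cov S U (b :: z))]
  · rw [ind_neg h]
    by_cases h1 : cov S U (a :: b :: z)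
    · by_cases h2 : cov S U (a :: z)
      · rw [ind_pos h1, ind_pos h2]; linarith [ind_nonneg (cov S U (b :: z))]
      · have h3 : cov S U (b :: z) := by
          by_contra h3; exact h ⟨h1, h2, h3⟩
        rw [ind_pos h1, ind_pos h3]; linarith [ind_nonneg (cov S U (a :: z))]
    · rw [ind_neg h1]
      linarith [ind_nonneg (cov S U (a :: z)), ind_nonneg (cov S U (b :: z))]

theorem alpha_le (S : St V) (k : ℕ) :
    EL k (fun z => av fun b => (av fun a => ind (ww S z a b)) ^ 2) ≤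
      av fun x => av fun y => JJ S U (k + 1) x y := by
  rw [av_av_JJ, EL_succ, ← EL_av]
  refine EL_mono _ fun z => av_mono fun b => ?_
  by_cases h : cov S U (b :: z)
  · have : (fun a => ind (ww S z a b)) = fun _ => 0 := funext fun a => ind_neg fun w => w.2.2 h
    rw [this, av_zero, ind_pos h]; simp
  · rw [ind_neg h, sub_zero, one_mul]
    exact pow_le_pow_left₀ (av_nonneg fun _ => ind_nonneg _)
      (av_mono fun a => ind_mono fun w => w.1) 2

theorem alpha_le' (S : St V) (k : ℕ) :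
    EL k (fun z => av fun a => (av fun b => ind (ww S z a b)) ^ 2) ≤
      av fun x => av fun y => JJ S U (k + 1) x y := by
  refine le_trans (le_of_eq ?_) (alpha_le S k)
  refine EL_congr _ fun z _ => congrArg av (funext fun a => ?_)
  rw [show (fun b => ind (ww S z a b)) = fun b => ind (ww S z b a) from
    funext fun b => ind_congr ww_symm]

theorem exists_colour {S T : St V} (hT : T ⊆ S) {X Y : List V} {σ₀ : V → Fin 3}
    (hp : ∀ σ ∈ T, ∀ x ∈ X ++ Y, σ x = σ₀ x) (k : ℕ) {u : ℝ}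
    (hu : 3 * u ≤ EL k fun z => ind (∃ a ∈ X, ∃ b ∈ Y, ww S z a b)) :
    ∃ c : Fin 3, u ≤ rho T (fun _ => {c}) k := by
  have h1 : (EL k fun z => ind (∃ a ∈ X, ∃ b ∈ Y, ww S z a b)) ≤
      ∑ c : Fin 3, rho T (fun _ => {c}) k := by
    simp only [rho, ← EL_sum]
    refine EL_mono _ fun z => le_trans (ind_mono ?_) (ind_exists_le univ _)
    rintro ⟨a, ha, b, hb, w⟩
    exact cov_single hT hp (List.mem_append_left _ ha) (List.mem_append_right _ hb) w.1
  by_contra hn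
  push Not at hn
  rw [Fin.sum_univ_three] at h1
  linarith [hn 0, hn 1, hn 2]

/-- the numerical part of the Bonferroni step -/
theorem num {t r n lam : ℝ} (ht : 0 < t) (hr1 : 1 ≤ r * t ^ 10) (hr2 : r * t ^ 10 ≤ 2)
    (hn : 64 ≤ n * t ^ 20) (hl : t ^ 29 / 2 ≤ lam) :
    3 * (t ^ 9 / 16) ≤ r ^ 2 * lam - r ^ 4 * (t ^ 49 / 16 + 2 * lam / n) := by
  have h10 : 0 < t ^ 10 := by positivity
  have h20 : 0 < t ^ 20 := by positivity
  have h29 : 0 < t ^ 29 := by positivity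
  have h9 : 0 < t ^ 9 := by positivity
  have hn0 : 0 < n := by
    by_contra h; push Not at h; nlinarith
  have hl0 : 0 < lam := by linarith
  have a1 : 1 ≤ r ^ 2 * t ^ 20 := by
    have : r ^ 2 * t ^ 20 = (r * t ^ 10) ^ 2 := by ring
    rw [this]; nlinarith
  have a2 : r ^ 2 * t ^ 20 ≤ 4 := by
    have : r ^ 2 * t ^ 20 = (r * t ^ 10) ^ 2 := by ring
    rw [this]; nlinarith
  have a3 : 16 * r ^ 2 ≤ n := by
    by_contra h; push Not at h; nlinarith
  have a4 : r ^ 2 * (2 * lam / n) ≤ lam / 8 := by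
    rw [← mul_div_assoc, div_le_div_iff₀ hn0 (by norm_num)]; nlinarith
  have a5 : r ^ 2 * (t ^ 49 / 16) ≤ t ^ 29 / 4 := by
    have : r ^ 2 * (t ^ 49 / 16) = r ^ 2 * t ^ 20 * t ^ 29 / 16 := by ring
    rw [this]; nlinarith
  have a6 : 3 * t ^ 29 / 16 ≤ lam - r ^ 2 * (t ^ 49 / 16 + 2 * lam / n) := by
    rw [mul_add]; linarith
  have a7 : r ^ 2 * lam - r ^ 4 * (t ^ 49 / 16 + 2 * lam / n) =
      r ^ 2 * (lam - r ^ 2 * (t ^ 49 / 16 + 2 * lam / n)) := by ring
  have a8 : r ^ 2 * (3 * t ^ 29 / 16) = r ^ 2 * t ^ 20 * (3 * (t ^ 9 / 16)) := by ring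
  rw [a7]
  refine le_trans ?_ (mul_le_mul_of_nonneg_left a6 (sq_nonneg r))
  rw [a8]; nlinarith

theorem fin_num {t r k : ℝ} (ht : 0 < t) (ht1 : t ≤ 1) (hk : 0 ≤ k) (hr0 : 0 ≤ r)
    (hr2 : r * t ^ 10 ≤ 2) :
    2 * (2 * (2 * k ^ 3 / (t ^ 9 / 16) ^ 2) + 1) * (4 * r + 1) ≤ 20000 * (k + 1) ^ 3 / t ^ 28 := by
  have h10 : t ^ 10 ≤ 1 := pow_le_one₀ ht.le ht1
  have h18 : t ^ 18 ≤ 1 := pow_le_one₀ ht.le ht1
  have p18 : 0 < t ^ 18 := by positivity
  have p10 : 0 < t ^ 10 := by positivity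
  rw [le_div_iff₀ (by positivity)]
  have e : 2 * (2 * (2 * k ^ 3 / (t ^ 9 / 16) ^ 2) + 1) * (4 * r + 1) * t ^ 28 =
      2 * (1024 * k ^ 3 + t ^ 18) * (4 * (r * t ^ 10) + t ^ 10) := by
    field_simp; ring
  rw [e]
  have b1 : 1024 * k ^ 3 + t ^ 18 ≤ 1024 * (k + 1) ^ 3 := by
    nlinarith [pow_nonneg hk 2]
  have b2 : 4 * (r * t ^ 10) + t ^ 10 ≤ 9 := by linarith
  have b3 : 0 ≤ 4 * (r * t ^ 10) + t ^ 10 := by positivity
  have b4 : 0 ≤ (k + 1) ^ 3 := by positivity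
  calc 2 * (1024 * k ^ 3 + t ^ 18) * (4 * (r * t ^ 10) + t ^ 10)
      ≤ 2 * (1024 * (k + 1) ^ 3) * 9 := by gcongr
    _ ≤ 20000 * (k + 1) ^ 3 := by linarith

end ANC

open ANC in
theorem rowANC (hA : RowLA) (hU : RowUNI) (hB : RowBON) : RowANC := by
  intro V _ _ hV k t S M ht ht1 hn hR hR1 hJ
  haveI := nonempty_of_two hV
  have hn2 : (2 : ℝ) ≤ Fintype.card V := by exact_mod_cast hV
  have hn0 : (0 : ℝ) < Fintype.card V := by linarith
  set r : ℕ := ⌈(t ^ 10)⁻¹⌉₊ with hr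
  have p10 : 0 < t ^ 10 := by positivity
  have h10 : t ^ 10 ≤ 1 := pow_le_one₀ ht.le ht1
  have hr1 : 1 ≤ (r : ℝ) * t ^ 10 := by
    have := mul_le_mul_of_nonneg_right (Nat.le_ceil (t ^ 10)⁻¹) p10.le
    rwa [inv_mul_cancel₀ p10.ne'] at this
  have hr2 : (r : ℝ) * t ^ 10 ≤ 2 := by
    have := mul_le_mul_of_nonneg_right
      (Nat.ceil_lt_add_one (inv_nonneg.2 p10.le)).le p10.le
    rw [add_mul, inv_mul_cancel₀ p10.ne'] at this
    linarith
  have h8 : (1 : ℝ) ≤ 8 ^ k := one_le_pow₀ (by norm_num)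
  have hn20 : 64 ≤ (Fintype.card V : ℝ) * t ^ 20 := by
    have : t ^ 21 ≤ t ^ 20 := pow_le_pow_of_le_one ht.le ht1 (by norm_num)
    have h2 := mul_le_mul_of_nonneg_left this hn0.le
    have h3 : (8 : ℝ) ^ (k + 2) = 64 * 8 ^ k := by ring
    linarith
  set lam := EL k (fun z => av fun a => av fun b => ind (ww S z a b)) with hlam
  have p29 : 0 < t ^ 29 := by positivity
  have hR1' : rho S U (k + 1) ≤ t ^ 29 / 4 := by
    refine hR1.trans ?_
    rw [div_pow]
    exact div_le_div_of_nonneg_left p29.le (by norm_num) (by norm_num)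
  have hl := lam_ge S k
  rw [← hlam] at hl
  have hl1 : t ^ 29 / 2 ≤ lam := by linarith
  have hα : (av fun x => av fun y => JJ S U (k + 1) x y) ≤
      t ^ 49 / 16 + 2 * lam / Fintype.card V := by
    refine (av_av_JJ_le hV S U (k + 1)).trans (add_le_add hJ ?_)
    refine div_le_div_of_nonneg_right ?_ hn0.le
    have := rho_nonneg S U (k + 1)
    have e : rho S U (k + 1 + 1) = rho S U (k + 2) := rfl
    linarith
  obtain ⟨X, Y, hX, hY, hXY⟩ := hB V k r (ww S) _ ((alpha_le' S k).trans hα)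
    ((alpha_le S k).trans hα)
  have hu := (num ht hr1 hr2 hn20 hl1).trans hXY
  have p9 : 0 < t ^ 9 / 16 := by positivity
  have hk : 2 * (k : ℝ) ≤ t ^ 9 / 16 * Fintype.card V := by
    have h1 : t ^ 21 ≤ t ^ 9 := pow_le_pow_of_le_one ht.le ht1 (by norm_num)
    have h2 := mul_le_mul_of_nonneg_left h1 hn0.le
    have h3 : (8 : ℝ) ^ (k + 2) = 64 * 8 ^ k := by ring
    have h4 : (k : ℝ) ≤ 8 ^ k := by
      have : k < 8 ^ k := Nat.lt_pow_self (by norm_num)
      exact_mod_cast this.le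
    linarith
  have key := hU V hV (Fin (X ++ Y).length → Fin 3) univ
    (fun τ => {σ | σ ∈ S ∧ ∀ i : Fin (X ++ Y).length, σ (X ++ Y)[i] = τ i}) S
    (2 * (k : ℝ) ^ 3 / (t ^ 9 / 16) ^ 2) (4 * r) M (by positivity) ?_ ?_ ?_
  · refine key.trans ?_
    push_cast
    exact fin_num ht ht1 (Nat.cast_nonneg k) (Nat.cast_nonneg r) hr2
  · intro τ _ T' hT' M'
    rcases T'.eq_empty_or_nonempty with rfl | ⟨σ₀, h₀⟩
    · rw [life_empty]; positivity
    · have hp : ∀ σ ∈ T', ∀ x ∈ X ++ Y, σ x = σ₀ x := by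
        intro σ hσ x hx
        obtain ⟨i, hi, rfl⟩ := List.getElem_of_mem hx
        exact ((hT' hσ).2 ⟨i, hi⟩).trans ((hT' h₀).2 ⟨i, hi⟩).symm
      obtain ⟨c, hc⟩ := exists_colour (fun σ hσ => (hT' hσ).1) hp k hu
      exact hA V hV (fun _ => {c}) k _ T' M' (fun _ => singleton_nonempty _) p9 hk hc
  · intro σ hσ
    exact ⟨fun i => σ (X ++ Y)[i], mem_univ _, hσ, fun _ => rfl⟩
  · rw [card_univ, Fintype.card_fun, Fintype.card_fin, Fintype.card_fin, List.length_append, hX, hY,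
      show r + r = 2 * r by ring, pow_mul, pow_mul]
    exact Nat.pow_le_pow_left (by norm_num) _

end Pool.Agent.MP_81f5b7_pr.H42
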