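import Pool.Agent.MP_81f5b7_pr.H42.Kit

/-! Few vertices lie in triangles. -/

set_option autoImplicit false
set_option linter.style.haveILetI false

namespace Pool.Agent.MP_81f5b7_pr.H42

open Finset

namespace BETA

/-- a random list meets each of `k` disjoint sets of mass at most `r` with probability at most
`(m r) ^ k` -/
theorem meet {α ι : Type} [Fintype α] [Nonempty α] [DecidableEq ι] (A : ι → α → Prop) {r : ℝ}
    (hr : 0 ≤ r) (hd : ∀ i j, i ≠ j → ∀ a, A i a → ¬ A j a)
    (hm : ∀ i, av (fun a => ind (A i a)) ≤ r) (m : ℕ) (R : Finset ι) :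
    EL m (fun l => ind (∀ i ∈ R, ∃ e ∈ l, A i e)) ≤ (m * r) ^ R.card := by
  induction m generalizing R with
  | zero =>
    rw [EL_zero]
    rcases R.eq_empty_or_nonempty with rfl | ⟨i, hi⟩
    · simpa using ind_le_one _
    · rw [ind_neg fun h => by simpa using h i hi]; positivity
  | succ m ih =>
    have h1 : ∀ (a : α) (l : List α), ind (∀ i ∈ R, ∃ e ∈ a :: l, A i e) ≤
        ind (∀ i ∈ R, ∃ e ∈ l, A i e) +
          ∑ i ∈ R, ind (A i a) * ind (∀ j ∈ R.erase i, ∃ e ∈ l, A j e) := by
      intro a l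
      simp only [← ind_and]
      refine le_trans ?_ (add_le_add le_rfl (ind_exists_le R _))
      refine le_trans (ind_mono fun h => ?_) (ind_or_le _ _)
      by_cases h2 : ∃ i ∈ R, A i a
      · obtain ⟨i, hi, hia⟩ := h2
        refine Or.inr ⟨i, hi, hia, fun j hj => ?_⟩
        obtain ⟨e, he, hje⟩ := h j (mem_of_mem_erase hj)
        rcases List.mem_cons.1 he with rfl | he
        · exact absurd hje (hd i j (ne_of_mem_erase hj).symm _ hia)
        · exact ⟨e, he, hje⟩
      · refine Or.inl fun j hj => ?_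
        obtain ⟨e, he, hje⟩ := h j hj
        rcases List.mem_cons.1 he with rfl | he
        · exact absurd ⟨j, hj, hje⟩ h2
        · exact ⟨e, he, hje⟩
    have h0 : (0 : ℝ) ≤ m * r := by positivity
    have h2 : ∀ a : α, EL m (fun l => ind (∀ i ∈ R, ∃ e ∈ a :: l, A i e)) ≤
        (m * r) ^ R.card + ∑ i ∈ R, ind (A i a) * (m * r) ^ (R.card - 1) := by
      intro a
      refine (EL_mono m (h1 a)).trans ?_
      rw [EL_add, EL_sum]
      refine add_le_add (ih R) (sum_le_sum fun i hi => ?_)
      rw [EL_mul_left, ← card_erase_of_mem hi]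
      exact mul_le_mul_of_nonneg_left (ih _) (ind_nonneg _)
    rw [EL_succ]
    refine (av_mono h2).trans ?_
    rw [av_add, av_const, av_sum]
    have h3 : ∑ i ∈ R, av (fun a => ind (A i a) * (m * r) ^ (R.card - 1)) ≤
        R.card * (m * r) ^ (R.card - 1) * r := by
      refine (sum_le_sum (g := fun _ => r * (m * r) ^ (R.card - 1)) fun i _ => ?_).trans_eq ?_
      · rw [av_mul_right]; exact mul_le_mul_of_nonneg_right (hm i) (by positivity)
      · rw [sum_const, nsmul_eq_mul]; ring
    have h4 := pow_add_mul_le_add_pow h0 (by positivity : 0 ≤ 2 * (m * r) + r) R.card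
    have h5 : ((m + 1 : ℕ) : ℝ) * r = m * r + r := by push_cast; ring
    rw [h5]; linarith

variable {V : Type} [Fintype V] [DecidableEq V]

theorem mass_one (q : V × V) :
    av (fun e : Pr V => ind (e.1 = q)) ≤ 1 / (Fintype.card V * (Fintype.card V - 1)) := by
  rw [av_ind, card_Pr.symm]
  refine div_le_div_of_nonneg_right ?_ (Nat.cast_nonneg _)
  rw [Nat.cast_le_one, card_le_one]
  intro a ha b hb
  simp only [mem_filter, mem_univ, true_and] at ha hb
  exact Subtype.ext (ha.trans hb.symm)

theorem mass (x y : V) : av (fun e : Pr V => ind (e.1 = (x, y) ∨ e.1 = (y, x))) ≤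
    2 / (Fintype.card V * (Fintype.card V - 1)) := by
  refine (av_mono fun e => ind_or_le _ _).trans ?_
  rw [av_add]
  have h1 := mass_one (x, y)
  have h2 := mass_one (y, x)
  have h3 : (2 : ℝ) / (Fintype.card V * (Fintype.card V - 1)) =
      1 / (Fintype.card V * (Fintype.card V - 1)) + 1 / (Fintype.card V * (Fintype.card V - 1)) := by
    ring
  linarith

omit [Fintype V] [DecidableEq V] in
theorem adj_ne {l : List (Pr V)} {x y : V} (h : adj l x y) : x ≠ y := by
  obtain ⟨e, -, h | h⟩ := h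
  · have := e.2; rw [h] at this; exact this
  · have := e.2; rw [h] at this; exact this.symm

theorem three (h : 2 ≤ Fintype.card V) (m : ℕ) (v u w : V) :
    EL m (fun l : List (Pr V) => ind (adj l v u ∧ adj l v w ∧ adj l u w)) ≤
      (m * (2 / (Fintype.card V * (Fintype.card V - 1)))) ^ 3 := by
  haveI := nonempty_Pr h
  have h2 : (2 : ℝ) ≤ Fintype.card V := by exact_mod_cast h
  have hr : (0 : ℝ) ≤ 2 / (Fintype.card V * (Fintype.card V - 1)) :=
    div_nonneg (by norm_num) (mul_nonneg (by linarith) (by linarith))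
  by_cases hne : v ≠ u ∧ v ≠ w ∧ u ≠ w
  · obtain ⟨h1, h3, h4⟩ := hne
    have := meet (α := Pr V) (ι := Fin 3)
      (fun i e => e.1 = (![v, v, u] i, ![u, w, w] i) ∨ e.1 = (![u, w, w] i, ![v, v, u] i)) hr
      (by
        intro i j hij a ha hb
        fin_cases i <;> fin_cases j <;> simp at hij ha hb <;>
          rcases ha with ha | ha <;> rcases hb with hb | hb <;> rw [ha] at hb <;>
          simp only [Prod.mk.injEq] at hb <;> obtain ⟨hb1, hb2⟩ := hb <;> simp_all)
      (fun i => mass _ _) m univ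
    rw [card_univ, Fintype.card_fin] at this
    refine le_trans (EL_mono m fun l => ind_mono ?_) this
    rintro ⟨a1, a2, a3⟩ i -
    fin_cases i
    · exact a1
    · exact a2
    · exact a3
  · refine EL_le m fun l _ => ?_
    rw [ind_neg fun hh => hne ⟨adj_ne hh.1, adj_ne hh.2.1, adj_ne hh.2.2⟩]
    positivity

end BETA

theorem rowBETA : RowBETA := by
  refine ⟨4096, fun V _ _ h m hm => ?_⟩
  haveI := nonempty_of_two h
  have h2 : (2 : ℝ) ≤ Fintype.card V := by exact_mod_cast h
  have hm' : (m : ℝ) ≤ 4 * Fintype.card V := by exact_mod_cast hm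
  set n : ℝ := (Fintype.card V : ℝ) with hn
  have h3 : m * (2 / (n * (n - 1))) ≤ 16 / n := by
    rw [mul_div_assoc', div_le_div_iff₀ (by nlinarith) (by linarith)]
    nlinarith [mul_le_mul_of_nonneg_right hm' (by linarith : (0 : ℝ) ≤ n)]
  have h4 : (m * (2 / (n * (n - 1)))) ^ 3 ≤ (16 / n) ^ 3 :=
    pow_le_pow_left₀ (mul_nonneg (Nat.cast_nonneg _)
      (div_nonneg (by norm_num) (by nlinarith))) h3 3
  simp only [beta]
  rw [EL_av]
  refine av_le fun v => ?_
  have h5 : ∀ l : List (Pr V), ind (tri l v) ≤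
      ∑ p : V × V, ind (adj l v p.1 ∧ adj l v p.2 ∧ adj l p.1 p.2) := fun l =>
    le_trans (ind_mono fun ⟨u, w, hh⟩ => ⟨(u, w), mem_univ _, hh⟩)
      (ind_exists_le univ fun p : V × V => adj l v p.1 ∧ adj l v p.2 ∧ adj l p.1 p.2)
  refine (EL_mono m h5).trans ?_
  rw [EL_sum]
  refine (sum_le_sum fun p _ => (BETA.three h m v p.1 p.2).trans h4).trans_eq ?_
  rw [sum_const, card_univ, Fintype.card_prod, nsmul_eq_mul, Nat.cast_mul, ← hn]
  field_simp
  norm_num

end Pool.Agent.MP_81f5b7_pr.H42
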