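import Pool.Agent.MP_81f5b7_pr.H42.Spec

/-! Row BGT: loops kill, and the interpolation inequality. -/

set_option autoImplicit false

namespace Pool.Agent.MP_81f5b7_pr.H42

open Finset

namespace BGT

theorem av_add {α : Type} [Fintype α] (f g : α → ℝ) :
    (av fun a => f a + g a) = av f + av g := by
  simp only [av, Finset.sum_add_distrib, add_div]

theorem av_mul {α : Type} [Fintype α] (c : ℝ) (f : α → ℝ) :
    (av fun a => c * f a) = c * av f := by
  simp only [av, ← Finset.mul_sum, mul_div_assoc]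

theorem av_sum {α ι : Type} [Fintype α] (s : Finset ι) (f : ι → α → ℝ) :
    (av fun a => ∑ i ∈ s, f i a) = ∑ i ∈ s, av (f i) := by
  simp only [av]
  rw [Finset.sum_comm, Finset.sum_div]

theorem av_mono {α : Type} [Fintype α] {f g : α → ℝ} (h : ∀ a, f a ≤ g a) : av f ≤ av g := by
  unfold av
  exact div_le_div_of_nonneg_right (Finset.sum_le_sum fun a _ => h a) (Nat.cast_nonneg _)

theorem av_comm {α β : Type} [Fintype α] [Fintype β] (f : α → β → ℝ) :
    (av fun a => av fun b => f a b) = av fun b => av fun a => f a b := by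
  simp only [av, ← Finset.sum_div]
  rw [Finset.sum_comm, div_right_comm]

theorem it_succ {α X : Type} [Fintype α] (st : X → α → X) (m : ℕ) (f : X → ℝ) (S : X) :
    it st (m + 1) f S = av fun a => it st m f (st S a) := rfl

theorem it_zero {α X : Type} [Fintype α] (st : X → α → X) (f : X → ℝ) (S : X) :
    it st 0 f S = f S := rfl

theorem cut_comm {V : Type} (S : St V) (x y u v : V) :
    cut (cut S x y) u v = cut (cut S u v) x y := by
  ext σ
  simp only [cut, Set.mem_ofPred_eq]
  tauto

theorem dead {V : Type} [Fintype V] (m : ℕ) : it ls m chi (∅ : St V) = 0 := by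
  induction m with
  | zero => simp [it_zero, chi, ind]
  | succ m ih =>
    rw [it_succ]
    have h : ∀ a : V × V, ls (∅ : St V) a = ∅ := by
      intro a
      ext σ
      simp [ls, cut]
    simp [h, ih, av]

theorem sum_pr {V : Type} [Fintype V] [DecidableEq V] (h : V × V → ℝ) :
    ∑ e : V × V, h e = ∑ e : Pr V, h e.1 + ∑ x : V, h (x, x) := by
  rw [← Fintype.sum_subtype_add_sum_subtype (fun p : V × V => p.1 ≠ p.2) h]
  congr 1
  refine Fintype.sum_equiv
    ⟨fun p => p.1.1, fun x => ⟨(x, x), by simp⟩, ?_, ?_⟩ _ _ ?_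
  · rintro ⟨⟨x, y⟩, hp⟩
    have : x = y := by simpa using hp
    subst this
    rfl
  · intro x
    rfl
  · rintro ⟨⟨x, y⟩, hp⟩
    have : x = y := by simpa using hp
    subst this
    rfl

theorem loops {V : Type} [Fintype V] [DecidableEq V] (hV : 2 ≤ Fintype.card V) (m : ℕ) :
    ∀ S : St V, it ls m chi S = (1 - 1 / (Fintype.card V : ℝ)) ^ m * it hs m chi S := by
  have hn : (2 : ℝ) ≤ Fintype.card V := by exact_mod_cast hV
  have hc : (Fintype.card (Pr V) : ℝ) = Fintype.card V * (Fintype.card V - 1) := by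
    have := sum_pr (V := V) fun _ => 1
    simp only [Finset.sum_const, Finset.card_univ, nsmul_eq_mul, mul_one, Fintype.card_prod,
      Nat.cast_mul] at this
    linarith
  induction m with
  | zero => intro S; simp [it_zero]
  | succ m ih =>
    intro S
    rw [it_succ, it_succ]
    unfold av
    rw [sum_pr]
    have h0 : ∀ x : V, it ls m chi (ls S (x, x)) = 0 := by
      intro x
      have : ls S (x, x) = ∅ := by
        ext σ
        simp [ls, cut]
      rw [this, dead]
    have h1 : ∀ e : Pr V, it ls m chi (ls S e.1) =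
        (1 - 1 / (Fintype.card V : ℝ)) ^ m * it hs m chi (hs S e) := fun e => ih _
    simp only [h0, h1, Finset.sum_const_zero, add_zero, ← Finset.mul_sum, hc, Fintype.card_prod,
      Nat.cast_mul]
    have h2 : (Fintype.card V : ℝ) - 1 ≠ 0 := by linarith
    have h3 : (Fintype.card V : ℝ) ≠ 0 := by linarith
    rw [pow_succ]
    field_simp

/-- one averaged step over the pairs in the image of `i` -/
noncomputable def A {W V : Type} [Fintype W] (i : W → V) (f : St V → ℝ) : St V → ℝ :=
  fun S => av fun p : W × W => f (cut S (i p.1) (i p.2))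

theorem A_mono {W V : Type} [Fintype W] (i : W → V) : Monotone (A i) :=
  fun _ _ h _ => av_mono fun _ => h _

theorem A_comm {W W' V : Type} [Fintype W] [Fintype W'] (i : W → V) (j : W' → V)
    (f : St V → ℝ) : A i (A j f) = A j (A i f) := by
  funext S
  unfold A
  rw [av_comm]
  simp only [cut_comm S (i _) (i _)]

theorem it_eq {V : Type} [Fintype V] (m : ℕ) (f : St V → ℝ) :
    it ls m f = (A id)^[m] f := by
  induction m with
  | zero => rfl
  | succ m ih =>
    funext S
    rw [it_succ, Function.iterate_succ_apply', ← ih]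
    rfl

/-- the mixture of the two block steps -/
noncomputable def B {W W' V : Type} [Fintype W] [Fintype W'] (θ : ℝ) (i : W → V) (j : W' → V)
    (f : St V → ℝ) : St V → ℝ := fun S => θ * A i f S + (1 - θ) * A j f S

theorem B_mono {W W' V : Type} [Fintype W] [Fintype W'] {θ : ℝ} (h0 : 0 ≤ θ) (h1 : θ ≤ 1)
    (i : W → V) (j : W' → V) : Monotone (B θ i j) := by
  intro f g h S
  unfold B
  have a1 := A_mono i h S
  have a2 := A_mono j h S
  have : 0 ≤ 1 - θ := by linarith
  exact add_le_add (mul_le_mul_of_nonneg_left a1 h0) (mul_le_mul_of_nonneg_left a2 this)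

theorem B_comm {W W' V : Type} [Fintype W] [Fintype W'] [Fintype V] (θ : ℝ) (i : W → V)
    (j : W' → V) : Function.Commute (B θ i j) (A (id : V → V)) := by
  intro f
  funext S
  have h : A (id : V → V) (B θ i j f) S =
      θ * A (id : V → V) (A i f) S + (1 - θ) * A (id : V → V) (A j f) S := by
    have e1 : A (id : V → V) (B θ i j f) S = av fun p : V × V =>
      θ * A i f (cut S p.1 p.2) + (1 - θ) * A j f (cut S p.1 p.2) := rfl
    rw [e1, av_add, av_mul, av_mul]
    rfl
  rw [h, A_comm id i, A_comm id j]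
  rfl

theorem psd {V C : Type} [Fintype V] (φ : V → C) (w : V → ℝ) :
    0 ≤ ∑ x, ∑ y, w x * w y * ind (φ x = φ y) := by
  classical
  have h : ∀ x y, ind (φ x = φ y) =
      ∑ c ∈ univ.image φ, (if φ x = c then (1 : ℝ) else 0) * (if φ y = c then 1 else 0) := by
    intro x y
    rw [Finset.sum_eq_single (φ x)]
    · by_cases hxy : φ x = φ y
      · simp [ind, hxy]
      · simp [ind, hxy, Ne.symm hxy]
    · intro c _ hc
      simp [Ne.symm hc]
    · intro hx
      exact absurd (Finset.mem_image_of_mem φ (Finset.mem_univ x)) hx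
  have h2 : ∑ x, ∑ y, w x * w y * ind (φ x = φ y) =
      ∑ c ∈ univ.image φ, (∑ x, w x * (if φ x = c then (1 : ℝ) else 0)) ^ 2 := by
    simp only [h, Finset.mul_sum, sq, Finset.sum_mul]
    rw [Finset.sum_comm (s := univ.image φ)]
    refine Finset.sum_congr rfl fun x _ => ?_
    rw [Finset.sum_comm (s := univ.image φ)]
    refine Finset.sum_congr rfl fun y _ => Finset.sum_congr rfl fun c _ => ?_
    ring
  rw [h2]
  exact Finset.sum_nonneg fun _ _ => sq_nonneg _

/-- the colours of a vertex over a state -/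
def ph {V : Type} (S : St V) (x : V) : S → Fin 3 := fun σ => σ.1 x

theorem chi_cut {V : Type} (S : St V) (x y : V) :
    chi (cut S x y) = 1 - ind (ph S x = ph S y) := by
  by_cases h : ph S x = ph S y
  · have : ¬ (cut S x y).Nonempty := by
      rintro ⟨σ, h1, h2⟩
      exact h2 (congrFun h ⟨σ, h1⟩)
    simp [chi, ind, h, this]
  · have : (cut S x y).Nonempty := by
      obtain ⟨σ, hσ⟩ := Function.ne_iff.1 h
      exact ⟨σ.1, σ.2, hσ⟩
    simp [chi, ind, h, this]

theorem A_chi {W V : Type} [Fintype W] (hW : 1 ≤ Fintype.card W) (i : W → V) (S : St V) :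
    A i chi S = 1 - (∑ x, ∑ y, ind (ph S (i x) = ph S (i y))) /
      ((Fintype.card W : ℝ) * Fintype.card W) := by
  have h : (1 : ℝ) ≤ Fintype.card W := by exact_mod_cast hW
  have h0 : (Fintype.card W : ℝ) ≠ 0 := by linarith
  unfold A av
  simp only [chi_cut, Finset.sum_sub_distrib, Finset.sum_const, Finset.card_univ, nsmul_eq_mul,
    mul_one, Fintype.card_prod, Nat.cast_mul, Fintype.sum_prod_type]
  field_simp

theorem B_le {W W' V : Type} [Fintype W] [Fintype W'] [Fintype V] (e : W ⊕ W' ≃ V)
    (hW : 1 ≤ Fintype.card W) (hW' : 1 ≤ Fintype.card W') :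
    B ((Fintype.card W : ℝ) / (Fintype.card W + Fintype.card W')) (fun x => e (Sum.inl x))
      (fun x => e (Sum.inr x)) chi ≤ A (id : V → V) chi := by
  intro S
  have hc : Fintype.card V = Fintype.card W + Fintype.card W' := by
    rw [← Fintype.card_congr e, Fintype.card_sum]
  have h1 : (1 : ℝ) ≤ Fintype.card W := by exact_mod_cast hW
  have h2 : (1 : ℝ) ≤ Fintype.card W' := by exact_mod_cast hW'
  unfold B
  rw [A_chi hW, A_chi hW', A_chi (by omega), hc]
  have hp := psd (fun z : W ⊕ W' => ph S (e z))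
    (Sum.elim (fun _ => (Fintype.card W' : ℝ)) fun _ => -(Fintype.card W : ℝ))
  have hs : ∑ x : V, ∑ y : V, ind (ph S (id x) = ph S (id y)) =
      ∑ x : W ⊕ W', ∑ y : W ⊕ W', ind (ph S (e x) = ph S (e y)) := by
    rw [← Equiv.sum_comp e]
    refine Finset.sum_congr rfl fun x _ => ?_
    rw [← Equiv.sum_comp e]
    rfl
  rw [hs]
  simp only [Fintype.sum_sum_type, Sum.elim_inl, Sum.elim_inr, Finset.sum_add_distrib,
    ← Finset.mul_sum] at hp ⊢
  push_cast
  set a := ∑ x : W, ∑ y : W, ind (ph S (e (Sum.inl x)) = ph S (e (Sum.inl y)))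
  set b := ∑ x : W', ∑ y : W', ind (ph S (e (Sum.inr x)) = ph S (e (Sum.inr y)))
  set c := ∑ x : W, ∑ y : W', ind (ph S (e (Sum.inl x)) = ph S (e (Sum.inr y)))
  set d := ∑ x : W', ∑ y : W, ind (ph S (e (Sum.inr x)) = ph S (e (Sum.inl y)))
  set p : ℝ := (Fintype.card W : ℝ)
  set q : ℝ := (Fintype.card W' : ℝ)
  have hp0 : 0 < p := by linarith
  have hq0 : 0 < q := by linarith
  have key : 1 - (a + d + (c + b)) / ((p + q) * (p + q)) -
      (p / (p + q) * (1 - a / (p * p)) + (1 - p / (p + q)) * (1 - b / (q * q))) =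
      (q * q * a + q * -p * c + (-p * q * d + -p * -p * b)) / ((p + q) * (p + q) * p * q) := by
    field_simp
    ring
  have : 0 ≤ (q * q * a + q * -p * c + (-p * q * d + -p * -p * b)) /
      ((p + q) * (p + q) * p * q) := div_nonneg (by linarith) (by positivity)
  linarith

/-- product state -/
def PS {W W' V : Type} (e : W ⊕ W' ≃ V) (S : St W) (T : St W') : St V :=
  {σ | (fun x => σ (e (Sum.inl x))) ∈ S ∧ (fun x => σ (e (Sum.inr x))) ∈ T}

theorem chi_PS {W W' V : Type} (e : W ⊕ W' ≃ V) (S : St W) (T : St W') :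
    chi (PS e S T) = chi S * chi T := by
  have h : (PS e S T).Nonempty ↔ S.Nonempty ∧ T.Nonempty := by
    constructor
    · rintro ⟨σ, h1, h2⟩
      exact ⟨⟨_, h1⟩, ⟨_, h2⟩⟩
    · rintro ⟨⟨σ, h1⟩, ⟨τ, h2⟩⟩
      refine ⟨fun v => Sum.elim σ τ (e.symm v), ?_, ?_⟩
      · simpa using h1
      · simpa using h2
  by_cases h1 : S.Nonempty <;> by_cases h2 : T.Nonempty <;> simp [chi, ind, h, h1, h2]

theorem cut_l {W W' V : Type} (e : W ⊕ W' ≃ V) (S : St W) (T : St W') (p : W × W) :
    cut (PS e S T) (e (Sum.inl p.1)) (e (Sum.inl p.2)) = PS e (ls S p) T := by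
  ext σ
  simp only [cut, PS, ls, Set.mem_ofPred_eq]
  tauto

theorem cut_r {W W' V : Type} (e : W ⊕ W' ≃ V) (S : St W) (T : St W') (p : W' × W') :
    cut (PS e S T) (e (Sum.inr p.1)) (e (Sum.inr p.2)) = PS e S (ls T p) := by
  ext σ
  simp only [cut, PS, ls, Set.mem_ofPred_eq]
  tauto

theorem binom {W W' V : Type} [Fintype W] [Fintype W'] (e : W ⊕ W' ≃ V) (θ : ℝ) (m : ℕ) :
    ∀ (S : St W) (T : St W'),
      (B θ (fun x => e (Sum.inl x)) (fun x => e (Sum.inr x)))^[m] chi (PS e S T) =
        ∑ k ∈ range (m + 1), (m.choose k : ℝ) *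
          (θ ^ k * (1 - θ) ^ (m - k) * (it ls k chi S * it ls (m - k) chi T)) := by
  induction m with
  | zero => intro S T; simp [it_zero, chi_PS]
  | succ m ih =>
    intro S T
    rw [Function.iterate_succ_apply', Finset.sum_choose_succ_mul
      (fun k j => θ ^ k * (1 - θ) ^ j * (it ls k chi S * it ls j chi T)) m]
    set g := (B θ (fun x => e (Sum.inl x)) (fun x => e (Sum.inr x)))^[m] chi with hg
    have e1 : A (fun x => e (Sum.inl x)) g (PS e S T) = ∑ k ∈ range (m + 1), (m.choose k : ℝ) *
        (θ ^ k * (1 - θ) ^ (m - k) * (it ls (k + 1) chi S * it ls (m - k) chi T)) := by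
      unfold A
      simp only [cut_l, ih]
      rw [av_sum]
      refine Finset.sum_congr rfl fun k _ => ?_
      rw [av_mul, av_mul, it_succ]
      simp only [mul_comm _ (it ls (m - k) chi T)]
      rw [av_mul]
    have e2 : A (fun x => e (Sum.inr x)) g (PS e S T) = ∑ k ∈ range (m + 1), (m.choose k : ℝ) *
        (θ ^ k * (1 - θ) ^ (m - k) * (it ls k chi S * it ls (m - k + 1) chi T)) := by
      unfold A
      simp only [cut_r, ih]
      rw [av_sum]
      refine Finset.sum_congr rfl fun k _ => ?_
      rw [av_mul, av_mul, it_succ, av_mul]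
    unfold B
    rw [e1, e2, Finset.mul_sum, Finset.mul_sum, add_comm]
    congr 1
    · refine Finset.sum_congr rfl fun k hk => ?_
      have hk' : m + 1 - k = m - k + 1 := by
        have := Finset.mem_range.1 hk
        omega
      rw [hk', pow_succ]
      ring
    · refine Finset.sum_congr rfl fun k _ => ?_
      rw [pow_succ]
      ring

end BGT

theorem rowBGT : RowBGT := by
  constructor
  · intro n m hn
    have h := BGT.loops (V := Fin n) (by simpa using hn) m Set.univ
    rw [Fintype.card_fin] at h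
    exact h
  · intro n₁ n₂ m h1 h2
    have hb := BGT.B_le (finSumFinEquiv (m := n₁) (n := n₂)) (by simpa using h1)
      (by simpa using h2)
    simp only [Fintype.card_fin] at hb
    have p1 : (1 : ℝ) ≤ n₁ := by exact_mod_cast h1
    have p2 : (1 : ℝ) ≤ n₂ := by exact_mod_cast h2
    have t0 : 0 ≤ (n₁ : ℝ) / (n₁ + n₂) := by positivity
    have t1 : (n₁ : ℝ) / (n₁ + n₂) ≤ 1 := by
      rw [div_le_one (by linarith)]
      linarith
    have hi := (BGT.B_comm _ _ _).iterate_le_of_map_le (BGT.B_mono t0 t1 _ _)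
      (BGT.A_mono _) hb m (BGT.PS finSumFinEquiv Set.univ Set.univ)
    rw [BGT.binom, ← BGT.it_eq] at hi
    have hu : BGT.PS (finSumFinEquiv (m := n₁) (n := n₂)) Set.univ Set.univ = Set.univ := by
      ext σ
      simp [BGT.PS]
    rw [hu] at hi
    refine le_of_eq_of_le (Finset.sum_congr rfl fun k _ => ?_) hi
    unfold pl
    ring

end Pool.Agent.MP_81f5b7_pr.H42
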