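import Pool.Agent.MP_81f5b7_pr.H42.Kit

/-! Row BON: the two-level Bonferroni inequality. -/

set_option autoImplicit false

namespace Pool.Agent.MP_81f5b7_pr.H42

open Finset

namespace BON

theorem one_sub_pow_le {p : ℝ} (h0 : 0 ≤ p) (h1 : p ≤ 1) (r : ℕ) :
    (1 - p) ^ r ≤ 1 - r * p + (r : ℝ) ^ 2 * p ^ 2 / 2 := by
  induction r with
  | zero => simp
  | succ r ih =>
    have h2 : (1 - p) ^ (r + 1) ≤ (1 - r * p + (r : ℝ) ^ 2 * p ^ 2 / 2) * (1 - p) := by
      rw [pow_succ]; exact mul_le_mul_of_nonneg_right ih (by linarith)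
    have h3 : 0 ≤ (r : ℝ) ^ 2 * p ^ 2 * p := by positivity
    have h4 : 0 ≤ p ^ 2 := sq_nonneg p
    push_cast
    nlinarith

variable {V : Type}

theorem ind_ex_eq (e : V → Prop) (Y : List V) :
    ind (∃ b ∈ Y, e b) = 1 - (Y.map fun b => 1 - ind (e b)).prod := by
  induction Y with
  | nil => rw [ind_neg (by simp)]; simp
  | cons b Y ih =>
    rw [List.map_cons, List.prod_cons]
    by_cases hb : e b
    · rw [ind_pos ⟨b, List.mem_cons_self, hb⟩, ind_pos hb]; ring
    · rw [ind_neg hb, sub_zero, one_mul, ← ih]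
      exact ind_congr (by simp [hb])

theorem ind_ex_le (e : V → Prop) (Y : List V) :
    ind (∃ b ∈ Y, e b) ≤ (Y.map fun b => ind (e b)).sum := by
  induction Y with
  | nil => rw [ind_neg (by simp)]; simp
  | cons b Y ih =>
    rw [List.map_cons, List.sum_cons]
    refine le_trans ?_ ((ind_or_le (e b) (∃ b ∈ Y, e b)).trans (by linarith))
    exact ind_mono (by simp)

theorem two_mul_le (c : ℝ) (g : V → ℝ) (Y : List V) :
    2 * c * (Y.map g).sum ≤ Y.length * c ^ 2 + (Y.map fun b => g b ^ 2).sum := by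
  induction Y with
  | nil => simp
  | cons b Y ih =>
    simp only [List.map_cons, List.sum_cons, List.length_cons]
    push_cast
    nlinarith [sq_nonneg (c - g b)]

theorem sq_sum_le (g : V → ℝ) (Y : List V) :
    (Y.map g).sum ^ 2 ≤ Y.length * (Y.map fun b => g b ^ 2).sum := by
  induction Y with
  | nil => simp
  | cons b Y ih =>
    simp only [List.map_cons, List.sum_cons, List.length_cons]
    push_cast
    nlinarith [two_mul_le (g b) g Y]

variable [Fintype V]

theorem av_list_sum (f : V → V → ℝ) (Y : List V) :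
    av (fun a => (Y.map fun b => f a b).sum) = (Y.map fun b => av fun a => f a b).sum := by
  induction Y with
  | nil => simp [av_zero]
  | cons b Y ih => simp only [List.map_cons, List.sum_cons, av_add, ih]

variable [Nonempty V]

theorem EL_ex (r : ℕ) (e : V → Prop) :
    r * (av fun b => ind (e b)) - (r : ℝ) ^ 2 * (av fun b => ind (e b)) ^ 2 / 2 ≤
      EL r fun Y => ind (∃ b ∈ Y, e b) := by
  simp only [ind_ex_eq, EL_sub, EL_const, EL_prod, av_sub, av_const]
  have := one_sub_pow_le (p := av fun b => ind (e b)) (av_nonneg fun b => ind_nonneg _)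
    (av_le fun b => ind_le_one _) r
  linarith

theorem EL_q (r : ℕ) (w : V → V → Prop) :
    r * (av fun a => av fun b => ind (w a b)) -
      (r : ℝ) ^ 2 / 2 * (av fun a => (av fun b => ind (w a b)) ^ 2) ≤
      EL r fun Y => av fun a => ind (∃ b ∈ Y, w a b) := by
  rw [EL_av, ← av_mul_left, ← av_mul_left, ← av_sub]
  refine av_mono fun a => le_trans (le_of_eq ?_) (EL_ex r (w a))
  ring

theorem EL_q_sq (r : ℕ) (w : V → V → Prop) :
    EL r (fun Y => (av fun a => ind (∃ b ∈ Y, w a b)) ^ 2) ≤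
      (r : ℝ) ^ 2 * av fun b => (av fun a => ind (w a b)) ^ 2 := by
  have h : EL r (fun Y => (av fun a => ind (∃ b ∈ Y, w a b)) ^ 2) ≤
      EL r fun Y => (r : ℝ) * (Y.map fun b => (av fun a => ind (w a b)) ^ 2).sum := by
    refine EL_mono' r fun Y hY => ?_
    have h1 : (av fun a => ind (∃ b ∈ Y, w a b)) ≤ (Y.map fun b => av fun a => ind (w a b)).sum := by
      rw [← av_list_sum]
      exact av_mono fun a => ind_ex_le (w a) Y
    have h2 := sq_sum_le (fun b => av fun a => ind (w a b)) Y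
    rw [hY] at h2
    exact (pow_le_pow_left₀ (av_nonneg fun a => ind_nonneg _) h1 2).trans h2
  rw [EL_mul_left, EL_sum_map] at h
  linarith

theorem two_level (r : ℕ) (w : V → V → Prop) :
    (r : ℝ) ^ 2 * (av fun a => av fun b => ind (w a b)) -
      (r : ℝ) ^ 3 / 2 * (av fun a => (av fun b => ind (w a b)) ^ 2) -
      (r : ℝ) ^ 4 / 2 * (av fun b => (av fun a => ind (w a b)) ^ 2) ≤
      EL r fun Y => EL r fun X => ind (∃ a ∈ X, ∃ b ∈ Y, w a b) := by
  have h1 : EL r (fun Y => (r : ℝ) * (av fun a => ind (∃ b ∈ Y, w a b)) -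
      (r : ℝ) ^ 2 / 2 * (av fun a => ind (∃ b ∈ Y, w a b)) ^ 2) ≤
      EL r fun Y => EL r fun X => ind (∃ a ∈ X, ∃ b ∈ Y, w a b) :=
    EL_mono r fun Y => le_trans (le_of_eq (by ring)) (EL_ex r fun a => ∃ b ∈ Y, w a b)
  rw [EL_sub, EL_mul_left, EL_mul_left] at h1
  have h2 := mul_le_mul_of_nonneg_left (EL_q r w) (Nat.cast_nonneg (α := ℝ) r)
  have h3 := mul_le_mul_of_nonneg_left (EL_q_sq r w) (show 0 ≤ (r : ℝ) ^ 2 / 2 by positivity)
  nlinarith

end BON

theorem rowBON : RowBON := by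
  intro V _ _ k r w α hA hB
  have h0 : 0 ≤ α := (EL_nonneg k fun z => av_nonneg fun a => sq_nonneg _).trans hA
  have h1 := EL_mono k fun z => BON.two_level r (w z)
  rw [EL_sub, EL_sub, EL_mul_left, EL_mul_left, EL_mul_left, EL_comm] at h1
  simp only [EL_comm k r] at h1
  obtain ⟨Y, hY, h2⟩ := EL_exists_ge r
    fun Y => EL r fun X => EL k fun z => ind (∃ a ∈ X, ∃ b ∈ Y, w z a b)
  obtain ⟨X, hX, h3⟩ := EL_exists_ge r fun X => EL k fun z => ind (∃ a ∈ X, ∃ b ∈ Y, w z a b)
  refine ⟨X, Y, hX, hY, le_trans ?_ (h1.trans (h2.trans h3))⟩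
  have h4 : (r : ℝ) ^ 3 ≤ (r : ℝ) ^ 4 := by
    rcases Nat.eq_zero_or_pos r with rfl | hr
    · simp
    · exact pow_le_pow_right₀ (by exact_mod_cast hr) (by norm_num)
  have h5 := mul_le_mul_of_nonneg_left hA (show 0 ≤ (r : ℝ) ^ 3 / 2 by positivity)
  have h6 := mul_le_mul_of_nonneg_left hB (show 0 ≤ (r : ℝ) ^ 4 / 2 by positivity)
  nlinarith [mul_le_mul_of_nonneg_right h4 h0]

end Pool.Agent.MP_81f5b7_pr.H42
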