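import Pool.Agent.MP_81f5b7_pr.H42.Kit

/-! The cavity bound. -/

set_option autoImplicit false

namespace Pool.Agent.MP_81f5b7_pr.H42

open Finset

namespace CAV

section det
variable {V : Type}

/-- the state cut by the letters with no end in `D` -/
def inn (D : Finset V) (S : St V) (l : List (Pr V)) : St V :=
  {σ | σ ∈ S ∧ ∀ e ∈ l, e.1.1 ∉ D → e.1.2 ∉ D → σ e.1.1 ≠ σ e.1.2}

/-- outer ends of the letters that leave `D` -/
def out (v : V) (D : Finset V) (l : List (Pr V)) (x : V) : Prop :=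
  x ∉ D ∧ x ≠ v ∧ ∃ e ∈ l, (e.1.1 ∈ D ∧ e.1.2 = x) ∨ (e.1.2 ∈ D ∧ e.1.1 = x)

/-- the event followed by the machine -/
def G (P : St V → Prop) (v : V) (D : Finset V) (l : List (Pr V)) (R : Finset V) (S : St V)
    (Q : Lst V) : Prop :=
  (∀ u ∈ R, adj l v u) ∧ ((inn D S l).Nonempty ∧ P (inn D S l)) ∧
    ∀ σ ∈ inn D S l, ∀ c ∈ Q σ, ∃ x, out v D l x ∧ σ x = c

theorem inn_nil (D : Finset V) (S : St V) : inn D S [] = S := by
  ext σ; simp [inn]

theorem inn_cons_of_mem {D : Finset V} (S : St V) {e : Pr V} (l : List (Pr V))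
    (h : e.1.1 ∈ D ∨ e.1.2 ∈ D) : inn D S (e :: l) = inn D S l := by
  ext σ
  simp only [inn, Set.mem_ofPred_eq, List.forall_mem_cons]
  constructor
  · rintro ⟨h1, -, h2⟩; exact ⟨h1, h2⟩
  · rintro ⟨h1, h2⟩; exact ⟨h1, fun a b => by tauto, h2⟩

theorem inn_cons_of_not {D : Finset V} (S : St V) {e : Pr V} (l : List (Pr V))
    (h1 : e.1.1 ∉ D) (h2 : e.1.2 ∉ D) : inn D S (e :: l) = inn D (hs S e) l := by
  ext σ
  simp only [inn, hs, mem_cut, Set.mem_ofPred_eq, List.forall_mem_cons]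
  constructor
  · rintro ⟨a, b, c⟩; exact ⟨⟨a, b h1 h2⟩, c⟩
  · rintro ⟨⟨a, b⟩, c⟩; exact ⟨a, fun _ _ => b, c⟩

theorem adj_cons {e : Pr V} {l : List (Pr V)} {x y : V} (h : adj (e :: l) x y) :
    (e.1.1 = x ∧ e.1.2 = y) ∨ (e.1.1 = y ∧ e.1.2 = x) ∨ adj l x y := by
  obtain ⟨f, hf, h⟩ := h
  rcases List.mem_cons.1 hf with rfl | hf
  · rcases h with h | h
    · exact Or.inl ⟨by rw [h], by rw [h]⟩
    · exact Or.inr (Or.inl ⟨by rw [h], by rw [h]⟩)
  · exact Or.inr (Or.inr ⟨f, hf, h⟩)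

theorem out_cons {v : V} {D : Finset V} {e : Pr V} {l : List (Pr V)} {x : V}
    (h : out v D (e :: l) x) : (x ∉ D ∧ x ≠ v ∧ ((e.1.1 ∈ D ∧ e.1.2 = x) ∨
      (e.1.2 ∈ D ∧ e.1.1 = x))) ∨ out v D l x := by
  obtain ⟨h1, h2, f, hf, h⟩ := h
  rcases List.mem_cons.1 hf with rfl | hf
  · exact Or.inl ⟨h1, h2, h⟩
  · exact Or.inr ⟨h1, h2, f, hf, h⟩

theorem G_nil {P : St V → Prop} {v : V} {D R : Finset V} {S : St V} {Q : Lst V}
    (h : G P v D [] R S Q) : R = ∅ ∧ (S.Nonempty ∧ P S) ∧ cov S Q [] := by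
  obtain ⟨h1, h2, h3⟩ := h
  rw [inn_nil] at h2 h3
  refine ⟨eq_empty_of_forall_notMem fun u hu => ?_, h2, fun σ hσ c hc => ?_⟩
  · obtain ⟨e, he, -⟩ := h1 u hu
    simp at he
  · obtain ⟨x, ⟨-, -, e, he, -⟩, -⟩ := h3 σ hσ c hc
    simp at he

theorem G_cons [DecidableEq V] {P : St V → Prop} {v : V} {D R : Finset V} {S : St V} {Q : Lst V} {e : Pr V}
    {l : List (Pr V)} (hR : R ⊆ D) (h : G P v D (e :: l) R S Q) :
    G P v D l R (hs S e) Q ∨ (e.1.1 ∈ D ∧ G P v D l R S (er Q e.1.2)) ∨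
      (e.1.2 ∈ D ∧ G P v D l R S (er Q e.1.1)) ∨
      ((e.1.1 = v ∧ e.1.2 ∈ D) ∧ G P v D l (R.erase e.1.2) S Q) ∨
      ((e.1.2 = v ∧ e.1.1 ∈ D) ∧ G P v D l (R.erase e.1.1) S Q) := by
  obtain ⟨h1, h2, h3⟩ := h
  have hne : e.1.1 ≠ e.1.2 := e.2
  by_cases c1 : e.1.1 = v ∧ e.1.2 ∈ D
  · rw [inn_cons_of_mem S l (Or.inr c1.2)] at h2 h3
    refine Or.inr (Or.inr (Or.inr (Or.inl ⟨c1, fun u hu => ?_, h2, fun σ hσ c hc => ?_⟩)))
    · rcases adj_cons (h1 u (mem_of_mem_erase hu)) with a | a | a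
      · exact absurd a.2.symm (ne_of_mem_erase hu)
      · exact absurd (c1.1.trans a.2.symm) hne
      · exact a
    · obtain ⟨x, hx, hc⟩ := h3 σ hσ c hc
      rcases out_cons hx with ⟨a, b, d | d⟩ | a
      · exact absurd (d.2 ▸ c1.2) a
      · exact absurd (d.2.symm.trans c1.1) b
      · exact ⟨x, a, hc⟩
  by_cases c2 : e.1.2 = v ∧ e.1.1 ∈ D
  · rw [inn_cons_of_mem S l (Or.inl c2.2)] at h2 h3
    refine Or.inr (Or.inr (Or.inr (Or.inr ⟨c2, fun u hu => ?_, h2, fun σ hσ c hc => ?_⟩)))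
    · rcases adj_cons (h1 u (mem_of_mem_erase hu)) with a | a | a
      · exact absurd (a.1.trans c2.1.symm) hne
      · exact absurd a.1.symm (ne_of_mem_erase hu)
      · exact a
    · obtain ⟨x, hx, hc⟩ := h3 σ hσ c hc
      rcases out_cons hx with ⟨a, b, d | d⟩ | a
      · exact absurd (d.2.symm.trans c2.1) b
      · exact absurd (d.2 ▸ c2.2) a
      · exact ⟨x, a, hc⟩
  have hadj : ∀ u ∈ R, adj l v u := fun u hu => by
    rcases adj_cons (h1 u hu) with a | a | a
    · exact absurd ⟨a.1, a.2 ▸ hR hu⟩ c1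
    · exact absurd ⟨a.2, a.1 ▸ hR hu⟩ c2
    · exact a
  by_cases c3 : e.1.1 ∈ D
  · rw [inn_cons_of_mem S l (Or.inl c3)] at h2 h3
    refine Or.inr (Or.inl ⟨c3, hadj, h2, fun σ hσ c hc => ?_⟩)
    obtain ⟨x, hx, hc'⟩ := h3 σ hσ c (mem_of_mem_erase hc)
    rcases out_cons hx with ⟨a, b, d | d⟩ | a
    · exact absurd (d.2 ▸ hc').symm (ne_of_mem_erase hc)
    · exact absurd (d.2 ▸ c3) a
    · exact ⟨x, a, hc'⟩
  by_cases c4 : e.1.2 ∈ D
  · rw [inn_cons_of_mem S l (Or.inr c4)] at h2 h3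
    refine Or.inr (Or.inr (Or.inl ⟨c4, hadj, h2, fun σ hσ c hc => ?_⟩))
    obtain ⟨x, hx, hc'⟩ := h3 σ hσ c (mem_of_mem_erase hc)
    rcases out_cons hx with ⟨a, b, d | d⟩ | a
    · exact absurd d.1 c3
    · exact absurd (d.2 ▸ hc').symm (ne_of_mem_erase hc)
    · exact ⟨x, a, hc'⟩
  rw [inn_cons_of_not S l c3 c4] at h2 h3
  refine Or.inl ⟨hadj, h2, fun σ hσ c hc => ?_⟩
  obtain ⟨x, hx, hc'⟩ := h3 σ hσ c hc
  rcases out_cons hx with ⟨a, b, d | d⟩ | a
  · exact absurd d.1 c3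
  · exact absurd d.1 c4
  · exact ⟨x, a, hc'⟩

theorem two_other (c : Fin 3) : ∃ a b : Fin 3, a ≠ c ∧ b ≠ c ∧ a ≠ b := by
  revert c; decide

/-- the deterministic part -/
theorem G_start [Fintype V] [DecidableEq V] {P : St V → Prop} (hP : ∀ S T : St V, T ⊆ S → P T → P S) {v : V}
    {l : List (Pr V)} (h1 : (hr l).Nonempty ∧ P (hr l)) (h2 : par (hr l) v ∧ ¬ tri l v) :
    ∃ D ∈ (univ : Finset V).powerset, G P v D l D Set.univ U := by
  classical
  let D : Finset V := univ.filter fun u => adj l v u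
  have hD : ∀ u, u ∈ D ↔ adj l v u := fun u => by simp [D]
  have hsub : hr l ⊆ inn D Set.univ l := fun σ hσ =>
    ⟨trivial, fun e he _ _ => mem_hr.1 hσ e he⟩
  have hv : v ∉ D := fun h => by
    obtain ⟨e, -, h⟩ := (hD v).1 h
    apply e.2
    rcases h with h | h <;> rw [h]
  refine ⟨D, mem_powerset.2 (subset_univ _), fun u hu => (hD u).1 hu,
    ⟨h1.1.mono hsub, hP _ _ hsub h1.2⟩, fun σ hσ c _ => ?_⟩
  by_contra hc
  have hc' : ∀ x, out v D l x → σ x ≠ c := fun x hx h => hc ⟨x, hx, h⟩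
  have key : ∀ a : Fin 3, a ≠ c →
      (fun x => if x = v then a else if x ∈ D then c else σ x) ∈ hr l := by
    intro a ha
    refine mem_hr.2 fun e he => ?_
    have hne : e.1.1 ≠ e.1.2 := e.2
    by_cases p1 : e.1.1 = v
    · have q : e.1.2 ∈ D := (hD _).2 ⟨e, he, Or.inl (by rw [← p1])⟩
      have q' : e.1.2 ≠ v := fun h => hne (p1.trans h.symm)
      simp only [p1, q, q', if_true, if_false]; exact ha
    by_cases p2 : e.1.2 = v
    · have q : e.1.1 ∈ D := (hD _).2 ⟨e, he, Or.inr (by rw [← p2])⟩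
      simp only [p1, p2, q, if_true, if_false]; exact ha.symm
    by_cases p3 : e.1.1 ∈ D
    · by_cases p4 : e.1.2 ∈ D
      · exact absurd ⟨_, _, (hD _).1 p3, (hD _).1 p4, e, he, Or.inl rfl⟩ h2.2
      · simp only [p1, p2, p3, p4, if_true, if_false]
        exact (hc' _ ⟨p4, p2, e, he, Or.inl ⟨p3, rfl⟩⟩).symm
    by_cases p4 : e.1.2 ∈ D
    · simp only [p1, p2, p3, p4, if_true, if_false]
      exact hc' _ ⟨p3, p1, e, he, Or.inr ⟨p4, rfl⟩⟩
    · simp only [p1, p2, p3, p4, if_false]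
      exact hσ.2 e he p3 p4
  obtain ⟨a, b, ha, hb, hab⟩ := two_other c
  obtain ⟨w, hw, he⟩ := h2.1
  have e1 := he _ (key a ha)
  have e2 := he _ (key b hb)
  simp only [hw, if_true, if_false] at e1 e2
  exact hab (e1.trans e2.symm)

end det

section prob
variable {V : Type} [Fintype V] [DecidableEq V]

omit [Fintype V] [DecidableEq V] in
theorem cov_er (S : St V) (Q : Lst V) (x : V) (z : List V) :
    cov S (er Q x) z ↔ cov S Q (x :: z) := by
  simp only [cov, er, mem_erase, List.mem_cons, exists_eq_or_imp]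
  constructor
  · intro h σ hσ c hc
    by_cases e : σ x = c
    · exact Or.inl e
    · exact Or.inr (h σ hσ c ⟨fun a => e a.symm, hc⟩)
  · rintro h σ hσ c ⟨h1, h2⟩
    rcases h σ hσ c h2 with a | a
    · exact absurd a.symm h1
    · exact a

omit [DecidableEq V] in
theorem rho_succ (S : St V) (Q : Lst V) (j : ℕ) :
    rho S Q (j + 1) = av fun x => rho S (er Q x) j := by
  simp only [rho, EL_succ, cov_er]

omit [DecidableEq V] in
theorem rho_nonneg (S : St V) (Q : Lst V) (j : ℕ) : 0 ≤ rho S Q j :=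
  EL_nonneg _ fun _ => ind_nonneg _

/-- sums of weighted covering probabilities along the run -/
noncomputable def F (P : St V → Prop) (M i : ℕ) (S : St V) (Q : Lst V) : ℝ :=
  sm hs M (fun T => ind (T.Nonempty ∧ P T) * rho T Q i) S

theorem F_nonneg (P : St V → Prop) (M i : ℕ) (S : St V) (Q : Lst V) : 0 ≤ F P M i S Q :=
  sm_nonneg _ _ (fun _ => mul_nonneg (ind_nonneg _) (rho_nonneg _ _ _)) _

theorem F_mono (P : St V → Prop) (M i : ℕ) (S : St V) (Q : Lst V) :
    F P M i S Q ≤ F P (M + 1) i S Q :=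
  sm_mono_left _ (Nat.le_succ M) (fun _ => mul_nonneg (ind_nonneg _) (rho_nonneg _ _ _)) _

theorem F_succ (P : St V → Prop) (M i : ℕ) (S : St V) (Q : Lst V) :
    F P (M + 1) i S Q = ind (S.Nonempty ∧ P S) * rho S Q i + av fun e => F P M i (hs S e) Q :=
  sm_succ _ _ _ _

theorem F_er (P : St V → Prop) (M i : ℕ) (S : St V) (Q : Lst V) :
    (av fun x => F P M i S (er Q x)) = F P M (i + 1) S Q := by
  unfold F
  rw [← sm_av]
  simp only [rho_succ, av_mul_left]

/-- the binomial majorant -/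
noncomputable def W (P : St V → Prop) (b : ℝ) (M : ℕ) (S : St V) (Q : Lst V) : ℝ :=
  ∑ i ∈ range (M + 1), (M.choose i : ℝ) * (b ^ i * F P M i S Q)

theorem W_nonneg (P : St V → Prop) {b : ℝ} (hb : 0 ≤ b) (M : ℕ) (S : St V) (Q : Lst V) :
    0 ≤ W P b M S Q :=
  sum_nonneg fun _ _ => mul_nonneg (Nat.cast_nonneg _) (mul_nonneg (pow_nonneg hb _)
    (F_nonneg _ _ _ _ _))

theorem W_succ (P : St V → Prop) (b : ℝ) (M : ℕ) (S : St V) (Q : Lst V) :
    W P b (M + 1) S Q = ∑ i ∈ range (M + 1), (M.choose i : ℝ) * (b ^ i * F P (M + 1) i S Q) +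
      ∑ i ∈ range (M + 1), (M.choose i : ℝ) * (b ^ (i + 1) * F P (M + 1) (i + 1) S Q) :=
  sum_choose_succ_mul (fun i _ => b ^ i * F P (M + 1) i S Q) M

theorem W_mono (P : St V → Prop) {b : ℝ} (hb : 0 ≤ b) (M : ℕ) (S : St V) (Q : Lst V) :
    W P b M S Q ≤ W P b (M + 1) S Q := by
  rw [W_succ]
  refine le_add_of_le_of_nonneg (sum_le_sum fun i _ => ?_) (sum_nonneg fun i _ => ?_)
  · exact mul_le_mul_of_nonneg_left (mul_le_mul_of_nonneg_left (F_mono _ _ _ _ _)
      (pow_nonneg hb _)) (Nat.cast_nonneg _)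
  · exact mul_nonneg (Nat.cast_nonneg _) (mul_nonneg (pow_nonneg hb _) (F_nonneg _ _ _ _ _))

theorem W_rec (P : St V → Prop) {b : ℝ} (hb : 0 ≤ b) (M : ℕ) (S : St V) (Q : Lst V) :
    ind ((S.Nonempty ∧ P S) ∧ cov S Q []) + (av fun e => W P b M (hs S e) Q) +
      b * (av fun x => W P b M S (er Q x)) ≤ W P b (M + 1) S Q := by
  rw [W_succ]
  refine add_le_add ?_ ?_
  · simp only [F_succ, mul_add, sum_add_distrib, W, av_sum, av_mul_left]
    refine add_le_add ?_ le_rfl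
    have h0 : ind ((S.Nonempty ∧ P S) ∧ cov S Q []) =
        (M.choose 0 : ℝ) * (b ^ 0 * (ind (S.Nonempty ∧ P S) * rho S Q 0)) := by
      rw [ind_and]; simp [rho]
    rw [h0]
    exact single_le_sum (f := fun i => (M.choose i : ℝ) *
      (b ^ i * (ind (S.Nonempty ∧ P S) * rho S Q i))) (fun i _ => mul_nonneg (Nat.cast_nonneg _)
      (mul_nonneg (pow_nonneg hb _) (mul_nonneg (ind_nonneg _) (rho_nonneg _ _ _))))
      (mem_range.2 (Nat.succ_pos M))
  · simp only [W, av_sum, av_mul_left, F_er, mul_sum]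
    refine sum_le_sum fun i _ => ?_
    have := F_mono P M (i + 1) S Q
    have h1 : 0 ≤ (M.choose i : ℝ) * b ^ (i + 1) := by positivity
    calc b * ((M.choose i : ℝ) * (b ^ i * F P M (i + 1) S Q))
        = (M.choose i : ℝ) * b ^ (i + 1) * F P M (i + 1) S Q := by ring
      _ ≤ (M.choose i : ℝ) * b ^ (i + 1) * F P (M + 1) (i + 1) S Q :=
        mul_le_mul_of_nonneg_left this h1
      _ = _ := by ring

theorem av_Pr_le_div (h : 2 ≤ Fintype.card V) {f : V → V → ℝ} (h0 : ∀ x y, 0 ≤ f x y) :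
    av (fun e : Pr V => f e.1.1 e.1.2) ≤
      (∑ x, ∑ y, f x y) / (Fintype.card V * (Fintype.card V - 1)) := by
  have h2 : (2 : ℝ) ≤ Fintype.card V := by exact_mod_cast h
  rw [av_Pr]
  exact div_le_div_of_nonneg_right (sub_le_self _ (sum_nonneg fun x _ => h0 x x))
    (mul_nonneg (by linarith) (by linarith))

omit [DecidableEq V] in
theorem sum_ind_mem (D : Finset V) (φ : V → ℝ) : ∑ x, ind (x ∈ D) * φ x = ∑ x ∈ D, φ x := by
  classical
  have : ∀ x, ind (x ∈ D) * φ x = if x ∈ D then φ x else 0 := fun x => by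
    by_cases hx : x ∈ D <;> simp [ind, hx]
  simp only [this, sum_ite_mem, univ_inter]

theorem av_cross (h : 2 ≤ Fintype.card V) (D : Finset V) {φ : V → ℝ} (h0 : ∀ x, 0 ≤ φ x) :
    (av fun e : Pr V => ind (e.1.1 ∈ D) * φ e.1.2) + (av fun e : Pr V => ind (e.1.2 ∈ D) * φ e.1.1)
      ≤ 2 * D.card / (Fintype.card V - 1) * av φ := by
  have h2 : (2 : ℝ) ≤ Fintype.card V := by exact_mod_cast h
  have a1 := av_Pr_le_div h (f := fun x y => ind (x ∈ D) * φ y)
    fun x y => mul_nonneg (ind_nonneg _) (h0 _)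
  have a2 := av_Pr_le_div h (f := fun x y => ind (y ∈ D) * φ x)
    fun x y => mul_nonneg (ind_nonneg _) (h0 _)
  rw [sum_comm] at a2
  have e : ∑ x, ∑ y, ind (x ∈ D) * φ y = D.card * ∑ y, φ y := by
    simp only [← mul_sum]; rw [sum_ind_mem]; simp
  rw [e] at a1 a2
  refine (add_le_add a1 a2).trans_eq ?_
  have : (Fintype.card V : ℝ) - 1 ≠ 0 := by linarith
  have : (Fintype.card V : ℝ) ≠ 0 := by linarith
  rw [av]; field_simp; ring

theorem av_star (h : 2 ≤ Fintype.card V) (v : V) (D : Finset V) {φ : V → ℝ} (h0 : ∀ x, 0 ≤ φ x) :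
    (av fun e : Pr V => ind (e.1.1 = v ∧ e.1.2 ∈ D) * φ e.1.2) +
      (av fun e : Pr V => ind (e.1.2 = v ∧ e.1.1 ∈ D) * φ e.1.1)
      ≤ 2 / (Fintype.card V * (Fintype.card V - 1)) * ∑ u ∈ D, φ u := by
  have a1 := av_Pr_le_div h (f := fun x y => ind (x = v ∧ y ∈ D) * φ y)
    fun x y => mul_nonneg (ind_nonneg _) (h0 _)
  have a2 := av_Pr_le_div h (f := fun x y => ind (y = v ∧ x ∈ D) * φ x)
    fun x y => mul_nonneg (ind_nonneg _) (h0 _)
  rw [sum_comm] at a2
  have e : ∑ x, ∑ y, ind (x = v ∧ y ∈ D) * φ y = ∑ u ∈ D, φ u := by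
    simp only [ind_and, mul_assoc, ← mul_sum, sum_ind_mem]
    have := sum_ind_mem ({v} : Finset V) fun _ => ∑ u ∈ D, φ u
    simpa using this
  rw [e] at a1 a2
  refine (add_le_add a1 a2).trans_eq ?_
  ring

/-- expected value of the event of the machine -/
noncomputable def g (P : St V → Prop) (v : V) (D : Finset V) (m : ℕ) (R : Finset V) (S : St V)
    (Q : Lst V) : ℝ := EL m fun l => ind (G P v D l R S Q)

theorem g_nonneg (P : St V → Prop) (v : V) (D : Finset V) (m : ℕ) (R : Finset V) (S : St V)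
    (Q : Lst V) : 0 ≤ g P v D m R S Q := EL_nonneg _ fun _ => ind_nonneg _

theorem g_succ (h : 2 ≤ Fintype.card V) (P : St V → Prop) (v : V) (D : Finset V) (m : ℕ)
    {R : Finset V} (hR : R ⊆ D) (S : St V) (Q : Lst V) :
    g P v D (m + 1) R S Q ≤ (av fun e => g P v D m R (hs S e) Q) +
      2 * D.card / (Fintype.card V - 1) * (av fun x => g P v D m R S (er Q x)) +
      2 / (Fintype.card V * (Fintype.card V - 1)) * ∑ u ∈ D, g P v D m (R.erase u) S Q := by
  have a1 := av_cross h D (φ := fun x => g P v D m R S (er Q x)) fun _ => g_nonneg _ _ _ _ _ _ _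
  have a2 := av_star h v D (φ := fun u => g P v D m (R.erase u) S Q)
    fun _ => g_nonneg _ _ _ _ _ _ _
  refine le_trans ?_ (add_le_add (add_le_add le_rfl a1) a2)
  simp only [← av_add]
  refine av_mono fun e => ?_
  simp only [g, ← EL_mul_left, ← EL_add]
  refine EL_mono _ fun l => ?_
  simp only [← ind_and]
  refine (ind_mono (G_cons hR)).trans ?_
  refine (ind_or_le _ _).trans ?_
  rw [add_assoc]
  refine add_le_add le_rfl ((ind_or_le _ _).trans ?_)
  rw [add_assoc]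
  refine add_le_add le_rfl ((ind_or_le _ _).trans ?_)
  exact add_le_add le_rfl (ind_or_le _ _)

omit [Fintype V] in
theorem sum_erase_pow {D R : Finset V} (hR : R ⊆ D) {x : ℝ} (hx : 0 ≤ x) :
    ∑ u ∈ D, x ^ (R.erase u).card ≤ R.card * x ^ (R.card - 1) + D.card * x ^ R.card := by
  rw [← sum_sdiff hR, add_comm]
  refine add_le_add (le_of_eq ?_) ?_
  · rw [sum_congr rfl fun u hu => by rw [card_erase_of_mem hu]]; simp
  · rw [sum_congr rfl fun u hu => by rw [erase_eq_of_notMem (mem_sdiff.1 hu).2]]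
    simp only [sum_const, nsmul_eq_mul]
    exact mul_le_mul_of_nonneg_right (by exact_mod_cast card_le_card sdiff_subset)
      (pow_nonneg hx _)

theorem arith {k : ℕ} {x r d c f X W W' t : ℝ} (hx : 0 ≤ x) (hr : 0 ≤ r) (hd : 0 ≤ d) (hc : 1 ≤ c)
    (hf : 0 ≤ f) (hW : 0 ≤ W) (hWW : W ≤ W') (hrec : f + X ≤ W') (ht : t ≤ f)
    (ht0 : k ≠ 0 → t = 0) :
    t + x ^ k * c * X + r * ((k * x ^ (k - 1) + d * x ^ k) * (c * W)) ≤
      (x + r) ^ k * (c * (1 + d * r)) * W' := by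
  have hW' : 0 ≤ W' := hW.trans hWW
  have hc0 : 0 ≤ c := by linarith
  have b1 := pow_add_mul_le_add_pow hx (b := r) (by linarith) k
  have b2 : x ^ k ≤ (x + r) ^ k := pow_le_pow_left₀ hx (by linarith) k
  have p1 : 0 ≤ x ^ k := pow_nonneg hx k
  have p2 : 0 ≤ (k : ℝ) * x ^ (k - 1) := by positivity
  have s1 : t + x ^ k * c * X ≤ x ^ k * c * W' := by
    by_cases hk : k = 0
    · subst hk
      simp only [pow_zero, one_mul]
      nlinarith [mul_le_mul_of_nonneg_left hrec hc0]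
    · rw [ht0 hk, zero_add]
      exact mul_le_mul_of_nonneg_left (by linarith) (mul_nonneg p1 hc0)
  have s2 : r * ((k * x ^ (k - 1) + d * x ^ k) * (c * W)) ≤
      r * ((k * x ^ (k - 1) + d * (x + r) ^ k) * (c * W')) := by
    refine mul_le_mul_of_nonneg_left (mul_le_mul ?_ (mul_le_mul_of_nonneg_left hWW hc0)
      (mul_nonneg hc0 hW) ?_) hr
    · exact add_le_add le_rfl (mul_le_mul_of_nonneg_left b2 hd)
    · exact add_nonneg p2 (mul_nonneg hd (p1.trans b2))
  have s3 := mul_le_mul_of_nonneg_right b1 (mul_nonneg hc0 hW')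
  nlinarith

theorem main_ind (h : 2 ≤ Fintype.card V) (P : St V → Prop) (v : V) (D : Finset V) {r b : ℝ}
    (hr : r = 2 / (Fintype.card V * (Fintype.card V - 1)))
    (hb : b = 2 * D.card / (Fintype.card V - 1)) (M : ℕ) :
    ∀ (R : Finset V), R ⊆ D → ∀ (S : St V) (Q : Lst V), ∑ m ∈ range M, g P v D m R S Q ≤
      (r * M) ^ R.card * (1 + D.card * r) ^ M * W P b M S Q := by
  have h2 : (2 : ℝ) ≤ Fintype.card V := by exact_mod_cast h
  have hr0 : 0 ≤ r := hr ▸ div_nonneg (by norm_num) (mul_nonneg (by linarith) (by linarith))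
  have hb0 : 0 ≤ b := hb ▸ div_nonneg (by positivity) (by linarith)
  induction M with
  | zero =>
    intro R _ S Q
    rw [sum_range_zero]
    exact mul_nonneg (by positivity) (W_nonneg _ hb0 _ _ _)
  | succ M ih =>
    intro R hR S Q
    have hc : (1 : ℝ) ≤ (1 + D.card * r) ^ M :=
      one_le_pow₀ (le_add_of_nonneg_right (by positivity))
    have hx : 0 ≤ r * M := by positivity
    have e1 : ∑ m ∈ range M, g P v D (m + 1) R S Q ≤
        (av fun e => ∑ m ∈ range M, g P v D m R (hs S e) Q) +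
        b * (av fun x => ∑ m ∈ range M, g P v D m R S (er Q x)) +
        r * ∑ u ∈ D, ∑ m ∈ range M, g P v D m (R.erase u) S Q := by
      refine (sum_le_sum fun m _ => g_succ h P v D m hR S Q).trans_eq ?_
      rw [← hr, ← hb, sum_comm (s := D)]
      simp only [sum_add_distrib, av_sum, ← mul_sum]
    have e2 : (av fun e => ∑ m ∈ range M, g P v D m R (hs S e) Q) ≤
        (r * M) ^ R.card * (1 + D.card * r) ^ M * av fun e => W P b M (hs S e) Q := by
      rw [← av_mul_left]; exact av_mono fun e => ih R hR _ _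
    have e3 : (av fun x => ∑ m ∈ range M, g P v D m R S (er Q x)) ≤
        (r * M) ^ R.card * (1 + D.card * r) ^ M * av fun x => W P b M S (er Q x) := by
      rw [← av_mul_left]; exact av_mono fun e => ih R hR _ _
    have e4 : ∑ u ∈ D, ∑ m ∈ range M, g P v D m (R.erase u) S Q ≤
        (R.card * (r * M) ^ (R.card - 1) + D.card * (r * M) ^ R.card) *
          ((1 + D.card * r) ^ M * W P b M S Q) := by
      refine (sum_le_sum fun u _ => ih (R.erase u) ((erase_subset _ _).trans hR) S Q).trans ?_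
      simp only [mul_assoc, ← sum_mul]
      exact mul_le_mul_of_nonneg_right (sum_erase_pow hR hx)
        (mul_nonneg (by linarith) (W_nonneg _ hb0 _ _ _))
    have e5 := arith (k := R.card) (t := g P v D 0 R S Q)
      (X := (av fun e => W P b M (hs S e) Q) + b * av fun x => W P b M S (er Q x))
      hx hr0 (Nat.cast_nonneg D.card) hc (ind_nonneg ((S.Nonempty ∧ P S) ∧ cov S Q []))
      (W_nonneg P hb0 M S Q) (W_mono P hb0 M S Q) (by linarith [W_rec P hb0 M S Q])
      (ind_mono fun a => (G_nil a).2)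
      (fun hk => ind_neg fun a => hk (by rw [(G_nil a).1]; rfl))
    rw [sum_range_succ', pow_succ]
    have e6 : r * ((M + 1 : ℕ) : ℝ) = r * M + r := by push_cast; ring
    rw [e6]
    have := mul_le_mul_of_nonneg_left e3 hb0
    have := mul_le_mul_of_nonneg_left e4 hr0
    nlinarith

end prob

theorem consts {n d M i : ℕ} (hn : 2 ≤ n) (hM : M ≤ 3 * n) :
    (n.choose d : ℝ) * ((2 / (n * (n - 1)) * M) ^ d * (1 + d * (2 / (n * (n - 1)))) ^ M) *
      ((M.choose i : ℝ) * (2 * d / (n - 1)) ^ i) ≤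
    (12 * Real.exp 6) ^ d / d.factorial * ((12 * Real.exp 6 * d) ^ i / i.factorial) := by
  have h2 : (2 : ℝ) ≤ n := by exact_mod_cast hn
  have h3 : (M : ℝ) ≤ 3 * n := by exact_mod_cast hM
  have h1 : (0 : ℝ) < n - 1 := by linarith
  have h0 : (0 : ℝ) < n := by linarith
  have hr : (0 : ℝ) ≤ 2 / (n * (n - 1)) := by positivity
  have k1 : (n : ℝ) * (2 / (n * (n - 1)) * M) ≤ 12 := by
    rw [show (n : ℝ) * (2 / (n * (n - 1)) * M) = 2 * M / (n - 1) by field_simp,
      div_le_iff₀ h1]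
    linarith
  have k2 : 2 / ((n : ℝ) * (n - 1)) * M ≤ 6 := by
    have : 0 ≤ 2 / ((n : ℝ) * (n - 1)) * M := by positivity
    nlinarith
  have k3 : (M : ℝ) * (2 * d / (n - 1)) ≤ 12 * Real.exp 6 * d := by
    have a : (M : ℝ) * (2 * d / (n - 1)) = (2 * M / (n - 1)) * d := by field_simp
    have b : 2 * (M : ℝ) / (n - 1) ≤ 12 := by rw [div_le_iff₀ h1]; linarith
    have c : (1 : ℝ) ≤ Real.exp 6 := Real.one_le_exp (by norm_num)
    rw [a]
    exact mul_le_mul_of_nonneg_right (by linarith) (Nat.cast_nonneg d)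
  have a1 : (1 + d * (2 / ((n : ℝ) * (n - 1)))) ^ M ≤ Real.exp 6 ^ d := by
    calc (1 + d * (2 / ((n : ℝ) * (n - 1)))) ^ M
        ≤ Real.exp (d * (2 / ((n : ℝ) * (n - 1)))) ^ M :=
          pow_le_pow_left₀ (by positivity) (by linarith [Real.add_one_le_exp (d * (2 / ((n : ℝ) * (n - 1))))]) M
      _ ≤ Real.exp 6 ^ d := by
          rw [← Real.exp_nat_mul, ← Real.exp_nat_mul]
          refine Real.exp_le_exp.2 ?_
          have := mul_le_mul_of_nonneg_left k2 (Nat.cast_nonneg (α := ℝ) d)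
          linarith
  have a2 : (n.choose d : ℝ) * (2 / (n * (n - 1)) * M) ^ d ≤ 12 ^ d / d.factorial := by
    calc (n.choose d : ℝ) * (2 / (n * (n - 1)) * M) ^ d
        ≤ (n : ℝ) ^ d / d.factorial * (2 / (n * (n - 1)) * M) ^ d :=
          mul_le_mul_of_nonneg_right (Nat.choose_le_pow_div d n) (by positivity)
      _ = ((n : ℝ) * (2 / (n * (n - 1)) * M)) ^ d / d.factorial := by rw [mul_pow (n : ℝ)]; ring
      _ ≤ _ := div_le_div_of_nonneg_right (pow_le_pow_left₀ (by positivity) k1 d) (by positivity)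
  have a3 : (M.choose i : ℝ) * (2 * d / (n - 1)) ^ i ≤
      (12 * Real.exp 6 * d) ^ i / i.factorial := by
    calc (M.choose i : ℝ) * (2 * d / (n - 1)) ^ i
        ≤ (M : ℝ) ^ i / i.factorial * (2 * d / (n - 1)) ^ i :=
          mul_le_mul_of_nonneg_right (Nat.choose_le_pow_div i M) (by positivity)
      _ = ((M : ℝ) * (2 * d / (n - 1))) ^ i / i.factorial := by rw [mul_pow (M : ℝ)]; ring
      _ ≤ _ := div_le_div_of_nonneg_right (pow_le_pow_left₀ (by positivity) k3 i) (by positivity)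
  refine mul_le_mul ?_ a3 (by positivity) (by positivity)
  rw [← mul_assoc]
  refine (mul_le_mul a2 a1 (by positivity) (by positivity)).trans_eq ?_
  rw [mul_pow]; ring

end CAV

open CAV in
theorem rowCAV : RowCAV := by
  refine ⟨12 * Real.exp 6, by positivity, fun V _ _ h M P H hM hP hH => ?_⟩
  have := nonempty_of_two h
  have h2 : (2 : ℝ) ≤ Fintype.card V := by exact_mod_cast h
  have h1 : (0 : ℝ) < (Fintype.card V : ℝ) - 1 := by linarith
  simp only [yg, ← av_mul_left, EL_av, ← av_sum]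
  refine av_le fun v => ?_
  have s1 : ∑ m ∈ range M, EL m (fun l : List (Pr V) =>
      ind ((hr l).Nonempty ∧ P (hr l)) * ind (par (hr l) v ∧ ¬ tri l v)) ≤
      ∑ D ∈ (univ : Finset V).powerset, ∑ m ∈ range M, g P v D m D Set.univ U := by
    rw [sum_comm]
    refine sum_le_sum fun m _ => ?_
    simp only [g, ← EL_sum]
    refine EL_mono _ fun l => ?_
    rw [← ind_and]
    exact (ind_mono fun a => G_start hP a.1 a.2).trans (ind_exists_le _ _)
  refine s1.trans ?_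
  let Φ : ℕ → ℝ := fun d => (2 / (Fintype.card V * (Fintype.card V - 1)) * M) ^ d *
    (1 + d * (2 / (Fintype.card V * (Fintype.card V - 1)))) ^ M *
      W P (2 * d / (Fintype.card V - 1)) M Set.univ U
  refine (sum_le_sum (g := fun D : Finset V => Φ D.card)
    fun D _ => main_ind h P v D rfl rfl M D subset_rfl _ _).trans ?_
  rw [sum_powerset_apply_card, card_univ]
  refine sum_le_sum fun d _ => ?_
  simp only [Φ, W, nsmul_eq_mul, mul_sum]
  refine sum_le_sum fun i _ => ?_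
  have c := consts (d := d) (i := i) h hM
  have f0 := F_nonneg P M i Set.univ (U : Lst V)
  refine le_trans (le_of_eq ?_) (mul_le_mul c (hH i) f0 (by positivity))
  unfold F; ring

end Pool.Agent.MP_81f5b7_pr.H42
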