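import Pool.Agent.MP_81f5b7_pr.H42.Spec

/-! Chebyshev inequalities for a tail sequence and for the binomial law. -/

set_option autoImplicit false

namespace Pool.Agent.MP_81f5b7_pr.H42

open Finset Filter

namespace CHE

theorem abel_ge (p ψ : ℕ → ℝ) (h1 : ∀ i, p i ≤ 1) (ha : Antitone p) (hψ : ∀ j, 0 ≤ ψ j)
    (M : ℕ) : ψ M * p M ≤ ψ 0 + ∑ i ∈ range M, (ψ (i + 1) - ψ i) * p i := by
  induction M with
  | zero =>
    have := mul_le_mul_of_nonneg_left (h1 0) (hψ 0)
    simpa using this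
  | succ M ih =>
    rw [sum_range_succ]
    have h2 : ψ (M + 1) * p (M + 1) ≤ ψ (M + 1) * p M :=
      mul_le_mul_of_nonneg_left (ha (Nat.le_succ M)) (hψ _)
    nlinarith

theorem abel_nonneg (p ψ : ℕ → ℝ) (h0 : ∀ i, 0 ≤ p i) (h1 : ∀ i, p i ≤ 1) (ha : Antitone p)
    (hψ : ∀ j, 0 ≤ ψ j) (M : ℕ) : 0 ≤ ψ 0 + ∑ i ∈ range M, (ψ (i + 1) - ψ i) * p i :=
  le_trans (mul_nonneg (hψ M) (h0 M)) (abel_ge p ψ h1 ha hψ M)

theorem var_eq (p : ℕ → ℝ) (M : ℕ) (μ : ℝ) :
    ∑ i ∈ range M, ((((i + 1 : ℕ) : ℝ) - μ) ^ 2 - ((i : ℝ) - μ) ^ 2) * p i =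
      ∑ i ∈ range M, (2 * (i : ℝ) + 1) * p i - 2 * μ * ∑ i ∈ range M, p i := by
  rw [mul_sum, ← sum_sub_distrib]
  refine sum_congr rfl fun i _ => ?_
  push_cast
  ring

theorem step_sum (p : ℕ → ℝ) (M m : ℕ) (hm : m < M) (c : ℝ) :
    ∑ i ∈ range M, ((if m < i + 1 then c else 0) - (if m < i then c else 0)) * p i = c * p m := by
  rw [sum_eq_single m]
  · simp
  · intro i _ hi
    by_cases h : m < i
    · have h' : m < i + 1 := by omega
      simp [h, h']
    · have h' : ¬ m < i + 1 := by omega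
      simp [h, h']
  · intro h
    exact absurd (mem_range.mpr hm) h

theorem bin_sum (θ : ℝ) (m : ℕ) :
    ∑ k ∈ range (m + 1), (m.choose k : ℝ) * θ ^ k * (1 - θ) ^ (m - k) = 1 := by
  have h := congrArg (Polynomial.eval θ) (bernsteinPolynomial.sum ℝ m)
  simpa [Polynomial.eval_finsetSum, bernsteinPolynomial] using h

theorem bin_var (θ : ℝ) (m : ℕ) :
    ∑ k ∈ range (m + 1), ((m : ℝ) * θ - k) ^ 2 *
      ((m.choose k : ℝ) * θ ^ k * (1 - θ) ^ (m - k)) = m * θ * (1 - θ) := by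
  have h := congrArg (Polynomial.eval θ) (bernsteinPolynomial.variance ℝ m)
  simpa [Polynomial.eval_finsetSum, bernsteinPolynomial] using h

end CHE

theorem rowCHE : RowCHE := by
  intro p M m W D h0 h1 ha hD hW
  set μ := ∑ i ∈ range M, p i with hμ
  have hD2 : 0 < D ^ 2 := by positivity
  have hμM : μ ≤ M := by
    have : ∑ i ∈ range M, p i ≤ ∑ _i ∈ range M, (1 : ℝ) := sum_le_sum fun i _ => h1 i
    simpa using this
  constructor
  · intro hm
    have hmM : m < M := by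
      have : (m : ℝ) < M := by linarith
      exact_mod_cast this
    have key := CHE.abel_nonneg p
      (fun j => ((j : ℝ) - μ) ^ 2 - D ^ 2 + (if m < j then D ^ 2 else 0)) h0 h1 ha (by
        intro j
        by_cases h : m < j
        · simp only [h, if_true]
          nlinarith [sq_nonneg ((j : ℝ) - μ)]
        · simp only [h, if_false]
          have hj : (j : ℝ) ≤ m := by exact_mod_cast (not_lt.mp h)
          nlinarith) M
    have e : ∑ i ∈ range M, (((((i + 1 : ℕ) : ℝ) - μ) ^ 2 - D ^ 2 +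
        (if m < i + 1 then D ^ 2 else 0)) -
        (((i : ℝ) - μ) ^ 2 - D ^ 2 + (if m < i then D ^ 2 else 0))) * p i =
        (∑ i ∈ range M, (2 * (i : ℝ) + 1) * p i - 2 * μ * μ) + D ^ 2 * p m := by
      rw [← CHE.step_sum p M m hmM (D ^ 2), hμ, ← CHE.var_eq p M, ← sum_add_distrib]
      refine sum_congr rfl fun i _ => ?_
      ring
    rw [e] at key
    simp only [Nat.not_lt_zero, if_false, Nat.cast_zero] at key
    have h3 : D ^ 2 * (1 - p m) ≤ W := by nlinarith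
    have h4 : 1 - p m ≤ W / D ^ 2 := by
      rw [le_div_iff₀ hD2]
      linarith
    linarith
  · intro hmM hm
    have key := CHE.abel_nonneg p
      (fun j => ((j : ℝ) - μ) ^ 2 + (if m < j then - D ^ 2 else 0)) h0 h1 ha (by
        intro j
        by_cases h : m < j
        · simp only [h, if_true]
          have hj : (m : ℝ) ≤ j := by exact_mod_cast h.le
          nlinarith
        · simp only [h, if_false]
          nlinarith [sq_nonneg ((j : ℝ) - μ)]) M
    have e : ∑ i ∈ range M, (((((i + 1 : ℕ) : ℝ) - μ) ^ 2 +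
        (if m < i + 1 then - D ^ 2 else 0)) -
        (((i : ℝ) - μ) ^ 2 + (if m < i then - D ^ 2 else 0))) * p i =
        (∑ i ∈ range M, (2 * (i : ℝ) + 1) * p i - 2 * μ * μ) + (- D ^ 2) * p m := by
      rw [← CHE.step_sum p M m hmM (- D ^ 2), hμ, ← CHE.var_eq p M, ← sum_add_distrib]
      refine sum_congr rfl fun i _ => ?_
      ring
    rw [e] at key
    simp only [Nat.not_lt_zero, if_false, Nat.cast_zero] at key
    rw [le_div_iff₀ hD2]
    nlinarith

theorem rowBIN : RowBIN := by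
  intro θ D m k₁ k₂ f g h0 h1 hD hf hg af ag hk₁ hk₂
  have hD2 : 0 < D ^ 2 := by positivity
  have hfg : 0 ≤ f k₁ * g k₂ := mul_nonneg (hf _) (hg _)
  have h1' : 0 ≤ 1 - θ := by linarith
  have pt : ∀ k ∈ range (m + 1),
      (1 - ((m : ℝ) * θ - k) ^ 2 / D ^ 2) * (f k₁ * g k₂) ≤ f k * g (m - k) := by
    intro k hk
    have hkm : k ≤ m := Nat.lt_succ_iff.mp (mem_range.mp hk)
    by_cases h : D ^ 2 ≤ ((m : ℝ) * θ - k) ^ 2
    · have : 1 ≤ ((m : ℝ) * θ - k) ^ 2 / D ^ 2 := by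
        rw [le_div_iff₀ hD2]
        linarith
      have h5 : 0 ≤ f k * g (m - k) := mul_nonneg (hf _) (hg _)
      nlinarith
    · have hlt : |(m : ℝ) * θ - k| < D := by
        apply abs_lt_of_sq_lt_sq (not_le.mp h) hD.le
      have ⟨l1, l2⟩ := abs_lt.mp hlt
      have a1 : k ≤ k₁ := by
        have : (k : ℝ) ≤ k₁ := by linarith
        exact_mod_cast this
      have a2 : m - k ≤ k₂ := by
        have : ((m - k : ℕ) : ℝ) ≤ k₂ := by
          rw [Nat.cast_sub hkm]
          linarith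
        exact_mod_cast this
      have h6 : f k₁ * g k₂ ≤ f k * g (m - k) := mul_le_mul (af a1) (ag a2) (hg _) (hf _)
      have h7 : 0 ≤ ((m : ℝ) * θ - k) ^ 2 / D ^ 2 := by positivity
      nlinarith
  have hsum : ∑ k ∈ range (m + 1), (m.choose k : ℝ) * θ ^ k * (1 - θ) ^ (m - k) *
      ((1 - ((m : ℝ) * θ - k) ^ 2 / D ^ 2) * (f k₁ * g k₂)) =
      (1 - m * θ * (1 - θ) / D ^ 2) * (f k₁ * g k₂) := by
    have e : ∀ k ∈ range (m + 1), (m.choose k : ℝ) * θ ^ k * (1 - θ) ^ (m - k) *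
        ((1 - ((m : ℝ) * θ - k) ^ 2 / D ^ 2) * (f k₁ * g k₂)) =
        (m.choose k : ℝ) * θ ^ k * (1 - θ) ^ (m - k) * (f k₁ * g k₂) -
          ((m : ℝ) * θ - k) ^ 2 * ((m.choose k : ℝ) * θ ^ k * (1 - θ) ^ (m - k)) *
            (f k₁ * g k₂ / D ^ 2) := by
      intro k _
      ring
    rw [sum_congr rfl e, sum_sub_distrib, ← sum_mul, ← sum_mul, CHE.bin_sum, CHE.bin_var]
    ring
  have hle : (m : ℝ) * θ * (1 - θ) / D ^ 2 ≤ m / D ^ 2 := by
    apply div_le_div_of_nonneg_right _ hD2.le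
    have hm : (0 : ℝ) ≤ m := Nat.cast_nonneg m
    have : θ * (1 - θ) ≤ 1 := by nlinarith
    nlinarith
  calc (1 - m / D ^ 2) * (f k₁ * g k₂)
      ≤ (1 - m * θ * (1 - θ) / D ^ 2) * (f k₁ * g k₂) :=
        mul_le_mul_of_nonneg_right (by linarith) hfg
    _ = _ := hsum.symm
    _ ≤ _ := by
        refine sum_le_sum fun k hk => ?_
        exact mul_le_mul_of_nonneg_left (pt k hk) (by positivity)

end Pool.Agent.MP_81f5b7_pr.H42
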