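import Pool.Agent.MP_81f5b7_pr.H42.Kit

/-! The first moment bound. -/

set_option autoImplicit false

namespace Pool.Agent.MP_81f5b7_pr.H42

open Finset Filter

namespace FM

variable {V : Type} [Fintype V] [DecidableEq V]

omit [DecidableEq V] in
theorem pairs (σ : V → Fin 3) :
    ∑ x, ∑ y, ind (σ x ≠ σ y) ≤ 2 / 3 * (Fintype.card V : ℝ) ^ 2 := by
  have e : ∀ x y, ind (σ x ≠ σ y) = 1 - ∑ c, ind (σ x = c) * ind (σ y = c) := fun x y => by
    rw [sum_eq_single (σ x) (fun c _ hc => by rw [ind_neg (Ne.symm hc), zero_mul]) (by simp),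
      ind_pos rfl, one_mul, ind_not, ind_congr eq_comm]
  have h1 : ∑ c, ∑ x, ind (σ x = c) = Fintype.card V := by
    rw [sum_comm]
    have : ∀ x, ∑ c, ind (σ x = c) = 1 := fun x => by
      rw [sum_eq_single (σ x) (fun c _ hc => ind_neg (Ne.symm hc)) (by simp), ind_pos rfl]
    simp [this]
  have h2 : ∑ x, ∑ y, ∑ c, ind (σ x = c) * ind (σ y = c) = ∑ c, (∑ x, ind (σ x = c)) ^ 2 := by
    simp only [sq, sum_mul_sum]
    rw [sum_comm (s := (univ : Finset (Fin 3)))]
    exact sum_congr rfl fun x _ => sum_comm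
  simp only [e, sum_sub_distrib, h2, sum_const, card_univ, nsmul_eq_mul, mul_one]
  rw [Fin.sum_univ_three] at h1 ⊢
  rw [← h1]
  nlinarith [sq_nonneg (∑ x, ind (σ x = 0) - ∑ x, ind (σ x = 1)),
    sq_nonneg (∑ x, ind (σ x = 0) - ∑ x, ind (σ x = 2)),
    sq_nonneg (∑ x, ind (σ x = 1) - ∑ x, ind (σ x = 2))]

theorem step (h : 100 ≤ Fintype.card V) (σ : V → Fin 3) :
    (av fun e : Pr V => ind (σ e.1.1 ≠ σ e.1.2)) ≤ 17 / 25 := by
  have h0 : (100 : ℝ) ≤ Fintype.card V := by exact_mod_cast h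
  rw [av_Pr (fun x y => ind (σ x ≠ σ y)), div_le_iff₀ (by nlinarith)]
  have h1 : 0 ≤ ∑ x, ind (σ x ≠ σ x) := sum_nonneg fun _ _ => ind_nonneg _
  nlinarith [pairs σ]

theorem single (h : 100 ≤ Fintype.card V) (σ : V → Fin 3) (m : ℕ) :
    al m ({σ} : St V) ≤ (17 / 25) ^ m := by
  induction m with
  | zero => exact chi_le_one _
  | succ m ih =>
    rw [al_succ]
    have : ∀ e : Pr V, al m (hs {σ} e) ≤ ind (σ e.1.1 ≠ σ e.1.2) * (17 / 25) ^ m := fun e => by
      by_cases he : σ e.1.1 ≠ σ e.1.2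
      · rw [ind_pos he, one_mul]
        exact (al_mono m (hs_subset _ _)).trans ih
      · have : hs ({σ} : St V) e = ∅ :=
          Set.eq_empty_of_forall_notMem fun τ hτ => he (hτ.1 ▸ hτ.2)
        rw [this, al_empty, ind_neg he, zero_mul]
    refine (av_mono this).trans ?_
    rw [av_mul_right, pow_succ']
    exact mul_le_mul_of_nonneg_right (step h σ) (by positivity)

theorem bound {n : ℕ} (h : 100 ≤ n) : pp n (3 * n) ≤ (3 * (17 / 25) ^ 3) ^ n := by
  have h1 := al_cover (V := Fin n) (3 * n) univ (fun σ => {σ}) (S := Set.univ)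
    fun σ _ => ⟨σ, mem_univ _, rfl⟩
  refine h1.trans ((sum_le_sum fun σ _ => single (by simpa using h) σ _).trans_eq ?_)
  simp [mul_pow, pow_mul]

end FM

theorem rowFM : RowFM := by
  refine squeeze_zero' (Eventually.of_forall fun n => pp_nonneg _ _)
    ((eventually_ge_atTop 100).mono fun n hn => FM.bound hn) ?_
  exact tendsto_pow_atTop_nhds_zero_of_lt_one (by norm_num) (by norm_num)

end Pool.Agent.MP_81f5b7_pr.H42
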