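import Pool.Agent.MP_81f5b7_pr.H42.Rho

/-! Rows LA and LB: one colour left, two colours left. -/

set_option autoImplicit false
set_option linter.style.haveILetI false

namespace Pool.Agent.MP_81f5b7_pr.H42

open Finset

namespace LA

theorem exists_step (r : ℕ → ℝ) (j : ℕ) (hj : 0 < j) {u : ℝ} (h0 : r 0 = 0) (hu : u ≤ r j) :
    ∃ i < j, u / j ≤ r (i + 1) - r i := by
  by_contra hn
  push Not at hn
  have hj' : (0 : ℝ) < j := by exact_mod_cast hj
  have h1 : ∑ i ∈ range j, (r (i + 1) - r i) < ∑ _i ∈ range j, u / j :=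
    sum_lt_sum_of_nonempty (nonempty_range_iff.2 hj.ne') fun i hi => hn i (mem_range.1 hi)
  rw [sum_range_sub, sum_const, card_range, nsmul_eq_mul, h0, mul_div_cancel₀ _ hj'.ne'] at h1
  linarith

theorem cube_le (j : ℕ) : (j : ℝ) ^ 3 ≤ 32 ^ j := by
  have h1 : (j : ℝ) ≤ 2 ^ j := by exact_mod_cast (Nat.lt_two_pow_self (n := j)).le
  calc (j : ℝ) ^ 3 ≤ (2 ^ j) ^ 3 := pow_le_pow_left₀ (Nat.cast_nonneg _) h1 3
    _ = 8 ^ j := by rw [← pow_mul, mul_comm, pow_mul]; norm_num
    _ ≤ 32 ^ j := pow_le_pow_left₀ (by norm_num) (by norm_num) j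

theorem two_mul_le (j : ℕ) : 2 * (j : ℝ) ≤ 8 ^ (j + 1) := by
  have h1 : (j : ℝ) ≤ 2 ^ j := by exact_mod_cast (Nat.lt_two_pow_self (n := j)).le
  have h2 : (2 : ℝ) ^ j ≤ 8 ^ j := pow_le_pow_left₀ (by norm_num) (by norm_num) j
  have h3 : (0 : ℝ) ≤ 8 ^ j := by positivity
  rw [pow_succ]; linarith

end LA

theorem rowLA : RowLA := by
  intro V _ _ h Q j u S M hQ hu hn hS
  haveI := nonempty_of_two h
  haveI := nonempty_Pr h
  have hz0 : ∀ T : St V, T.Nonempty → rho T Q 0 = 0 := fun T hT =>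
    rho_eq_zero hT.some_mem (card_pos.2 (hQ _))
  rw [life_eq_cnt M (P := fun T => u ≤ rho T Q j)
    (fun S T hT h1 => h1.trans (rho_mono hT Q j)) hS]
  rcases Nat.eq_zero_or_pos j with rfl | hj
  · rw [cnt_eq_zero M fun T hT h1 => by rw [hz0 T hT] at h1; linarith]
    simp
  have hj' : (0 : ℝ) < j := by exact_mod_cast hj
  have key := cnt_potential h (P := fun T => u ≤ rho T Q j)
    (Φ := fun T => ∑ i ∈ range j, rho T Q i) (B := j) (γ := (u / j) ^ 2 / 2) (by positivity)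
    (fun T => sum_nonneg fun i _ => rho_nonneg T Q i)
    (fun T => by
      have := sum_le_sum (s := range j) fun i _ => rho_le_one T Q i
      simpa using this)
    (fun T e => sum_le_sum fun i _ => rho_mono (hs_subset T e) Q i)
    (fun T hT h1 => by
      obtain ⟨i, hi, hd⟩ := LA.exists_step (rho T Q) j hj (hz0 T hT) h1
      have h2 : 2 ≤ u / j * Fintype.card V := by
        rw [div_mul_eq_mul_div, le_div_iff₀ hj']; exact hn
      have h3 := drift_half h T Q i h2 hd
      have h4 := rho_step h T Q i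
      rw [av_sum (range j) fun i (e : Pr V) => rho (hs T e) Q i,
        ← add_sum_erase _ _ (mem_range.2 hi), ← add_sum_erase (range j) _ (mem_range.2 hi)]
      have h5 : ∑ k ∈ (range j).erase i, rho T Q k ≤
          ∑ k ∈ (range j).erase i, av fun e : Pr V => rho (hs T e) Q k :=
        sum_le_sum fun k _ => le_av fun e => rho_mono (hs_subset T e) Q k
      linarith) M S
  refine key.trans_eq ?_
  field_simp

theorem rowLB (hA : RowLA) : RowLB := by
  intro V _ _ h Q j s S M hQ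
  haveI := nonempty_of_two h
  haveI := nonempty_Pr h
  induction j generalizing s with
  | zero =>
    intro hs0 _
    rw [cnt_eq_zero M fun T hT h1 => by
      rw [rho_eq_zero hT.some_mem (lt_of_lt_of_le (by norm_num) (hQ _))] at h1
      linarith [pow_pos hs0 3]]
    positivity
  | succ j ih =>
    intro hs0 hn
    rcases lt_or_ge 1 s with h1 | h1
    · rw [cnt_eq_zero M fun T _ h2 => by
        linarith [rho_le_one T Q (j + 1), one_lt_pow₀ h1 (by norm_num : 3 ≠ 0)]]
      positivity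
    have hN : (0 : ℝ) ≤ Fintype.card V := Nat.cast_nonneg _
    have hs4 : 0 < s ^ 4 := by positivity
    have hs3 : 0 < s ^ 3 := by positivity
    have hs2 : 0 < s ^ 2 := by positivity
    have h32 : s ^ 3 ≤ s ^ 2 := pow_le_pow_of_le_one hs0.le h1 (by norm_num)
    have h8 : (1 : ℝ) ≤ 8 ^ j := one_le_pow₀ (by norm_num)
    have c1 : cnt M (fun T => (s / 2) ^ 3 ≤ rho T Q j) S ≤ 16 * 32 ^ j / s ^ 4 := by
      refine (ih (s / 2) (by positivity) ?_).trans_eq ?_
      · rw [pow_succ] at hn; rw [div_pow]; linarith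
      · field_simp; norm_num
    have c2 : cnt M (fun T => ∃ x, s ^ 2 ≤ rho T (er Q x) j) S ≤ 2 * (j : ℝ) ^ 3 / s ^ 4 := by
      refine first_hit h (by positivity) M (fun T _ hx M' _ => ?_) S
      obtain ⟨x, hx⟩ := hx
      refine (hA V h (er Q x) j (s ^ 2) T M' (fun σ => card_pos.1 ?_) hs2 ?_ hx).trans_eq ?_
      · have := card_er_ge Q x σ
        have := hQ σ
        omega
      · have := LA.two_mul_le j
        nlinarith [mul_le_mul_of_nonneg_left h32 hN]
      · ring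
    have c3 : cnt M (fun T => s ^ 3 ≤ rho T Q (j + 1) ∧ ¬ (s / 2) ^ 3 ≤ rho T Q j ∧
        ¬ ∃ x, s ^ 2 ≤ rho T (er Q x) j) S ≤ 6 / s ^ 4 := by
      refine (cnt_potential h (Φ := fun T => min (rho T Q j) (2 * s ^ 2)) (B := 2 * s ^ 2)
        (γ := (7 / 8 * s ^ 3) ^ 2 / 2) (by positivity)
        (fun T => le_min (rho_nonneg T Q j) (by positivity)) (fun T => min_le_right _ _)
        (fun T e => min_le_min_right _ (rho_mono (hs_subset T e) Q j))
        (fun T _ hT => ?_) M S).trans ?_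
      · obtain ⟨ha, hb, hc⟩ := hT
        push Not at hb hc
        rw [div_pow] at hb
        have h2 : 2 ≤ 7 / 8 * s ^ 3 * Fintype.card V := by
          rw [pow_succ] at hn; nlinarith
        have h3 := drift_half h T Q j h2 (by linarith)
        have h4 := rho_step_cap h T Q j (B := s ^ 2) (by linarith) fun x => (hc x).le
        linarith
      · rw [div_le_div_iff₀ (by positivity) hs4]
        have : 0 < s ^ 6 := by positivity
        nlinarith
    have c4 : cnt M (fun T => s ^ 3 ≤ rho T Q (j + 1)) S ≤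
        cnt M (fun T => (s / 2) ^ 3 ≤ rho T Q j ∨ ((∃ x, s ^ 2 ≤ rho T (er Q x) j) ∨
          (s ^ 3 ≤ rho T Q (j + 1) ∧ ¬ (s / 2) ^ 3 ≤ rho T Q j ∧
            ¬ ∃ x, s ^ 2 ≤ rho T (er Q x) j))) S := cnt_mono M (fun T _ hT => by tauto) S
    have c5 := cnt_or M (fun T => (s / 2) ^ 3 ≤ rho T Q j)
      (fun T => (∃ x, s ^ 2 ≤ rho T (er Q x) j) ∨
          (s ^ 3 ≤ rho T Q (j + 1) ∧ ¬ (s / 2) ^ 3 ≤ rho T Q j ∧
            ¬ ∃ x, s ^ 2 ≤ rho T (er Q x) j)) S
    have c6 := cnt_or M (fun T => ∃ x, s ^ 2 ≤ rho T (er Q x) j)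
      (fun T => s ^ 3 ≤ rho T Q (j + 1) ∧ ¬ (s / 2) ^ 3 ≤ rho T Q j ∧
            ¬ ∃ x, s ^ 2 ≤ rho T (er Q x) j) S
    have c7 : 16 * 32 ^ j / s ^ 4 + (2 * (j : ℝ) ^ 3 / s ^ 4 + 6 / s ^ 4) ≤
        32 ^ (j + 1) / s ^ 4 := by
      rw [← add_div, ← add_div]
      refine div_le_div_of_nonneg_right ?_ hs4.le
      have := LA.cube_le j
      have h9 : (1 : ℝ) ≤ 32 ^ j := one_le_pow₀ (by norm_num)
      rw [pow_succ (32 : ℝ) j]; linarith
    linarith

end Pool.Agent.MP_81f5b7_pr.H42
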