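import Pool.Agent.MP_81f5b7_pr.H42.Rho

/-! Lemma C (three colours) and the dyadic layers. -/

set_option autoImplicit false
set_option linter.style.haveILetI false

namespace Pool.Agent.MP_81f5b7_pr.H42

open Finset Filter

namespace LC

theorem low {V : Type} [Fintype V] [DecidableEq V] {k : ℕ} (hk : k < 3) {t : ℝ} (ht : 0 < t)
    (S : St V) (M : ℕ) : cnt M (fun T => t ^ 29 ≤ rho T U k) S = 0 :=
  cnt_eq_zero M (fun T hT h => by
    obtain ⟨σ, hσ⟩ := hT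
    rw [rho_eq_zero hσ (by rw [card_U]; exact hk)] at h
    exact absurd h (not_le.2 (pow_pos ht 29))) S

theorem num (k : ℕ) : (2 : ℝ) ^ 28 * (2 ^ 30) ^ (k + 1) + (32 ^ (k + 1) +
    (32 + 20000 * ((k : ℝ) + 1) ^ 3)) ≤ (2 ^ 30) ^ (k + 2) := by
  have h1 : (32 : ℝ) ^ (k + 1) ≤ (2 ^ 30) ^ (k + 1) :=
    pow_le_pow_left₀ (by norm_num) (by norm_num) _
  have h2 : (32 : ℝ) ≤ 32 ^ (k + 1) := le_self_pow₀ (by norm_num) (by omega)
  have h3 : ((k : ℝ) + 1) ≤ 2 ^ (k + 1) := by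
    have : k + 1 < 2 ^ (k + 1) := Nat.lt_two_pow_self
    exact_mod_cast this.le
  have h4 : ((k : ℝ) + 1) ^ 3 ≤ (2 ^ 30) ^ (k + 1) := by
    calc ((k : ℝ) + 1) ^ 3 ≤ (2 ^ (k + 1)) ^ 3 := pow_le_pow_left₀ (by positivity) h3 3
      _ = (2 ^ 3) ^ (k + 1) := by rw [← pow_mul, ← pow_mul, mul_comm]
      _ ≤ (2 ^ 30) ^ (k + 1) := pow_le_pow_left₀ (by norm_num) (by norm_num) _
  have h5 : ((2 : ℝ) ^ 30) ^ (k + 2) = 2 ^ 30 * (2 ^ 30) ^ (k + 1) := by rw [pow_succ']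
  have h6 : (0 : ℝ) ≤ (2 ^ 30) ^ (k + 1) := by positivity
  rw [h5]
  generalize ((2 : ℝ) ^ 30) ^ (k + 1) = A at *
  norm_num at *
  linarith

end LC

theorem rowLC (hB : RowLB) (hA : RowANC) : RowLC := by
  intro V _ _ hV k
  induction k using Nat.strong_induction_on with
  | _ k ih =>
  intro t S M ht ht1 hM
  have h28 : 0 < t ^ 28 := pow_pos ht 28
  rcases lt_or_ge k 2 with hk | hk
  · rw [LC.low (by omega) ht]; positivity
  obtain ⟨k, rfl⟩ : ∃ j, k = j + 2 := ⟨k - 2, by omega⟩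
  have h2821 : t ^ 28 ≤ t ^ 21 := pow_le_pow_of_le_one ht.le ht1 (by norm_num)
  rcases lt_or_ge ((Fintype.card V : ℝ) * t ^ 21) (8 ^ (k + 2)) with hn | hn
  · have h1 : cnt M (fun T => t ^ 29 ≤ rho T U (k + 2)) S ≤ 3 * (Fintype.card V : ℝ) := by
      refine ((cnt_le_life _ _ _).trans (life_le hV M S)).trans ?_
      exact_mod_cast hM
    refine h1.trans ?_
    rw [le_div_iff₀ h28]
    have h2 : (3 : ℝ) * 8 ^ (k + 2) ≤ (2 ^ 30) ^ (k + 2) := by
      calc (3 : ℝ) * 8 ^ (k + 2) ≤ 3 ^ (k + 2) * 8 ^ (k + 2) :=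
            mul_le_mul_of_nonneg_right (le_self_pow₀ (by norm_num) (by omega)) (by positivity)
        _ = (3 * 8) ^ (k + 2) := by rw [mul_pow]
        _ ≤ (2 ^ 30) ^ (k + 2) := pow_le_pow_left₀ (by norm_num) (by norm_num) _
    have h3 : (Fintype.card V : ℝ) * t ^ 28 ≤ Fintype.card V * t ^ 21 :=
      mul_le_mul_of_nonneg_left h2821 (Nat.cast_nonneg _)
    linarith
  have hhalf : (t / 2) ^ 29 ≤ t ^ 21 :=
    (pow_le_pow_left₀ (by positivity) (by linarith) 29).trans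
      (pow_le_pow_of_le_one ht.le ht1 (by norm_num))
  have c1 : cnt M (fun T => (t / 2) ^ 29 ≤ rho T U (k + 1)) S ≤
      2 ^ 28 * (2 ^ 30) ^ (k + 1) / t ^ 28 := by
    refine (ih (k + 1) (by omega) (t / 2) S M (by positivity) (by linarith) hM).trans_eq ?_
    field_simp
  have c2 : cnt M (fun T => ∃ x, t ^ 21 ≤ rho T (er U x) (k + 1)) S ≤ 32 ^ (k + 1) / t ^ 28 := by
    refine first_hit hV (by positivity) M (fun T _ hT M' _ => ?_) S
    obtain ⟨x, hx⟩ := hT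
    have e3 : (t ^ 7) ^ 3 = t ^ 21 := by ring
    have e4 : (t ^ 7) ^ 4 = t ^ 28 := by ring
    have h1 := hB V hV (er U x) (k + 1) (t ^ 7) T M'
      (fun σ => by have := card_er_ge U x σ; rw [card_U] at this; omega) (by positivity)
      (by
        rw [e3]
        exact (pow_le_pow_right₀ (by norm_num) (by omega)).trans hn)
    rw [e3, e4] at h1
    rw [life_eq_cnt M' (P := fun T => t ^ 21 ≤ rho T (er U x) (k + 1))
      (fun S T h hS => hS.trans (rho_mono h _ _)) hx]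
    exact h1
  have c3 : cnt M (fun T => rho T U (k + 1) ≤ t ^ 21 ∧ (∀ x, rho T (er U x) (k + 1) ≤ t ^ 21) ∧
      t ^ 49 / 16 ≤ av fun e : Pr V => JJ T U (k + 1) e.1.1 e.1.2) S ≤ 32 / t ^ 28 := by
    refine (cnt_potential hV (Φ := fun T => min (rho T U (k + 1)) (2 * t ^ 21)) (B := 2 * t ^ 21)
      (γ := t ^ 49 / 16) (by positivity)
      (fun T => le_min (rho_nonneg _ _ _) (by positivity)) (fun T => min_le_right _ _)
      (fun T e => min_le_min (rho_mono (hs_subset T e) _ _) le_rfl)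
      (fun T _ hT => ?_) M S).trans_eq ?_
    · have := rho_step_cap hV T U (k + 1) hT.1 hT.2.1
      linarith [hT.2.2]
    · field_simp; norm_num
  have c4 : cnt M (fun T => t ^ 29 ≤ rho T U (k + 2) ∧ rho T U (k + 1) ≤ (t / 2) ^ 29 ∧
      (av fun e : Pr V => JJ T U (k + 1) e.1.1 e.1.2) ≤ t ^ 49 / 16) S ≤
      20000 * ((k : ℝ) + 1) ^ 3 / t ^ 28 :=
    first_hit hV (by positivity) M
      (fun T _ hT M' _ => hA V hV k t T M' ht ht1 hn hT.1 hT.2.1 hT.2.2) S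
  have c : cnt M (fun T => t ^ 29 ≤ rho T U (k + 2)) S ≤
      cnt M (fun T => (t / 2) ^ 29 ≤ rho T U (k + 1) ∨ ((∃ x, t ^ 21 ≤ rho T (er U x) (k + 1)) ∨
        ((rho T U (k + 1) ≤ t ^ 21 ∧ (∀ x, rho T (er U x) (k + 1) ≤ t ^ 21) ∧
          t ^ 49 / 16 ≤ av fun e : Pr V => JJ T U (k + 1) e.1.1 e.1.2) ∨
        (t ^ 29 ≤ rho T U (k + 2) ∧ rho T U (k + 1) ≤ (t / 2) ^ 29 ∧
          (av fun e : Pr V => JJ T U (k + 1) e.1.1 e.1.2) ≤ t ^ 49 / 16)))) S := by
    refine cnt_mono M (fun T _ hT => ?_) S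
    rcases le_total ((t / 2) ^ 29) (rho T U (k + 1)) with h1 | h1
    · exact Or.inl h1
    by_cases h2 : ∃ x, t ^ 21 ≤ rho T (er U x) (k + 1)
    · exact Or.inr (Or.inl h2)
    rcases le_total (t ^ 49 / 16) (av fun e : Pr V => JJ T U (k + 1) e.1.1 e.1.2) with h3 | h3
    · exact Or.inr (Or.inr (Or.inl ⟨h1.trans hhalf,
        fun x => (not_le.1 fun h => h2 ⟨x, h⟩).le, h3⟩))
    · exact Or.inr (Or.inr (Or.inr ⟨hT, h1, h3⟩))
  refine c.trans ((cnt_or M _ _ S).trans ((add_le_add c1 ((cnt_or M _ _ S).trans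
    (add_le_add c2 ((cnt_or M _ _ S).trans (add_le_add c3 c4))))).trans ?_))
  rw [← add_div, ← add_div, ← add_div]
  exact div_le_div_of_nonneg_right (LC.num k) h28.le

theorem rowLAY (hC : RowLC) : RowLAY := by
  intro V _ _ hV k s S M hs0 hs1 hM
  haveI := nonempty_Pr hV
  have key : ∀ (i : ℕ) (s : ℝ), 0 < s → s ≤ 1 →
      sm hs M (fun T => ind (T.Nonempty ∧ rho T U k ≤ s ^ 29) * rho T U k) S ≤
        2 ^ 29 * (2 ^ 30) ^ k * s + M * s * (1 / 2) ^ i := by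
    intro i
    induction i with
    | zero =>
      intro s h0 h1
      have h2 : sm hs M (fun T => ind (T.Nonempty ∧ rho T U k ≤ s ^ 29) * rho T U k) S ≤ M * s := by
        refine sm_le hs M (fun T => ?_) S
        by_cases hT : T.Nonempty ∧ rho T U k ≤ s ^ 29
        · rw [ind_pos hT, one_mul]
          exact hT.2.trans (pow_le_of_le_one h0.le h1 (by norm_num))
        · rw [ind_neg hT, zero_mul]; exact h0.le
      have h3 : (0 : ℝ) ≤ 2 ^ 29 * (2 ^ 30) ^ k * s := by positivity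
      rw [pow_zero, mul_one]; linarith
    | succ i ih =>
      intro s h0 h1
      have h2 := ih (s / 2) (by positivity) (by linarith)
      have h3 := hC V hV k (s / 2) S M (by positivity) (by linarith) hM
      have h4 : sm hs M (fun T => ind (T.Nonempty ∧ rho T U k ≤ s ^ 29) * rho T U k) S ≤
          sm hs M (fun T => s ^ 29 * ind (T.Nonempty ∧ (s / 2) ^ 29 ≤ rho T U k) +
            ind (T.Nonempty ∧ rho T U k ≤ (s / 2) ^ 29) * rho T U k) S := by
        refine sm_mono hs M (fun T => ?_) S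
        have g1 : 0 ≤ s ^ 29 * ind (T.Nonempty ∧ (s / 2) ^ 29 ≤ rho T U k) :=
          mul_nonneg (by positivity) (ind_nonneg _)
        have g2 : 0 ≤ ind (T.Nonempty ∧ rho T U k ≤ (s / 2) ^ 29) * rho T U k :=
          mul_nonneg (ind_nonneg _) (rho_nonneg _ _ _)
        by_cases hT : T.Nonempty ∧ rho T U k ≤ s ^ 29
        · rw [ind_pos hT, one_mul]
          rcases le_total ((s / 2) ^ 29) (rho T U k) with h | h
          · rw [ind_pos (p := T.Nonempty ∧ (s / 2) ^ 29 ≤ rho T U k) ⟨hT.1, h⟩, mul_one]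
            linarith [hT.2]
          · rw [ind_pos (p := T.Nonempty ∧ rho T U k ≤ (s / 2) ^ 29) ⟨hT.1, h⟩, one_mul]
            linarith
        · rw [ind_neg hT, zero_mul]; linarith
      rw [sm_fun_add, sm_mul_left] at h4
      have h5 : s ^ 29 * cnt M (fun T => (s / 2) ^ 29 ≤ rho T U k) S ≤
          s ^ 29 * ((2 ^ 30) ^ k / (s / 2) ^ 28) := mul_le_mul_of_nonneg_left h3 (by positivity)
      have h6 : s ^ 29 * ((2 ^ 30) ^ k / (s / 2) ^ 28) = 2 ^ 28 * (2 ^ 30) ^ k * s := by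
        field_simp
      have h7 : (2 : ℝ) ^ 29 * (2 ^ 30) ^ k * (s / 2) + M * (s / 2) * (1 / 2) ^ i =
          2 ^ 28 * (2 ^ 30) ^ k * s + M * s * (1 / 2) ^ (i + 1) := by ring
      have h8 : (2 : ℝ) ^ 29 * (2 ^ 30) ^ k * s =
          2 ^ 28 * (2 ^ 30) ^ k * s + 2 ^ 28 * (2 ^ 30) ^ k * s := by ring
      unfold cnt at h5
      linarith
  have lim : Tendsto (fun i : ℕ => (2 : ℝ) ^ 29 * (2 ^ 30) ^ k * s + M * s * (1 / 2) ^ i) atTop
      (nhds (2 ^ 29 * (2 ^ 30) ^ k * s + M * s * 0)) :=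
    tendsto_const_nhds.add (tendsto_const_nhds.mul
      (tendsto_pow_atTop_nhds_zero_of_lt_one (by norm_num) (by norm_num)))
  rw [mul_zero, add_zero] at lim
  exact ge_of_tendsto' lim fun i => key i s hs0 hs1

end Pool.Agent.MP_81f5b7_pr.H42
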