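import Pool.Agent.MP_81f5b7_pr.H42.Spec

/-! From independent letters to orderings: double counting. -/

set_option autoImplicit false

namespace Pool.Agent.MP_81f5b7_pr.H42

open Finset Filter

namespace LINK

theorem el_sum {α : Type} [Fintype α] (m : ℕ) (f : List α → ℝ) :
    EL m f = (∑ g : Fin m → α, f (List.ofFn g)) / (Fintype.card α : ℝ) ^ m := by
  induction m generalizing f with
  | zero => simp [EL]
  | succ m ih =>
    have h1 : (∑ g : Fin (m + 1) → α, f (List.ofFn g)) =
        ∑ a : α, ∑ g : Fin m → α, f (a :: List.ofFn g) := by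
      rw [← Fintype.sum_prod_type']
      refine (Fintype.sum_equiv (Fin.consEquiv fun _ : Fin (m + 1) => α) _ _ ?_).symm
      rintro ⟨a, g⟩
      simp [Fin.consEquiv, List.ofFn_succ]
    rw [h1]
    simp only [EL, av, ih]
    rw [← Finset.sum_div, div_div, pow_succ]

theorem card_pair (n : ℕ) : Fintype.card (Pair n) = n.choose 2 := by
  have := Sym2.card_subtype_not_diag (α := Fin n)
  simpa using this

theorem card_pr (n : ℕ) : Fintype.card (Pr (Fin n)) = n * n - n := by
  rw [Fintype.card_subtype]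
  have : (univ.filter fun p : Fin n × Fin n => p.1 ≠ p.2) = (univ : Finset (Fin n)).offDiag := by
    ext p
    simp [Finset.mem_offDiag]
  rw [this, Finset.offDiag_card]
  simp

theorem two_pair (n : ℕ) : 2 * Fintype.card (Pair n) = n * n - n := by
  rw [card_pair, Nat.choose_two_right, Nat.mul_div_cancel' (Nat.even_mul_pred_self n).two_dvd,
    Nat.mul_sub_one]

theorem fibre {n : ℕ} (e : Pair n) :
    2 ≤ (univ.filter fun p : Pr (Fin n) => toPair p = e).card := by
  obtain ⟨e, he⟩ := e
  induction e using Sym2.ind with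
  | h x y =>
    have hxy : x ≠ y := by simpa [Sym2.mk_isDiag_iff] using he
    have hs : ({⟨(x, y), hxy⟩, ⟨(y, x), hxy.symm⟩} : Finset (Pr (Fin n))) ⊆
        univ.filter fun p : Pr (Fin n) => toPair p = ⟨s(x, y), he⟩ := by
      intro p hp
      simp only [mem_insert, mem_singleton] at hp
      rcases hp with rfl | rfl
      · simp [toPair]
      · simp [toPair]
    refine le_trans (le_of_eq ?_) (card_le_card hs)
    rw [Finset.card_pair]
    intro h
    simp only [Subtype.mk.injEq, Prod.mk.injEq] at h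
    exact hxy h.1

theorem match_iff {n L : ℕ} (hL : L ≤ Fintype.card (Pair n)) (π : Scan n)
    (g : Fin L → Pr (Fin n)) :
    Match π (List.ofFn g) ↔ ∀ i : Fin L, toPair (g i) = π ⟨i, lt_of_lt_of_le i.2 hL⟩ := by
  constructor
  · intro h i
    obtain ⟨_, h1⟩ := h i (by simp)
    simpa using h1
  · intro h i hi
    have hi' : i < L := by simpa using hi
    refine ⟨lt_of_lt_of_le hi' hL, ?_⟩
    simpa using h ⟨i, hi'⟩

open Classical in
theorem lower {n L : ℕ} (hL : L ≤ Fintype.card (Pair n)) (π : Scan n) :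
    2 ^ L ≤ (univ.filter fun g : Fin L → Pr (Fin n) => Match π (List.ofFn g)).card := by
  have h1 : (univ.filter fun g : Fin L → Pr (Fin n) => Match π (List.ofFn g)) =
      Fintype.piFinset fun i : Fin L =>
        univ.filter fun p : Pr (Fin n) => toPair p = π ⟨i, lt_of_lt_of_le i.2 hL⟩ := by
    ext g
    simp [match_iff hL, Fintype.mem_piFinset]
  rw [h1, Fintype.card_piFinset]
  calc 2 ^ L = ∏ _i : Fin L, 2 := by simp
    _ ≤ _ := Finset.prod_le_prod' fun i _ => fibre _

open Classical in
theorem upper {n L : ℕ} (hL : L ≤ Fintype.card (Pair n)) (g : Fin L → Pr (Fin n)) :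
    (univ.filter fun π : Scan n => Match π (List.ofFn g)).card ≤
      (Fintype.card (Pair n) - L).factorial := by
  rcases (univ.filter fun π : Scan n => Match π (List.ofFn g)).eq_empty_or_nonempty with h | h
  · rw [h]
    simp
  obtain ⟨π₀, h₀⟩ := h
  have h₀' := (match_iff hL π₀ g).1 (mem_filter.1 h₀).2
  have hc : Fintype.card {i : Fin (Fintype.card (Pair n)) // ¬ (i : ℕ) < L} =
      Fintype.card (Pair n) - L := by
    rw [Fintype.card_subtype_compl, Fintype.card_fin, Fintype.card_fin_lt_of_le hL]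
  rw [← hc, ← Fintype.card_perm, Fintype.card_congr
    (Equiv.Perm.subtypeEquivSubtypePerm fun i : Fin (Fintype.card (Pair n)) => ¬ (i : ℕ) < L)]
  refine le_trans ?_ (le_of_eq (Fintype.card_subtype _).symm)
  refine Finset.card_le_card_of_injOn (fun π => π.trans π₀.symm) ?_ ?_
  · intro π hπ
    have h1 := (match_iff hL π g).1 (mem_filter.1 (mem_coe.1 hπ)).2
    simp only [coe_filter, mem_univ, true_and, Set.mem_ofPred_eq, not_not]
    intro a ha
    have h2 := (h1 ⟨a, ha⟩).symm.trans (h₀' ⟨a, ha⟩)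
    simp only [Fin.eta] at h2
    simp [h2]
  · intro π _ π' _ h
    ext1 a
    have := congrArg (fun f : Equiv.Perm (Fin (Fintype.card (Pair n))) => π₀ (f a)) h
    simpa using this

theorem ratio {n L N : ℕ} (hn : 18 ≤ n) (hL : L ≤ 4 * n) (hN : 2 * N = n * n - n) :
    L ≤ N ∧ (N : ℝ) ^ L * (N - L).factorial ≤ Real.exp 64 * N.factorial := by
  have h0 : n ≤ n * n := Nat.le_mul_self n
  have h1 : 2 * N + n = n * n := by omega
  have h2 : 18 * n ≤ n * n := Nat.mul_le_mul_right n hn
  have hLN : L ≤ N := by omega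
  refine ⟨hLN, ?_⟩
  obtain ⟨D, rfl⟩ := Nat.exists_eq_add_of_le hLN
  have hD : n * n ≤ 4 * D := by omega
  have hD0 : 0 < D := by
    have : 0 < n * n := Nat.mul_pos (by omega) (by omega)
    omega
  have h3 : L * L ≤ 64 * D := by
    have : L * L ≤ (4 * n) * (4 * n) := Nat.mul_le_mul hL hL
    nlinarith
  have hDr : (0 : ℝ) < D := by exact_mod_cast hD0
  have h4 : ((L + D : ℕ) : ℝ) ^ L ≤ Real.exp 64 * (D : ℝ) ^ L := by
    have e1 : ((L + D : ℕ) : ℝ) ≤ Real.exp (L / D) * D := by
      have := Real.add_one_le_exp ((L : ℝ) / D)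
      have e2 : ((L + D : ℕ) : ℝ) = ((L : ℝ) / D + 1) * D := by
        push_cast
        field_simp
      rw [e2]
      exact mul_le_mul_of_nonneg_right this hDr.le
    have e3 : (L : ℝ) * (L / D) ≤ 64 := by
      rw [← mul_div_assoc, div_le_iff₀ hDr]
      exact_mod_cast h3
    calc ((L + D : ℕ) : ℝ) ^ L ≤ (Real.exp (L / D) * D) ^ L :=
          pow_le_pow_left₀ (by positivity) e1 L
      _ = Real.exp (L * (L / D)) * (D : ℝ) ^ L := by rw [mul_pow, ← Real.exp_nat_mul]
      _ ≤ _ := mul_le_mul_of_nonneg_right (Real.exp_le_exp.2 e3) (by positivity)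
  have h5 : D ^ L * D.factorial ≤ (L + D).factorial := by
    have e1 := Nat.factorial_mul_pow_le_factorial (m := D) (n := L)
    have e2 : D ^ L ≤ (D + 1) ^ L := Nat.pow_le_pow_left (Nat.le_succ D) L
    calc D ^ L * D.factorial ≤ (D + 1) ^ L * D.factorial := Nat.mul_le_mul_right _ e2
      _ = D.factorial * (D + 1) ^ L := Nat.mul_comm _ _
      _ ≤ (D + L).factorial := e1
      _ = _ := by rw [Nat.add_comm]
  have h6 : (D : ℝ) ^ L * D.factorial ≤ (L + D).factorial := by exact_mod_cast h5
  rw [Nat.add_sub_cancel_left]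
  calc ((L + D : ℕ) : ℝ) ^ L * D.factorial ≤ Real.exp 64 * (D : ℝ) ^ L * D.factorial :=
        mul_le_mul_of_nonneg_right h4 (by positivity)
    _ = Real.exp 64 * ((D : ℝ) ^ L * D.factorial) := mul_assoc _ _ _
    _ ≤ _ := mul_le_mul_of_nonneg_left h6 (by positivity)

end LINK

theorem rowLINK : RowLINK := by
  classical
  refine ⟨Real.exp 64, Real.exp_pos _, ?_⟩
  filter_upwards [eventually_ge_atTop 18] with n hn L hL Bad B hB
  obtain ⟨hLN, hr⟩ := LINK.ratio hn hL (LINK.two_pair n)
  set N := Fintype.card (Pair n) with hN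
  set s : Finset (Scan n) := univ.filter Bad with hs
  set t : Finset (Fin L → Pr (Fin n)) := univ.filter fun g => B (List.ofFn g) with ht
  have hdc : s.card * 2 ^ L ≤ t.card * (N - L).factorial := by
    refine Finset.card_mul_le_card_mul (fun π g => Match π (List.ofFn g)) ?_ ?_
    · intro π hπ
      refine (LINK.lower hLN π).trans (card_le_card ?_)
      intro g hg
      have hg' := (mem_filter.1 hg).2
      exact (mem_bipartiteAbove _).2
        ⟨mem_filter.2 ⟨mem_univ _, hB π _ (by simp) hg' (mem_filter.1 hπ).2⟩, hg'⟩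
    · intro g _
      refine le_trans (card_le_card ?_) (LINK.upper hLN g)
      intro π hπ
      exact mem_filter.2 ⟨mem_univ _, ((mem_bipartiteBelow _).1 hπ).2⟩
  have hdc' : (s.card : ℝ) * 2 ^ L ≤ t.card * (N - L).factorial := by exact_mod_cast hdc
  have hp : prob Bad = (s.card : ℝ) / N.factorial := by
    unfold prob
    rw [Nat.card_eq_fintype_card, Nat.card_eq_fintype_card, Fintype.card_subtype,
      Fintype.card_equiv (Fintype.equivFin (Pair n)).symm, Fintype.card_fin]
  have hpr : (Fintype.card (Pr (Fin n)) : ℝ) = 2 * N := by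
    rw [LINK.card_pr, ← LINK.two_pair]
    push_cast
    rfl
  have he : EL L (fun l => ind (B l)) = (t.card : ℝ) / (2 * N) ^ L := by
    rw [LINK.el_sum, hpr]
    congr 1
    simp only [ind, ht]
    rw [Finset.sum_boole]
  have hN0 : 0 < N := by
    have h1 := LINK.two_pair n
    have h2 : 18 * n ≤ n * n := Nat.mul_le_mul_right n hn
    omega
  have hNr : (0 : ℝ) < N := by exact_mod_cast hN0
  rw [hp, he, ← mul_div_assoc, div_le_div_iff₀ (by positivity) (by positivity), mul_pow]
  calc (s.card : ℝ) * (2 ^ L * (N : ℝ) ^ L) = s.card * 2 ^ L * (N : ℝ) ^ L := by ring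
    _ ≤ t.card * (N - L).factorial * (N : ℝ) ^ L :=
        mul_le_mul_of_nonneg_right hdc' (by positivity)
    _ = t.card * ((N : ℝ) ^ L * (N - L).factorial) := by ring
    _ ≤ t.card * (Real.exp 64 * N.factorial) := mul_le_mul_of_nonneg_left hr (by positivity)
    _ = _ := by ring

end Pool.Agent.MP_81f5b7_pr.H42
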