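import Pool.Agent.MP_81f5b7_pr.H42.Spec

/-! The states are the sets of proper colourings of the graphs of the process. -/

set_option autoImplicit false

namespace Pool.Agent.MP_81f5b7_pr.H42

namespace SEM

variable {n : ℕ}

/-- proper colourings of a graph -/
def col (G : SimpleGraph (Fin n)) : St (Fin n) := {σ | ∀ x y, G.Adj x y → σ x ≠ σ y}

theorem col_nonempty (G : SimpleGraph (Fin n)) : (col G).Nonempty ↔ G.Colorable 3 := by
  constructor
  · rintro ⟨σ, hσ⟩
    exact ⟨SimpleGraph.Coloring.mk σ fun {v w} h => hσ v w h⟩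
  · rintro ⟨c⟩
    exact ⟨fun v => c v, fun x y h => c.valid h⟩

theorem col_plus (G : SimpleGraph (Fin n)) (e : Pr (Fin n)) :
    col (plus G (toPair e)) = hs (col G) e := by
  ext σ
  constructor
  · intro h
    refine ⟨fun x y hxy => h x y (Or.inl hxy), h _ _ (Or.inr ?_)⟩
    exact (SimpleGraph.fromEdgeSet_adj _).2 ⟨rfl, e.2⟩
  · rintro ⟨h1, h2⟩ x y hxy
    rcases hxy with hxy | hxy
    · exact h1 x y hxy
    · have h3 : s(x, y) = s(e.1.1, e.1.2) := ((SimpleGraph.fromEdgeSet_adj _).1 hxy).1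
      rcases Sym2.eq_iff.1 h3 with ⟨rfl, rfl⟩ | ⟨rfl, rfl⟩
      · exact h2
      · exact fun h => h2 h.symm

theorem gr_succ (l : List (Pr (Fin n))) (t : ℕ) (ht : t < l.length) :
    gr (l.take (t + 1)) = gs (gr (l.take t)) l[t] := by
  unfold gr
  rw [List.take_succ_eq_append_getElem ht, List.foldl_append]
  rfl

theorem hr_succ (l : List (Pr (Fin n))) (t : ℕ) (ht : t < l.length) :
    hr (l.take (t + 1)) = hs (hr (l.take t)) l[t] := by
  unfold hr
  rw [List.take_succ_eq_append_getElem ht, List.foldl_append]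
  rfl

theorem gr_eq (π : Scan n) (l : List (Pr (Fin n))) (hm : Match π l) :
    ∀ t, t ≤ l.length → gr (l.take t) = col (graph π t) := by
  intro t
  induction t with
  | zero =>
    intro _
    ext σ
    simp [gr, col, graph]
  | succ t ih =>
    intro ht
    have ht' : t < l.length := ht
    obtain ⟨h, he⟩ := hm t ht'
    rw [gr_succ l t ht', ih ht'.le]
    unfold gs
    rw [graph, dif_pos h, ← he, ← col_plus, col_nonempty]
    by_cases hc : (plus (graph π t) (toPair l[t])).Colorable 3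
    · rw [if_pos hc, if_pos hc]
    · rw [if_neg hc, if_neg hc]

theorem rej_iff (π : Scan n) (l : List (Pr (Fin n))) (hm : Match π l) (t : ℕ)
    (ht : t < l.length) : Rejected π t ↔ ¬ (hs (gr (l.take t)) l[t]).Nonempty := by
  obtain ⟨h, he⟩ := hm t ht
  rw [gr_eq π l hm t ht.le, ← col_plus, col_nonempty, he]
  exact ⟨fun ⟨_, h2⟩ => h2, fun h2 => ⟨h, h2⟩⟩

theorem hs_nonempty {S : St (Fin n)} {e : Pr (Fin n)} (h : (hs S e).Nonempty) : S.Nonempty := by
  obtain ⟨σ, hσ⟩ := h
  exact ⟨σ, hσ.1⟩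

theorem hr_eq_gr (l : List (Pr (Fin n))) :
    ∀ t, t ≤ l.length → (hr (l.take t)).Nonempty → hr (l.take t) = gr (l.take t) := by
  intro t
  induction t with
  | zero => intro _ _; rfl
  | succ t ih =>
    intro ht hne
    have ht' : t < l.length := ht
    rw [hr_succ l t ht'] at hne ⊢
    have h1 := ih ht'.le (hs_nonempty hne)
    rw [h1] at hne ⊢
    rw [gr_succ l t ht']
    unfold gs
    rw [if_pos hne]

theorem alive_iff (π : Scan n) (l : List (Pr (Fin n))) (hm : Match π l) :
    ∀ t, t ≤ l.length → ((∀ s < t, ¬ Rejected π s) ↔ (hr (l.take t)).Nonempty) := by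
  intro t
  induction t with
  | zero =>
    intro _
    exact ⟨fun _ => ⟨fun _ => 0, Set.mem_univ _⟩, fun _ s hs => absurd hs (Nat.not_lt_zero s)⟩
  | succ t ih =>
    intro ht
    have ht' : t < l.length := ht
    rw [hr_succ l t ht']
    constructor
    · intro h
      have h1 := (ih ht'.le).1 fun s hs => h s (Nat.lt_succ_of_lt hs)
      rw [hr_eq_gr l t ht'.le h1]
      have h2 := h t (Nat.lt_succ_self t)
      rw [rej_iff π l hm t ht'] at h2
      exact not_not.1 h2
    · intro h s hs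
      have h1 := hs_nonempty h
      rcases Nat.lt_succ_iff_lt_or_eq.1 hs with h2 | h2
      · exact (ih ht'.le).2 h1 s h2
      · subst h2
        rw [rej_iff π l hm s ht', ← hr_eq_gr l s ht'.le h1]
        exact not_not.2 h

end SEM

theorem rowSEM : RowSEM := by
  intro n π l hm
  refine ⟨fun t ht => SEM.gr_eq π l hm t ht, fun t ht => ?_⟩
  unfold FirstRej
  rw [SEM.alive_iff π l hm t ht.le, SEM.rej_iff π l hm t ht, SEM.hr_succ l t ht]
  constructor
  · rintro ⟨h1, h2⟩
    refine ⟨h2, ?_⟩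
    rw [SEM.hr_eq_gr l t ht.le h2]
    exact h1
  · rintro ⟨h1, h2⟩
    refine ⟨?_, h1⟩
    rw [← SEM.hr_eq_gr l t ht.le h1]
    exact h2

end Pool.Agent.MP_81f5b7_pr.H42
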