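import Pool.Agent.MP_81f5b7_pr.H42.Rho

/-! Three classes freeze in the greedy process. -/

set_option autoImplicit false
set_option linter.style.haveILetI false

namespace Pool.Agent.MP_81f5b7_pr.H42

open Finset

namespace TRI

variable {V : Type}

theorem eqv_refl (T : St V) (x : V) : eqv T x x := fun _ _ => rfl
theorem eqv_symm {T : St V} {x y : V} (h : eqv T x y) : eqv T y x := fun σ hσ => (h σ hσ).symm
theorem eqv_trans {T : St V} {x y z : V} (h : eqv T x y) (h' : eqv T y z) : eqv T x z :=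
  fun σ hσ => (h σ hσ).trans (h' σ hσ)

/-- decided pairs -/
def dec (T : St V) (x y : V) : Prop := eqv T x y ∨ ∀ σ ∈ T, σ x ≠ σ y

theorem dec_mono {S T : St V} (h : T ⊆ S) {x y : V} (d : dec S x y) : dec T x y :=
  d.imp (eqv_mono h) fun d σ hσ => d σ (h hσ)

theorem gs_of_not_eqv {T : St V} {e : Pr V} (h : ¬ eqv T e.1.1 e.1.2) :
    gs T e = cut T e.1.1 e.1.2 := gs_of_alive (cut_nonempty.2 h)

theorem cov_of_eqv {T : St V} {a b x : V} {z : List V} (h : eqv T x a ∨ eqv T x b)
    (c : cov T (er (er U a) b) (x :: z)) : cov T (er (er U a) b) z := by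
  intro σ hσ col hc
  obtain ⟨y, hy, e⟩ := c σ hσ col hc
  rcases List.mem_cons.1 hy with rfl | hy
  · exfalso
    obtain ⟨h1, h2⟩ := mem_erase.1 hc
    obtain ⟨h3, -⟩ := mem_erase.1 h2
    rcases h with h | h
    · exact h3 (e.symm.trans (h σ hσ))
    · exact h1 (e.symm.trans (h σ hσ))
  · exact ⟨y, hy, e⟩

variable [Fintype V]

/-- size of the class -/
noncomputable def cl (T : St V) (x : V) : ℝ := av fun y => ind (eqv T x y)

/-- fraction of decided pairs -/
noncomputable def DD (T : St V) : ℝ := av fun x => av fun y => ind (dec T x y)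

/-- the covering part of the potential -/
noncomputable def RR (k : ℕ) (T : St V) : ℝ := ∑ i ∈ range k, rho T U (i + 2)

theorem DD_mono {S T : St V} (h : T ⊆ S) : DD S ≤ DD T :=
  av_mono fun _ => av_mono fun _ => ind_mono (dec_mono h)
theorem RR_mono {S T : St V} (h : T ⊆ S) (k : ℕ) : RR k S ≤ RR k T :=
  sum_le_sum fun _ _ => rho_mono h _ _
theorem DD_nonneg (T : St V) : 0 ≤ DD T := av_nonneg fun _ => av_nonneg fun _ => ind_nonneg _
theorem RR_nonneg (k : ℕ) (T : St V) : 0 ≤ RR k T := sum_nonneg fun _ _ => rho_nonneg _ _ _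
theorem DD_le [Nonempty V] (T : St V) : DD T ≤ 1 := av_le fun _ => av_le fun _ => ind_le_one _
theorem RR_le [Nonempty V] (k : ℕ) (T : St V) : RR k T ≤ k := by
  refine (sum_le_sum fun i _ => rho_le_one T U (i + 2)).trans_eq ?_
  simp
theorem RR_eq (k : ℕ) (T : St V) :
    RR k T = av fun a => av fun b => ∑ i ∈ range k, rho T (er (er U a) b) i := by
  simp only [RR, av_sum]
  refine sum_congr rfl fun i _ => ?_
  rw [rho_succ]; simp only [rho_succ]

theorem av_av_ind (p q : V → Prop) : (av fun x => av fun y => ind (p x) * ind (q y)) =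
    (av fun x => ind (p x)) * av fun y => ind (q y) := by
  simp only [av_mul_left, av_mul_right]

theorem tri_of_three {T : St V} {δ : ℝ} [Nonempty V] (a : Fin 3 → V) (hb : ∀ i, δ ≤ cl T (a i))
    (hd : ∀ i j, i ≠ j → ∀ σ ∈ T, σ (a i) ≠ σ (a j)) : Tri T δ := by
  classical
  refine ⟨fun i => univ.filter fun y => eqv T (a i) y, fun i => ?_, ?_⟩
  · have h := hb i
    rw [cl, av_ind, le_div_iff₀ (by exact_mod_cast Fintype.card_pos)] at h
    convert h
  · intro σ hσ i j x hx y hy
    have h1 := (mem_filter.1 hx).2 σ hσ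
    have h2 := (mem_filter.1 hy).2 σ hσ
    rw [← h1, ← h2]
    exact ⟨fun e => by_contra fun hn => hd i j hn σ hσ e, fun e => by rw [e]⟩

/-- the gain of one covering probability from accepted letters -/
noncomputable def HH (T : St V) (Q : Lst V) (i : ℕ) : ℝ :=
  av fun x => av fun y => ind (¬ eqv T x y) * JJ T Q i x y

theorem HH_nonneg (T : St V) (Q : Lst V) (i : ℕ) : 0 ≤ HH T Q i :=
  av_nonneg fun _ => av_nonneg fun _ => mul_nonneg (ind_nonneg _) (JJ_nonneg _ _ _ _ _)

theorem HH_ge [Nonempty V] {T : St V} {Q : Lst V} {δ : ℝ} (i : ℕ)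
    (h : ∀ z x, ¬ cov T Q z → cov T Q (x :: z) → cl T x ≤ δ) :
    (rho T Q (i + 1) - rho T Q i) ^ 2 - δ * (rho T Q (i + 1) - rho T Q i) ≤ HH T Q i := by
  have h1 := delta_sq_le T Q i
  rw [av_av_JJ] at h1
  have h2 := rho_delta T Q i
  have h3 : HH T Q i = EL i fun z => av fun x => av fun y => ind (¬ eqv T x y) *
      ((1 - ind (cov T Q z)) * ind (cov T Q (x :: z)) * ind (cov T Q (y :: z))) := by
    simp only [HH, JJ, ← EL_mul_left, ← EL_av]
  have h4 : (EL i fun z => (1 - ind (cov T Q z)) * (av fun x => ind (cov T Q (x :: z))) ^ 2) -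
      δ * (EL i fun z => (1 - ind (cov T Q z)) * av fun x => ind (cov T Q (x :: z))) ≤
      HH T Q i := by
    rw [h3, ← EL_mul_left, ← EL_sub]
    refine EL_mono _ fun z => ?_
    by_cases hz : cov T Q z
    · simp only [ind_pos hz, sub_self, zero_mul, mul_zero, av_zero, le_refl]
    · simp only [ind_neg hz, sub_zero, one_mul]
      set π := av fun x => ind (cov T Q (x :: z)) with hπ
      have h5 : π ^ 2 - δ * π = av fun x => ind (cov T Q (x :: z)) * (π - δ) := by
        rw [av_mul_right, ← hπ]; ring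
      rw [h5]
      refine av_mono fun x => ?_
      by_cases hx : cov T Q (x :: z)
      · simp only [ind_pos hx, one_mul]
        have h6 : π - cl T x ≤ av fun y => ind (¬ eqv T x y) * ind (cov T Q (y :: z)) := by
          rw [hπ, cl, ← av_sub]
          refine av_mono fun y => ?_
          rw [ind_not]
          nlinarith [ind_nonneg (eqv T x y), ind_le_one (cov T Q (y :: z))]
        linarith [h z x hz hx]
      · simp only [ind_neg hx, zero_mul, mul_zero, av_zero, le_refl]
  rw [← h2] at h4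
  linarith

theorem sum_HH_ge [Nonempty V] {T : St V} (hT : T.Nonempty) {δ ε : ℝ} {k : ℕ} (hk : 1 ≤ k)
    (hδ : 0 < δ) (hε : 2 * k * δ ≤ ε) (hr : ε ≤ rho T U k) {a b : V}
    (hab : ∀ x, δ ≤ cl T x → eqv T x a ∨ eqv T x b) :
    δ ^ 2 ≤ ∑ i ∈ range k, HH T (er (er U a) b) i := by
  set Q : Lst V := er (er U a) b with hQ
  obtain ⟨σ, hσ⟩ := hT
  have h0 : rho T Q 0 = 0 := by
    refine rho_eq_zero hσ ?_
    have h1 := card_er_ge (er U a) b σ
    have h2 := card_er_ge U a σ
    rw [card_U] at h2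
    rw [hQ]; omega
  have h1 : ε ≤ rho T Q k :=
    hr.trans (rho_mono_Q (fun τ _ => (er_subset _ b τ).trans (er_subset _ a τ)) k)
  have h2 : ∑ i ∈ range k, (rho T Q (i + 1) - rho T Q i) = rho T Q k - rho T Q 0 :=
    sum_range_sub (rho T Q) k
  have h3 : ∃ i ∈ range k, 2 * δ ≤ rho T Q (i + 1) - rho T Q i := by
    refine exists_le_of_sum_le (nonempty_range_iff.2 (by omega)) ?_
    rw [h2, h0, sum_const, card_range, nsmul_eq_mul]; linarith
  obtain ⟨i, hi, h3⟩ := h3
  have h4 := HH_ge (T := T) (Q := Q) (δ := δ) i fun z x hz hx =>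
    le_of_not_ge fun hb => hz (cov_of_eqv (hab x hb) hx)
  refine le_trans ?_ (single_le_sum (f := fun i => HH T Q i) (fun j _ => HH_nonneg _ _ _) hi)
  nlinarith

variable [DecidableEq V]

theorem step_of_gain (h : 2 ≤ Fintype.card V) {Φ : St V → ℝ} {T : St V} {f : V → V → ℝ}
    (h0 : ∀ x y, 0 ≤ f x y) (hd : ∀ x, f x x = 0) (hg : ∀ e : Pr V, Φ T + f e.1.1 e.1.2 ≤ Φ (gs T e)) :
    Φ T + (av fun x => av fun y => f x y) ≤ av fun e => Φ (gs T e) := by
  haveI := nonempty_Pr h
  have h1 := av_av_le_av_Pr h h0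
  simp only [hd, av_zero, zero_div, add_zero] at h1
  have h2 : (av fun e : Pr V => Φ T + f e.1.1 e.1.2) ≤ av fun e => Φ (gs T e) := av_mono hg
  rw [av_add, av_const] at h2
  linarith

theorem case1 (h : 2 ≤ Fintype.card V) (k : ℕ) {T : St V} {δ : ℝ} (hδ : 0 < δ) {a b : V}
    (ha : δ ≤ cl T a) (hb : δ ≤ cl T b) (hab : ¬ eqv T a b) {σ : V → Fin 3} (hσ : σ ∈ T)
    (e : σ a = σ b) :
    DD T + RR k T + δ ^ 4 ≤ av fun e => DD (gs T e) + RR k (gs T e) := by
  have hm : δ ^ 2 ≤ cl T a * cl T b := by nlinarith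
  have hne : ∀ {x y : V}, eqv T a x → eqv T b y → ¬ eqv T x y := fun hx hy hxy =>
    hab (eqv_trans (eqv_trans hx hxy) (eqv_symm hy))
  have h1 := step_of_gain h (Φ := fun T => DD T + RR k T) (T := T)
    (f := fun x y => δ ^ 2 * (ind (eqv T a x) * ind (eqv T b y)))
    (fun x y => mul_nonneg (sq_nonneg _) (mul_nonneg (ind_nonneg _) (ind_nonneg _)))
    (fun x => by
      rw [← ind_and, ind_neg fun hx => hne hx.1 hx.2 (eqv_refl T x), mul_zero])
    (fun l => by
      rw [← ind_and]
      by_cases hl : eqv T a l.1.1 ∧ eqv T b l.1.2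
      · rw [ind_pos hl, mul_one]
        have h2 := RR_mono (gs_subset T l) k
        have h3 : DD T + cl T a * cl T b ≤ DD (gs T l) := by
          rw [gs_of_not_eqv (hne hl.1 hl.2), cl, cl, ← av_av_ind, DD, ← av_add]
          refine av_mono fun x => ?_
          rw [← av_add]
          refine av_mono fun y => ?_
          rw [← ind_and]
          by_cases hxy : eqv T a x ∧ eqv T b y
          · have h4 : ¬ dec T x y := by
              rintro (h4 | h4)
              · exact hne hxy.1 hxy.2 h4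
              · exact h4 σ hσ ((hxy.1 σ hσ).symm.trans (e.trans (hxy.2 σ hσ)))
            have h5 : dec (cut T l.1.1 l.1.2) x y := Or.inr fun τ hτ e' => hτ.2 (by
              rw [← hl.1 τ hτ.1, ← hl.2 τ hτ.1, hxy.1 τ hτ.1, hxy.2 τ hτ.1, e'])
            rw [ind_neg h4, ind_pos hxy, ind_pos h5, zero_add]
          · rw [ind_neg hxy, add_zero]
            exact ind_mono (dec_mono (cut_subset _ _ _))
        linarith
      · rw [ind_neg hl, mul_zero, add_zero]
        exact add_le_add (DD_mono (gs_subset T l)) (RR_mono (gs_subset T l) k))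
  simp only [av_mul_left, av_mul_right] at h1
  have h2 : δ ^ 2 * δ ^ 2 ≤ δ ^ 2 * (cl T a * cl T b) := mul_le_mul_of_nonneg_left hm (sq_nonneg _)
  unfold cl at h2
  nlinarith

theorem case2 (h : 2 ≤ Fintype.card V) {T : St V} (hT : T.Nonempty) {δ ε : ℝ} {k : ℕ} (hk : 1 ≤ k)
    (hδ : 0 < δ) (hε : 2 * k * δ ≤ ε) (hr : ε ≤ rho T U k) (p q : V → Prop)
    (hp : δ ≤ av fun x => ind (p x)) (hq : δ ≤ av fun x => ind (q x))
    (hab : ∀ a b, p a → q b → ∀ x, δ ≤ cl T x → eqv T x a ∨ eqv T x b) :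
    DD T + RR k T + δ ^ 4 ≤ av fun e => DD (gs T e) + RR k (gs T e) := by
  haveI := nonempty_of_two h
  have h1 := step_of_gain h (Φ := fun T => DD T + RR k T) (T := T)
    (f := fun x y => av fun a => av fun b => ∑ i ∈ range k,
      ind (¬ eqv T x y) * JJ T (er (er U a) b) i x y)
    (fun x y => av_nonneg fun _ => av_nonneg fun _ => sum_nonneg fun _ _ =>
      mul_nonneg (ind_nonneg _) (JJ_nonneg _ _ _ _ _))
    (fun x => by
      simp only [ind_neg (not_not.2 (eqv_refl T x)), zero_mul, sum_const_zero, av_zero])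
    (fun l => by
      have h2 := DD_mono (gs_subset T l)
      by_cases hl : eqv T l.1.1 l.1.2
      · simp only [ind_neg (not_not.2 hl), zero_mul, sum_const_zero, av_zero, add_zero]
        exact add_le_add h2 (RR_mono (gs_subset T l) k)
      · simp only [ind_pos hl, one_mul]
        have h3 : RR k T + (av fun a => av fun b => ∑ i ∈ range k,
            JJ T (er (er U a) b) i l.1.1 l.1.2) ≤ RR k (gs T l) := by
          rw [gs_of_not_eqv hl, RR_eq, RR_eq, ← av_add]
          refine av_mono fun a => ?_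
          rw [← av_add]
          refine av_mono fun b => ?_
          rw [← sum_add_distrib]
          exact sum_le_sum fun i _ => rho_add_JJ _ _ _ _ _
        linarith)
  have h2 : (av fun x => av fun y => av fun a => av fun b => ∑ i ∈ range k,
      ind (¬ eqv T x y) * JJ T (er (er U a) b) i x y) =
      av fun a => av fun b => ∑ i ∈ range k, HH T (er (er U a) b) i := by
    simp only [HH, ← av_sum]
    have e1 : ∀ g : V → V → V → V → ℝ, (av fun x => av fun y => av fun a => av fun b => g x y a b) =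
        av fun a => av fun b => av fun x => av fun y => g x y a b := by
      intro g
      have e2 := av_comm fun (u v : V × V) => g u.1 u.2 v.1 v.2
      have e3 : ∀ u : V × V, (av fun v : V × V => g u.1 u.2 v.1 v.2) =
          av fun a => av fun b => g u.1 u.2 a b := fun u => av_prod fun a b => g u.1 u.2 a b
      have e4 : ∀ v : V × V, (av fun u : V × V => g u.1 u.2 v.1 v.2) =
          av fun x => av fun y => g x y v.1 v.2 := fun v => av_prod fun x y => g x y v.1 v.2
      simp only [e3, e4] at e2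
      rw [← av_prod (fun x y => av fun a => av fun b => g x y a b),
        ← av_prod (fun a b => av fun x => av fun y => g x y a b)]
      exact e2
    exact e1 _
  have h3 : (av fun a => av fun b => δ ^ 2 * (ind (p a) * ind (q b))) ≤
      av fun a => av fun b => ∑ i ∈ range k, HH T (er (er U a) b) i := by
    refine av_mono fun a => av_mono fun b => ?_
    rw [← ind_and]
    by_cases hpq : p a ∧ q b
    · rw [ind_pos hpq, mul_one]
      exact sum_HH_ge hT hk hδ hε hr (hab a b hpq.1 hpq.2)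
    · rw [ind_neg hpq, mul_zero]
      exact sum_nonneg fun _ _ => HH_nonneg _ _ _
  simp only [av_mul_left, av_mul_right] at h3
  have hm : δ ^ 2 ≤ (av fun x => ind (p x)) * av fun x => ind (q x) := by nlinarith
  have h4 := mul_le_mul_of_nonneg_left hm (sq_nonneg δ)
  rw [h2] at h1
  nlinarith

theorem drift_all (h : 2 ≤ Fintype.card V) {T : St V} (hT : T.Nonempty) {δ ε : ℝ} {k : ℕ}
    (hk : 1 ≤ k) (hδ : 0 < δ) (hε : 2 * k * δ ≤ ε) (hr : ε ≤ rho T U k) (hn : ¬ Tri T δ) :
    DD T + RR k T + δ ^ 4 ≤ av fun e => DD (gs T e) + RR k (gs T e) := by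
  haveI := nonempty_of_two h
  by_cases c1 : ∃ a b, δ ≤ cl T a ∧ δ ≤ cl T b ∧ ¬ eqv T a b ∧ ∃ σ ∈ T, σ a = σ b
  · obtain ⟨a, b, ha, hb, hab, σ, hσ, e⟩ := c1
    exact case1 h k hδ ha hb hab hσ e
  have c2 : ∀ a b, δ ≤ cl T a → δ ≤ cl T b → ¬ eqv T a b → ∀ σ ∈ T, σ a ≠ σ b :=
    fun a b ha hb hab σ hσ e => c1 ⟨a, b, ha, hb, hab, σ, hσ, e⟩
  by_cases c3 : ∃ a, δ ≤ cl T a
  · obtain ⟨a, ha⟩ := c3
    by_cases c4 : ∃ b, δ ≤ cl T b ∧ ¬ eqv T a b
    · obtain ⟨b, hb, hab⟩ := c4
      refine case2 h hT hk hδ hε hr (eqv T a) (eqv T b) ha hb fun a' b' ha' hb' x hx => ?_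
      by_contra hc
      have hxa : ¬ eqv T a x := fun e => hc (Or.inl (eqv_trans (eqv_symm e) ha'))
      have hxb : ¬ eqv T b x := fun e => hc (Or.inr (eqv_trans (eqv_symm e) hb'))
      have d1 := c2 a b ha hb hab
      have d2 := c2 a x ha hx hxa
      have d3 := c2 b x hb hx hxb
      refine hn (tri_of_three ![a, b, x] (fun i => ?_) fun i j hij σ hσ => ?_)
      · fin_cases i <;> assumption
      · have e1 := d1 σ hσ
        have e2 := d2 σ hσ
        have e3 := d3 σ hσ
        fin_cases i <;> fin_cases j <;>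
          first | exact absurd rfl hij | assumption | (apply Ne.symm; assumption)
    · refine case2 h hT hk hδ hε hr (eqv T a) (eqv T a) ha ha fun a' b' ha' _ x hx => Or.inl ?_
      exact eqv_trans (eqv_symm (by_contra fun e => c4 ⟨x, hx, e⟩)) ha'
  · have h1 : δ ≤ av fun _ : V => ind True := by
      rw [ind_pos trivial, av_const]
      have h2 : (1 : ℝ) ≤ k := by exact_mod_cast hk
      nlinarith [rho_le_one T U k]
    exact case2 h hT hk hδ hε hr (fun _ => True) (fun _ => True) h1 h1
      fun _ _ _ _ x hx => absurd ⟨x, hx⟩ c3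

end TRI

open TRI in
theorem rowTRI : RowTRI := by
  intro V _ _ h k K ε δ S hk hK hδ hε hS hr
  haveI := nonempty_of_two h
  haveI := nonempty_Pr h
  have h1 := potential gs (I := fun T : St V => T ⊆ S ∧ T.Nonempty)
    (fun T a hT => ⟨(gs_subset T a).trans hT.1, gs_nonempty hT.2 a⟩)
    (Φ := fun T => DD T + RR k T) (g := fun T => δ ^ 4 * ind (¬ Tri T δ)) (B := (k : ℝ) + 1)
    (fun T _ => by linarith [DD_le T, RR_le k T])
    (fun T hT => by
      by_cases hn : Tri T δ
      · rw [ind_neg (not_not.2 hn), mul_zero, add_zero]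
        exact le_av fun e => add_le_add (DD_mono (gs_subset T e)) (RR_mono (gs_subset T e) k)
      · rw [ind_pos hn, mul_one]
        exact drift_all h hT.2 hk hδ hε (hr.trans (rho_mono hT.1 _ _)) hn) K (S := S) ⟨le_rfl, hS⟩
  rw [sm_mul_left] at h1
  have h2 : (K : ℝ) * it gs K (fun T => ind (¬ Tri T δ)) S ≤
      sm gs K (fun T => ind (¬ Tri T δ)) S := by
    have h3 : ∀ m ∈ range K, it gs K (fun T => ind (¬ Tri T δ)) S ≤
        it gs m (fun T => ind (¬ Tri T δ)) S := by
      intro m hm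
      obtain ⟨b, rfl⟩ := Nat.exists_eq_add_of_le (mem_range.1 hm).le
      rw [it_add]
      refine it_mono _ _ (fun T => ?_) S
      exact EL_le _ fun l _ => ind_mono fun hn ht => hn (Tri_mono (foldl_gs_subset T l) ht)
    have h4 := sum_le_sum h3
    rwa [sum_const, card_range, nsmul_eq_mul] at h4
  have hK0 : (0 : ℝ) < K := by exact_mod_cast hK
  have hd : 0 < δ ^ 4 := by positivity
  rw [le_div_iff₀ (by positivity)]
  nlinarith [mul_le_mul_of_nonneg_left h2 hd.le, DD_nonneg S, RR_nonneg k S]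

end Pool.Agent.MP_81f5b7_pr.H42
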