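import Pool.Agent.MP_81f5b7_pr.H42.Kit

/-! A state covered by few short-lived states is short-lived. -/

set_option autoImplicit false

namespace Pool.Agent.MP_81f5b7_pr.H42

open Finset

namespace UNI

variable {V : Type} [Fintype V] [DecidableEq V]

theorem half (h : 2 ≤ Fintype.card V) {T : St V} {L : ℝ} {a : ℕ} (ha : 2 * L < a)
    (hL : life a T ≤ L) : al a T ≤ 1 / 2 := by
  have h1 : (a : ℝ) * al a T ≤ life a T := by
    rw [life_eq]
    refine le_trans (le_of_eq ?_) (sum_le_sum (f := fun _ => al a T) fun m hm =>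
      al_anti h T (mem_range.1 hm).le)
    simp
  have h2 := life_nonneg a T
  have h3 : (0 : ℝ) < a := by linarith
  by_contra h4
  push Not at h4
  nlinarith

omit [Fintype V] [DecidableEq V] in
theorem le_mul_chi {f : St V → ℝ} {c : ℝ} {T : St V} (h0 : f ∅ = 0) (h : f T ≤ c) :
    f T ≤ c * chi T := by
  by_cases hT : T.Nonempty
  · rw [chi_pos hT, mul_one]; exact h
  · rw [Set.not_nonempty_iff_eq_empty.1 hT, h0, chi_empty, mul_zero]

theorem step {S : St V} {f : St V → ℝ} {c : ℝ} (h0 : f ∅ = 0) (h : ∀ T, T ⊆ S → f T ≤ c) (m : ℕ) :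
    it hs m f S ≤ c * al m S := by
  refine (it_mono_inv hs (I := fun T => T ⊆ S) (fun T a hT => (hs_subset T a).trans hT) m
    (g := fun T => c * chi T) (fun T hT => le_mul_chi h0 (h T hT)) le_rfl).trans_eq ?_
  rw [it_mul_left]; rfl

theorem pow_half (h : 2 ≤ Fintype.card V) {T : St V} {a : ℕ}
    (ha : ∀ T', T' ⊆ T → al a T' ≤ 1 / 2) (i : ℕ) : al (a * i) T ≤ (1 / 2) ^ i := by
  induction i with
  | zero => simpa using al_le_one h 0 T
  | succ i ih =>
    have h1 : al (a * (i + 1)) T = it hs (a * i) (al a) T := by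
      rw [Nat.mul_succ]; exact it_add hs _ _ _ _
    rw [h1, pow_succ]
    have h2 := step (S := T) (f := al a) (al_empty a) ha (a * i)
    linarith

theorem geo (h : 2 ≤ Fintype.card V) {S : St V} {b : ℕ} (hb : 0 < b)
    (hS : ∀ T, T ⊆ S → al b T ≤ 1 / 2) (M : ℕ) : ∀ T, T ⊆ S → life M T ≤ 2 * b := by
  induction M using Nat.strong_induction_on with
  | _ M ih =>
    intro T hT
    have hb0 : (0 : ℝ) ≤ b := Nat.cast_nonneg b
    by_cases hM : M ≤ b
    · have h1 := (life_mono_left hM T).trans (life_le h b T)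
      linarith
    · obtain ⟨k, rfl⟩ : ∃ k, M = b + k := ⟨M - b, by omega⟩
      have h1 : life (b + k) T = life b T + it hs b (life k) T := sm_split hs b k chi T
      have h2 := step (S := T) (f := life k) (life_empty k)
        (fun T' hT' => ih k (by omega) T' (hT'.trans hT)) b
      have h3 := life_le h b T
      have h4 := hS T hT
      rw [h1]
      nlinarith

end UNI

theorem rowUNI : RowUNI := by
  intro V _ _ h ι s T S L q M hL hT hS hc
  set a : ℕ := ⌊2 * L⌋₊ + 1 with ha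
  have ha1 : 2 * L < a := by rw [ha]; push_cast; exact Nat.lt_floor_add_one _
  have ha2 : (a : ℝ) ≤ 2 * L + 1 := by
    rw [ha]; push_cast; linarith [Nat.floor_le (show 0 ≤ 2 * L by linarith)]
  have h1 : ∀ i ∈ s, al (a * (q + 1)) (T i) ≤ (1 / 2) ^ (q + 1) := fun i hi =>
    UNI.pow_half h (fun T' hT' => UNI.half h ha1 (hT i hi T' hT' a)) _
  have h2 : ∀ S', S' ⊆ S → al (a * (q + 1)) S' ≤ 1 / 2 := fun S' hS' => by
    refine (al_cover _ s T fun σ hσ => hS σ (hS' hσ)).trans ((sum_le_sum h1).trans ?_)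
    rw [sum_const, nsmul_eq_mul]
    have h3 : (s.card : ℝ) ≤ 2 ^ q := by exact_mod_cast hc
    calc (s.card : ℝ) * (1 / 2) ^ (q + 1) ≤ 2 ^ q * (1 / 2) ^ (q + 1) := by gcongr
      _ = 1 / 2 := by rw [pow_succ, ← mul_assoc, ← mul_pow]; norm_num
  have h4 := UNI.geo h (Nat.mul_pos (by omega) (by omega)) h2 M S le_rfl
  refine h4.trans ?_
  push_cast
  have h5 : (0 : ℝ) ≤ (q : ℝ) + 1 := by positivity
  have h6 : ((⌊2 * L⌋₊ : ℝ) + 1) ≤ 2 * L + 1 := by rw [ha] at ha2; push_cast at ha2; exact ha2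
  nlinarith

end Pool.Agent.MP_81f5b7_pr.H42
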