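import Pool.Agent.MP_81f5b7_pr.H42.Kit

/-! Row VAR: variance of the life time. -/

set_option autoImplicit false
set_option linter.style.haveILetI false

namespace Pool.Agent.MP_81f5b7_pr.H42

open Finset

namespace VAR

variable {V : Type} [Fintype V] [DecidableEq V]

/-- second moment of the life time -/
noncomputable def Q (M : ℕ) (S : St V) : ℝ := ∑ m ∈ range M, (2 * (m : ℝ) + 1) * al m S

/-- loss of life time from one further constraint -/
noncomputable def dl (M : ℕ) (S : St V) (e : Pr V) : ℝ := life M S - life M (hs S e)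

/-- the bound for one letter -/
noncomputable def ph (M₀ : ℕ) (e : Pr V) (T : St V) : ℝ :=
  2 * (ind (¬ (hs T e).Nonempty) * life M₀ T)

theorem Q_succ (M : ℕ) (S : St V) :
    Q (M + 1) S = chi S + av fun e => Q M (hs S e) + 2 * life M (hs S e) := by
  have h : (fun e : Pr V => Q M (hs S e) + 2 * life M (hs S e)) =
      fun e => ∑ m ∈ range M, (2 * ((m : ℝ) + 1) + 1) * al m (hs S e) := by
    funext e
    rw [Q, life_eq, mul_sum, ← sum_add_distrib]
    exact sum_congr rfl fun m _ => by ring
  rw [h, av_sum, Q, sum_range_succ']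
  simp only [av_mul_left, al_succ, al_zero]
  push_cast
  ring

theorem Q_empty (M : ℕ) : Q M (∅ : St V) = 0 := by simp [Q, al_empty]

theorem dl_nonneg (M : ℕ) (S : St V) (e : Pr V) : 0 ≤ dl M S e :=
  sub_nonneg.2 (life_mono M (hs_subset S e))

theorem ph_nonneg (M₀ : ℕ) (e : Pr V) (T : St V) : 0 ≤ ph M₀ e T :=
  mul_nonneg (by norm_num) (mul_nonneg (ind_nonneg _) (life_nonneg _ _))

theorem dl_succ (M : ℕ) (S : St V) (e : Pr V) :
    dl (M + 1) S e = chi S - chi (hs S e) + av fun f => dl M (hs S f) e := by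
  have h : (fun f : Pr V => dl M (hs S f) e) =
      fun f => life M (hs S f) - life M (hs (hs S e) f) := by
    funext f
    rw [dl, hs_comm]
  rw [h, av_sub, dl, life_succ, life_succ]
  ring

theorem dl_sq (h : 2 ≤ Fintype.card V) (M₀ : ℕ) (e : Pr V) (M : ℕ) (hM : M ≤ M₀) (S : St V) :
    dl M S e ^ 2 ≤ sm hs M (ph M₀ e) S := by
  haveI := nonempty_Pr h
  induction M generalizing S with
  | zero => simp [dl, life]
  | succ M ih =>
    have h1 : (av fun f => dl M (hs S f) e) ^ 2 ≤ av fun f => sm hs M (ph M₀ e) (hs S f) :=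
      (av_sq_le _).trans (av_mono fun f => ih (by omega) _)
    have ha : 0 ≤ av fun f => dl M (hs S f) e := av_nonneg fun f => dl_nonneg _ _ _
    have hd := dl_succ M S e
    rw [sm_succ]
    by_cases he : (hs S e).Nonempty
    · rw [chi_pos he, chi_pos (he.mono (hs_subset S e))] at hd
      have := ph_nonneg M₀ e S
      rw [hd]
      nlinarith
    · have h2 : chi (hs S e) = 0 := ind_neg he
      have h3 : ph M₀ e S = 2 * life M₀ S := by rw [ph, ind_pos he, one_mul]
      have h4 : dl (M + 1) S e ≤ life M₀ S := by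
        have := life_mono_left hM S
        have := life_nonneg (M + 1) (hs S e)
        rw [dl]
        linarith
      have h5 := chi_nonneg S
      have h6 := chi_le_one S
      rw [h2] at hd
      rw [h3]
      rw [hd] at h4 ⊢
      nlinarith [mul_nonneg h5 ha, mul_nonneg (sub_nonneg.2 h6) ha,
        mul_nonneg h5 (sub_nonneg.2 h6)]

theorem hz_life (h : 2 ≤ Fintype.card V) (M : ℕ) (S : St V) : hz S * life M S ≤ 1 := by
  refine le_trans ?_ (sm_hz_le h M S)
  rw [life, ← sm_mul_left]
  refine sm_mono_inv hs (I := fun T => T ⊆ S) (fun T a hT => (hs_subset T a).trans hT) M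
    (fun T hT => ?_) le_rfl
  rw [mul_comm]
  exact mul_le_mul_of_nonneg_left (hz_mono hT) (chi_nonneg T)

theorem av_ph (h : 2 ≤ Fintype.card V) (M₀ : ℕ) (T : St V) :
    (av fun e => ph M₀ e T) ≤ 2 * Real.sqrt (2 * M₀) * (chi T * yy T) := by
  have e1 : (av fun e => ph M₀ e T) = 2 * (hz T * life M₀ T) := by
    simp only [ph, av_mul_left, av_mul_right, hz]
  rw [e1]
  by_cases hT : T.Nonempty
  · rw [chi_pos hT, one_mul]
    have h1 := hz_life h M₀ T
    have h0 : 0 ≤ hz T * life M₀ T := mul_nonneg (hz_nonneg T) (life_nonneg _ _)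
    have h2 : hz T * life M₀ T ≤ 2 * yy T ^ 2 * M₀ :=
      mul_le_mul (hz_le h T) (life_le h M₀ T) (life_nonneg _ _) (by positivity)
    have hy := yy_nonneg T
    have h3 : hz T * life M₀ T ≤ Real.sqrt (2 * M₀) * yy T := by
      refine abs_le_of_sq_le_sq' ?_ (mul_nonneg (Real.sqrt_nonneg _) hy) |>.2
      rw [mul_pow (Real.sqrt (2 * M₀)), Real.sq_sqrt (by positivity)]
      nlinarith
    linarith
  · rw [Set.not_nonempty_iff_eq_empty.1 hT, life_empty, chi_empty]
    simp

theorem var_le (h : 2 ≤ Fintype.card V) (M₀ M : ℕ) (hM : M ≤ M₀) (S : St V) :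
    Q M S - life M S ^ 2 ≤ M * sm hs M (fun T => av fun e => ph M₀ e T) S := by
  haveI := nonempty_Pr h
  have hψ : ∀ T : St V, 0 ≤ av fun e => ph M₀ e T := fun T => av_nonneg fun e => ph_nonneg _ _ _
  induction M generalizing S with
  | zero => simp [Q, life]
  | succ M ih =>
    by_cases hS : S.Nonempty
    · have h1 : (av fun e => Q M (hs S e) - life M (hs S e) ^ 2) ≤
          av fun e => M * sm hs M (fun T => av fun e => ph M₀ e T) (hs S e) :=
        av_mono fun e => ih (by omega) _
      rw [av_sub, av_mul_left] at h1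
      have h2 : (av fun e => dl M S e ^ 2) ≤ sm hs M (fun T => av fun e => ph M₀ e T) S := by
        rw [sm_av]
        exact av_mono fun e => dl_sq h M₀ e M (by omega) S
      have h3 : (fun e => dl M S e ^ 2) = fun e => life M S ^ 2 -
          (2 * life M S) * life M (hs S e) + life M (hs S e) ^ 2 := by
        funext e
        rw [dl]
        ring
      rw [h3, av_add, av_sub, av_mul_left, av_const] at h2
      have h4 := sm_mono_left hs (Nat.le_succ M) hψ S
      have h5 := sm_succ hs M (fun T => av fun e => ph M₀ e T) S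
      have h6 := hψ S
      have h7 : (0 : ℝ) ≤ M := Nat.cast_nonneg M
      rw [Q_succ, life_succ, chi_pos hS, av_add, av_mul_left]
      push_cast
      simp only [Nat.succ_eq_add_one] at h4
      nlinarith [sq_nonneg (life M S - av fun e => life M (hs S e)), mul_nonneg h7 h6]
    · rw [Set.not_nonempty_iff_eq_empty.1 hS, Q_empty, life_empty]
      have := sm_nonneg hs (M + 1) hψ (∅ : St V)
      have h8 : (0 : ℝ) ≤ ((M + 1 : ℕ) : ℝ) := Nat.cast_nonneg _
      nlinarith [mul_nonneg h8 this]

end VAR

theorem rowVAR : RowVAR := by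
  intro V _ _ h M S
  have h1 := VAR.var_le h M M le_rfl S
  have h2 : sm hs M (fun T => av fun e => VAR.ph M e T) S ≤
      2 * Real.sqrt (2 * M) * sm hs M (fun T => chi T * yy T) S := by
    rw [← sm_mul_left]
    exact sm_mono hs M (VAR.av_ph h M) S
  have h3 := mul_le_mul_of_nonneg_left h2 (Nat.cast_nonneg (α := ℝ) M)
  have h4 : VAR.Q M S = ∑ m ∈ range M, (2 * (m : ℝ) + 1) * al m S := rfl
  rw [← h4]
  linarith

end Pool.Agent.MP_81f5b7_pr.H42
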