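import Pool.Agent.MP_81f5b7_pr.H42.Rho

/-! The total mass of partnered vertices before death. -/

set_option autoImplicit false
set_option linter.style.haveILetI false

namespace Pool.Agent.MP_81f5b7_pr.H42

open Finset

namespace YY

theorem expsum {a K c : ℝ} (ha : 0 ≤ a) (hK : 0 ≤ K) (hc : 0 ≤ c) (A B : ℕ) :
    ∑ d ∈ range A, ∑ i ∈ range B, a ^ d / d.factorial * ((a * d) ^ i / i.factorial) * (c * K ^ i) ≤
      c * Real.exp (a * Real.exp (a * K)) := by
  have h1 : ∀ d ∈ range A, ∑ i ∈ range B,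
      a ^ d / d.factorial * ((a * d) ^ i / i.factorial) * (c * K ^ i) ≤
        c * ((a * Real.exp (a * K)) ^ d / d.factorial) := by
    intro d _
    have e : ∀ i ∈ range B, a ^ d / d.factorial * ((a * d) ^ i / i.factorial) * (c * K ^ i) =
        c * (a ^ d / d.factorial) * ((d * (a * K)) ^ i / i.factorial) := by
      intro i _
      simp only [mul_pow]; ring
    rw [sum_congr rfl e, ← mul_sum]
    have h2 := Real.sum_le_exp_of_nonneg (x := d * (a * K)) (by positivity) B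
    rw [Real.exp_nat_mul] at h2
    refine (mul_le_mul_of_nonneg_left h2 (by positivity)).trans_eq ?_
    rw [mul_pow]; ring
  refine (sum_le_sum h1).trans ?_
  rw [← mul_sum]
  exact mul_le_mul_of_nonneg_left (Real.sum_le_exp_of_nonneg (by positivity) A) hc

variable {V : Type} [Fintype V]

theorem beta_nonneg (l : List (Pr V)) : 0 ≤ beta l := av_nonneg fun _ => ind_nonneg _

theorem yy_le (l : List (Pr V)) : yy (hr l) ≤ yg l + beta l := by
  rw [yy, yg, beta, ← av_add]
  exact av_mono fun v => (ind_mono (by tauto)).trans (ind_or_le _ _)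

theorem chi_yy_le (l : List (Pr V)) :
    chi (hr l) * yy (hr l) ≤ ind ((hr l).Nonempty ∧ True) * yg l + beta l := by
  by_cases h : (hr l).Nonempty
  · rw [chi_pos h, ind_pos ⟨h, trivial⟩, one_mul, one_mul]; exact yy_le l
  · rw [chi, ind_neg h, ind_neg fun h1 => h h1.1, zero_mul, zero_mul, zero_add]
    exact beta_nonneg l

variable [DecidableEq V]

theorem lay_one (hL : RowLAY) (h : 2 ≤ Fintype.card V) (i M : ℕ) (hM : M ≤ 3 * Fintype.card V)
    (P : St V → Prop) : sm hs M (fun T => ind (T.Nonempty ∧ P T) * rho T U i) Set.univ ≤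
      2 ^ 29 * (2 ^ 30) ^ i := by
  haveI := nonempty_of_two h
  refine le_trans (sm_mono _ _ (fun T => ?_) _)
    ((hL V h i 1 Set.univ M one_pos le_rfl hM).trans_eq (mul_one _))
  exact mul_le_mul_of_nonneg_right
    (ind_mono fun hT => ⟨hT.1, by rw [one_pow]; exact rho_le_one _ _ _⟩) (rho_nonneg _ _ _)

theorem lay_k (hL : RowLAY) (h : 2 ≤ Fintype.card V) (k i M : ℕ) (hM : M ≤ 3 * Fintype.card V) :
    sm hs M (fun T : St V => ind (T.Nonempty ∧ rho T U k ≤ (1 / 2 ^ k) ^ 29) * rho T U i)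
      Set.univ ≤ 2 ^ 29 / 2 ^ k * (2 * 2 ^ 30) ^ i := by
  haveI := nonempty_of_two h
  have hk : (1 : ℝ) ≤ 2 ^ k := one_le_pow₀ (by norm_num)
  have hi : (1 : ℝ) ≤ 2 ^ i := one_le_pow₀ (by norm_num)
  have hp : (0 : ℝ) ≤ 2 ^ 29 * (2 ^ 30) ^ i := by positivity
  rcases le_total i k with hik | hik
  · have h1 := hL V h i (1 / 2 ^ k) Set.univ M (by positivity)
      (by rw [div_le_one (by positivity)]; exact hk) hM
    refine le_trans (sm_mono _ _ (fun T => ?_) _) (h1.trans ?_)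
    · exact mul_le_mul_of_nonneg_right
        (ind_mono fun hT => ⟨hT.1, (rho_mono_j T U hik).trans hT.2⟩) (rho_nonneg _ _ _)
    · have e : (2 : ℝ) ^ 29 / 2 ^ k * (2 * 2 ^ 30) ^ i =
          2 ^ 29 * (2 ^ 30) ^ i * (2 ^ i / 2 ^ k) := by rw [mul_pow]; ring
      rw [e]
      exact mul_le_mul_of_nonneg_left (div_le_div_of_nonneg_right hi (by positivity)) hp
  · refine (lay_one hL h i M hM _).trans ?_
    have e : (2 : ℝ) ^ 29 / 2 ^ k * (2 * 2 ^ 30) ^ i =
        2 ^ 29 * (2 ^ 30) ^ i * (2 ^ i / 2 ^ k) := by rw [mul_pow]; ring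
    rw [e]
    refine le_mul_of_one_le_right hp ?_
    rw [le_div_iff₀ (by positivity), one_mul]
    exact pow_le_pow_right₀ (by norm_num) hik

end YY

theorem rowY (hC : RowCAV) (hL : RowLAY) (hB : RowBETA) : RowY := by
  obtain ⟨a, ha, hC⟩ := hC
  obtain ⟨C, hB⟩ := hB
  refine ⟨2 ^ 29 * Real.exp (a * Real.exp (a * 2 ^ 30)) + 3 * C, fun V _ _ h M hM => ?_⟩
  have h1 := (hC V h M (fun _ => True) (fun i => 2 ^ 29 * (2 ^ 30) ^ i) hM (fun _ _ _ _ => trivial)
    fun i => YY.lay_one hL h i M hM _).trans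
    (YY.expsum ha (by positivity) (by positivity) _ _)
  have h2 : (2 : ℝ) ≤ Fintype.card V := by exact_mod_cast h
  have h0 : 0 ≤ C / Fintype.card V :=
    (EL_nonneg 0 fun l => YY.beta_nonneg l).trans (hB V h 0 (Nat.zero_le _))
  have h3 : ∑ m ∈ range M, EL m (fun l : List (Pr V) => beta l) ≤ 3 * C := by
    refine (sum_le_sum fun m hm => hB V h m (by have := mem_range.1 hm; omega)).trans ?_
    rw [sum_const, card_range, nsmul_eq_mul]
    have h4 : (M : ℝ) ≤ 3 * Fintype.card V := by exact_mod_cast hM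
    refine (mul_le_mul_of_nonneg_right h4 h0).trans_eq ?_
    field_simp
  rw [sm_hs_eq]
  refine le_trans (sum_le_sum fun m _ => EL_mono m fun l => YY.chi_yy_le l) ?_
  simp only [EL_add, sum_add_distrib]
  exact add_le_add h1 h3

theorem rowYP (hC : RowCAV) (hL : RowLAY) : RowYP := by
  obtain ⟨a, ha, hC⟩ := hC
  intro η hη
  set E : ℝ := Real.exp (a * Real.exp (a * (2 * 2 ^ 30))) with hE
  have hE0 : 0 < E := Real.exp_pos _
  obtain ⟨k, hk⟩ := pow_unbounded_of_one_lt (2 ^ 29 * E / η) (show (1 : ℝ) < 2 by norm_num)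
  refine ⟨k + 1, (1 / 2 ^ (k + 1)) ^ 29, by omega, by positivity, fun V _ _ h M hM => ?_⟩
  have h1 := (hC V h M (fun T => rho T U (k + 1) ≤ (1 / 2 ^ (k + 1)) ^ 29)
    (fun i => 2 ^ 29 / 2 ^ (k + 1) * (2 * 2 ^ 30) ^ i) hM
    (fun S T hT hP => (rho_mono hT U _).trans hP) fun i => YY.lay_k hL h (k + 1) i M hM).trans
    (YY.expsum ha (by positivity) (by positivity) _ _)
  refine h1.trans ?_
  rw [← hE, div_mul_eq_mul_div, div_le_iff₀ (by positivity), pow_succ 2 k]
  rw [div_lt_iff₀ hη] at hk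
  have h2 : (0 : ℝ) < 2 ^ k * η := by positivity
  linarith

end Pool.Agent.MP_81f5b7_pr.H42
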