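import Pool.Agent.MP_81f5b7_pr.H42.Proc

/-! Sets of 3-colourings under random constraints: definitions. -/

set_option autoImplicit false

namespace Pool.Agent.MP_81f5b7_pr.H42

open Finset

open Classical in
/-- indicator -/
noncomputable def ind (p : Prop) : ℝ := if p then 1 else 0

section Gen

/-- average over a finite type -/
noncomputable def av {α : Type} [Fintype α] (f : α → ℝ) : ℝ := (∑ a, f a) / Fintype.card α

/-- average over lists of length `m` with independent uniform letters -/
noncomputable def EL {α : Type} [Fintype α] : ℕ → (List α → ℝ) → ℝ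
  | 0, f => f []
  | m + 1, f => av fun a => EL m fun l => f (a :: l)

/-- expectation of `f` after `m` random steps from `S` -/
noncomputable def it {α X : Type} [Fintype α] (st : X → α → X) (m : ℕ) (f : X → ℝ) (S : X) : ℝ :=
  EL m fun l => f (l.foldl st S)

/-- expectation of the sum of `f` over the first `M` states from `S` -/
noncomputable def sm {α X : Type} [Fintype α] (st : X → α → X) (M : ℕ) (f : X → ℝ) (S : X) : ℝ :=
  ∑ m ∈ range M, it st m f S

end Gen

/-- states: sets of colourings -/
abbrev St (V : Type) : Type := Set (V → Fin 3)

/-- colour sets attached to colourings -/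
abbrev Lst (V : Type) : Type := (V → Fin 3) → Finset (Fin 3)

/-- ordered pairs of distinct vertices -/
abbrev Pr (V : Type) : Type := {p : V × V // p.1 ≠ p.2}

section Col

variable {V : Type}

/-- the colourings of `S` that give `x` and `y` different colours -/
def cut (S : St V) (x y : V) : St V := {σ | σ ∈ S ∧ σ x ≠ σ y}

/-- hard step -/
def hs (S : St V) (e : Pr V) : St V := cut S e.1.1 e.1.2

/-- hard step in which a loop kills -/
def ls (S : St V) (e : V × V) : St V := cut S e.1 e.2

open Classical in
/-- greedy step -/
noncomputable def gs (S : St V) (e : Pr V) : St V := if (hs S e).Nonempty then hs S e else S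

/-- the state after the hard steps of `l` from all colourings -/
def hr (l : List (Pr V)) : St V := l.foldl hs Set.univ

/-- the state after the greedy steps of `l` from all colourings -/
noncomputable def gr (l : List (Pr V)) : St V := l.foldl gs Set.univ

/-- indicator of being alive -/
noncomputable def chi (S : St V) : ℝ := ind S.Nonempty

/-- for every colouring of `S`, each colour of `Q σ` appears on the list `z` -/
def cov (S : St V) (Q : Lst V) (z : List V) : Prop := ∀ σ ∈ S, ∀ c ∈ Q σ, ∃ x ∈ z, σ x = c

/-- remove the colour of `x` -/
def er (Q : Lst V) (x : V) : Lst V := fun σ => (Q σ).erase (σ x)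

/-- all colours -/
def U : Lst V := fun _ => univ

/-- forced to be equal -/
def eqv (S : St V) (x y : V) : Prop := ∀ σ ∈ S, σ x = σ y

/-- has a forced-equal partner -/
def par (S : St V) (v : V) : Prop := ∃ w, w ≠ v ∧ eqv S v w

/-- adjacent through a letter of `l` -/
def adj (l : List (Pr V)) (x y : V) : Prop := ∃ e ∈ l, e.1 = (x, y) ∨ e.1 = (y, x)

/-- `v` lies in a triangle of `l` -/
def tri (l : List (Pr V)) (v : V) : Prop := ∃ u w, adj l v u ∧ adj l v w ∧ adj l u w

variable [Fintype V]

/-- probability that `j` random vertices cover -/
noncomputable def rho (S : St V) (Q : Lst V) (j : ℕ) : ℝ := EL j fun z => ind (cov S Q z)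

/-- the gain of `rho` from the constraint `x, y` -/
noncomputable def JJ (S : St V) (Q : Lst V) (j : ℕ) (x y : V) : ℝ :=
  EL j fun z => (1 - ind (cov S Q z)) * ind (cov S Q (x :: z)) * ind (cov S Q (y :: z))

/-- fraction of vertices with a partner -/
noncomputable def yy (S : St V) : ℝ := av fun v => ind (par S v)

/-- fraction of vertices in a triangle -/
noncomputable def beta (l : List (Pr V)) : ℝ := av fun v => ind (tri l v)

/-- fraction of vertices with a partner and in no triangle -/
noncomputable def yg (l : List (Pr V)) : ℝ := av fun v => ind (par (hr l) v ∧ ¬ tri l v)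

/-- three large frozen sets with different colours -/
def Tri (S : St V) (δ : ℝ) : Prop :=
  ∃ A : Fin 3 → Finset V, (∀ i, δ * Fintype.card V ≤ (A i).card) ∧
    ∀ σ ∈ S, ∀ i j, ∀ x ∈ A i, ∀ y ∈ A j, (σ x = σ y ↔ i = j)

variable [DecidableEq V]

/-- probability of being alive after `m` hard steps -/
noncomputable def al (m : ℕ) (S : St V) : ℝ := it hs m chi S

/-- expected life time, cut at `M` -/
noncomputable def life (M : ℕ) (S : St V) : ℝ := sm hs M chi S

/-- expected number of the first `M` states that are alive and satisfy `P` -/
noncomputable def cnt (M : ℕ) (P : St V → Prop) (S : St V) : ℝ :=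
  sm hs M (fun T => ind (T.Nonempty ∧ P T)) S

/-- probability that the next hard step kills -/
noncomputable def hz (S : St V) : ℝ := av fun e : Pr V => ind (¬ (hs S e).Nonempty)

end Col

/-- survival probability on `n` vertices after `m` steps -/
noncomputable def pp (n m : ℕ) : ℝ := al m (Set.univ : St (Fin n))

/-- the same in the model where loops are drawn and kill -/
noncomputable def pl (n m : ℕ) : ℝ := it ls m chi (Set.univ : St (Fin n))

/-- the unordered pair of a letter -/
def toPair {n : ℕ} (e : Pr (Fin n)) : Pair n :=
  ⟨s(e.1.1, e.1.2), by simpa [Sym2.mk_isDiag_iff] using e.2⟩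

/-- the list `l` is an oriented copy of the first pairs of `π` -/
def Match {n : ℕ} (π : Scan n) (l : List (Pr (Fin n))) : Prop :=
  ∀ (i : ℕ) (hi : i < l.length), ∃ h : i < Fintype.card (Pair n), toPair l[i] = π ⟨i, h⟩

end Pool.Agent.MP_81f5b7_pr.H42
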