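import Pool.Agent.MP_81f5b7_pr.H42.Kit

/-! The two final statements from the rows. -/

set_option autoImplicit false
set_option linter.style.haveILetI false

namespace Pool.Agent.MP_81f5b7_pr.H42

open Finset Filter

namespace FIN

theorem prob_not {n : ℕ} (P : Scan n → Prop) : prob P = 1 - prob fun π => ¬ P π := by
  classical
  have : Nonempty (Scan n) := ⟨(Fintype.equivFin _).symm⟩
  have h0 : (Nat.card (Scan n) : ℝ) ≠ 0 := by exact_mod_cast (Nat.card_pos (α := Scan n)).ne'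
  have h1 : Nat.card {π : Scan n // ¬ P π} + Nat.card {π : Scan n // P π} = Nat.card (Scan n) := by
    simp only [Nat.card_eq_fintype_card]
    rw [Fintype.card_subtype_compl]
    exact Nat.sub_add_cancel (Fintype.card_subtype_le _)
  have h2 : (Nat.card {π : Scan n // ¬ P π} : ℝ) + Nat.card {π : Scan n // P π} =
      Nat.card (Scan n) := by exact_mod_cast h1
  unfold prob
  field_simp
  linarith

theorem prob_nonneg {n : ℕ} (P : Scan n → Prop) : 0 ≤ prob P := by unfold prob; positivity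

theorem exists_death {V : Type} (l : List (Pr V)) {a b : ℕ} (ha : (hr (l.take a)).Nonempty)
    (hb : ¬ (hr (l.take b)).Nonempty) :
    ∃ t, a ≤ t ∧ t < b ∧ (hr (l.take t)).Nonempty ∧ ¬ (hr (l.take (t + 1))).Nonempty := by
  induction b with
  | zero => exact absurd (ha.mono (hr_take_anti l (Nat.zero_le a))) hb
  | succ b ih =>
    by_cases h : (hr (l.take b)).Nonempty
    · refine ⟨b, ?_, Nat.lt_succ_self b, h, hb⟩
      by_contra hab
      exact hb (ha.mono (hr_take_anti l (by omega)))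
    · obtain ⟨t, h1, h2, h3⟩ := ih h
      exact ⟨t, h1, by omega, h3⟩

end FIN

open FIN

theorem goalA (hT : RowTHR) (hL : RowLINK) (hS : RowSEM) : GoalA := by
  obtain ⟨c, hc0, hc3, hT⟩ := hT
  obtain ⟨C, hC, hL⟩ := hL
  refine ⟨c, fun ε hε => ?_⟩
  rw [Metric.tendsto_nhds]
  intro η hη
  obtain ⟨e, he0, he1, he2⟩ : ∃ e : ℝ, 0 < e ∧ e ≤ ε / 2 ∧ e ≤ 1 / 2 :=
    ⟨min (ε / 2) (1 / 2), by positivity, min_le_left _ _, min_le_right _ _⟩
  have hη' : 0 < η / (3 * C) := by positivity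
  filter_upwards [hT e (η / (3 * C)) he0 hη', hL, eventually_ge_atTop 2,
    tendsto_natCast_atTop_atTop.eventually_ge_atTop (2 / ε)] with n hT hL hn hnε
  have hn' : (2 : ℝ) ≤ n := by exact_mod_cast hn
  haveI : Nonempty (Pr (Fin n)) := nonempty_Pr (by simpa using hn)
  have hε1 : 1 ≤ ε / 2 * n := by rw [div_le_iff₀ hε] at hnε; linarith
  set m₁ := ⌊(c - e) * n⌋₊ with hm₁
  set m₂ := ⌈(c + e) * n⌉₊ with hm₂
  have h2 : (c + e) * n ≤ m₂ := Nat.le_ceil _
  have h2' : (m₂ : ℝ) < (c + e) * n + 1 := Nat.ceil_lt_add_one (by positivity)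
  have h1' : (c - e) * n < m₁ + 1 := Nat.lt_floor_add_one _
  have h24 : m₂ ≤ 4 * n := by
    have : (m₂ : ℝ) ≤ 4 * n := by nlinarith
    exact_mod_cast this
  have h12 : m₁ ≤ m₂ := Nat.floor_le_of_le (by nlinarith)
  have hp1 : 1 - η / (3 * C) ≤ pp n m₁ := by
    by_cases h : 0 ≤ (c - e) * n
    · exact (hT m₁).1 (Nat.floor_le h)
    · rw [hm₁, Nat.floor_of_nonpos (not_le.1 h).le, pp_zero]; linarith
  have hp2 := (hT m₂).2 h2
  have key := hL m₂ h24
    (fun π => ¬ ∃ t : ℕ, FirstRej π t ∧ |(t : ℝ) - c * n| ≤ ε * n)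
    (fun l => ¬ (hr (l.take m₁)).Nonempty ∨ (hr (l.take m₂)).Nonempty) (by
      intro π l hl hm hb
      by_contra hB
      rw [not_or, not_not] at hB
      obtain ⟨t, t1, t2, t3⟩ := exists_death l hB.1 hB.2
      refine hb ⟨t, ((hS n π l hm).2 t (hl ▸ t2)).2 t3, ?_⟩
      have t1' : (m₁ : ℝ) ≤ t := by exact_mod_cast t1
      have t2' : (t : ℝ) ≤ m₂ := by exact_mod_cast t2.le
      rw [abs_le]; constructor <;> nlinarith)
  have hE : EL m₂ (fun l : List (Pr (Fin n)) =>
      ind (¬ (hr (l.take m₁)).Nonempty ∨ (hr (l.take m₂)).Nonempty)) ≤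
      (1 - pp n m₁) + pp n m₂ := by
    refine (EL_mono _ fun l => ind_or_le _ _).trans_eq ?_
    simp only [ind_not]
    rw [EL_add, EL_sub, EL_const, EL_take h12 fun l => ind (hr l).Nonempty,
      EL_take le_rfl fun l => ind (hr l).Nonempty]
    rfl
  rw [prob_not, Real.dist_eq, sub_sub_cancel_left, abs_neg, abs_of_nonneg (prob_nonneg _)]
  have h3 : C * (2 * (η / (3 * C))) = 2 / 3 * η := by field_simp
  have h4 := mul_le_mul_of_nonneg_left (hE.trans (show _ ≤ 2 * (η / (3 * C)) by linarith)) hC.le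
  linarith

theorem goalB (hI : RowIGN) (hL : RowLINK) (hS : RowSEM) : GoalB := by
  obtain ⟨C, hC, hL⟩ := hL
  intro η hη
  obtain ⟨δ, hδ, hI⟩ := hI (η / C) (by positivity)
  refine ⟨δ, hδ, fun ζ hζ => ?_⟩
  obtain ⟨K, hI⟩ := hI ζ hζ
  refine ⟨K, ?_⟩
  filter_upwards [hI, hL, eventually_ge_atTop K, eventually_ge_atTop 1] with n hI hL hK hn
  have hn' : (0 : ℝ) < n := by exact_mod_cast hn
  have key := hL (3 * n + K) (by omega)
    (fun π => ¬ ∃ t : ℕ, FirstRej π t ∧
      (Nat.card {v : Fin n // Partnered (graph π (t - K)) v} : ℝ) ≤ ζ * n ∧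
      Frozen (graph π (t + K)) δ)
    (fun l => ¬ ∃ t, t < 3 * n ∧
      (hr (l.take t)).Nonempty ∧ ¬ (hr (l.take (t + 1))).Nonempty ∧
      yy (hr (l.take (t - K))) ≤ ζ ∧ Tri (gr (l.take (t + K))) δ) (by
      rintro π l hl hm hb ⟨t, t1, t2, t3, t4, A, hA, t5⟩
      obtain ⟨s1, s2⟩ := hS n π l hm
      refine hb ⟨t, (s2 t (by omega)).2 ⟨t2, t3⟩, ?_, A, by simpa using hA, fun c => t5 c ?_⟩
      · classical
        have ha : (hr (l.take (t - K))).Nonempty := t2.mono (hr_take_anti l (Nat.sub_le _ _))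
        rw [← gr_of_alive ha, s1 _ (by omega), yy, av_ind, Fintype.card_fin,
          div_le_iff₀ hn'] at t4
        refine le_trans ?_ t4
        rw [Nat.card_eq_fintype_card, Fintype.card_subtype]
        refine Nat.cast_le.2 (card_le_card fun v hv => ?_)
        simp only [mem_filter, mem_univ, true_and] at hv ⊢
        obtain ⟨w, hw, h⟩ := hv
        exact ⟨w, hw, fun σ hσ => h (SimpleGraph.Coloring.mk σ fun {x y} hxy => hσ x y hxy)⟩
      · rw [s1 _ (by omega)]
        exact fun x y hxy => c.valid hxy)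
  rw [prob_not]
  have h4 := mul_le_mul_of_nonneg_left hI hC.le
  have h3 : C * (η / C) = η := by field_simp
  linarith

end Pool.Agent.MP_81f5b7_pr.H42
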