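import Pool.Agent.MP_81f5b7_pr.H42.Spec

/-! Averages, random lists and random runs: basic lemmas. -/

set_option autoImplicit false
set_option linter.style.haveILetI false

namespace Pool.Agent.MP_81f5b7_pr.H42

open Finset

theorem ind_pos {p : Prop} (h : p) : ind p = 1 := by simp [ind, h]
theorem ind_neg {p : Prop} (h : ¬ p) : ind p = 0 := by simp [ind, h]
theorem ind_nonneg (p : Prop) : 0 ≤ ind p := by unfold ind; split_ifs <;> norm_num
theorem ind_le_one (p : Prop) : ind p ≤ 1 := by unfold ind; split_ifs <;> norm_num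
theorem ind_mono {p q : Prop} (h : p → q) : ind p ≤ ind q := by
  by_cases hp : p
  · rw [ind_pos hp, ind_pos (h hp)]
  · rw [ind_neg hp]; exact ind_nonneg q
theorem ind_congr {p q : Prop} (h : p ↔ q) : ind p = ind q := by rw [propext h]
theorem ind_and (p q : Prop) : ind (p ∧ q) = ind p * ind q := by
  by_cases hp : p <;> by_cases hq : q <;> simp [ind, hp, hq]
theorem ind_not (p : Prop) : ind (¬ p) = 1 - ind p := by
  by_cases hp : p <;> simp [ind, hp]
theorem ind_or_le (p q : Prop) : ind (p ∨ q) ≤ ind p + ind q := by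
  by_cases hp : p <;> by_cases hq : q <;> simp [ind, hp, hq]
theorem ind_sq (p : Prop) : ind p ^ 2 = ind p := by
  by_cases hp : p <;> simp [ind, hp]
theorem ind_exists_le {ι : Type} (s : Finset ι) (p : ι → Prop) :
    ind (∃ i ∈ s, p i) ≤ ∑ i ∈ s, ind (p i) := by
  by_cases h : ∃ i ∈ s, p i
  · obtain ⟨i, hi, hp⟩ := h
    rw [ind_pos ⟨i, hi, hp⟩, ← ind_pos hp]
    exact single_le_sum (f := fun i => ind (p i)) (fun j _ => ind_nonneg _) hi
  · rw [ind_neg h]; exact sum_nonneg fun j _ => ind_nonneg _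

section av
variable {α β : Type} [Fintype α] [Fintype β]

theorem av_const [Nonempty α] (c : ℝ) : av (fun _ : α => c) = c := by
  simp [av]
theorem av_zero : av (fun _ : α => (0 : ℝ)) = 0 := by simp [av]
theorem av_add (f g : α → ℝ) : av (fun a => f a + g a) = av f + av g := by
  simp [av, sum_add_distrib, add_div]
theorem av_sub (f g : α → ℝ) : av (fun a => f a - g a) = av f - av g := by
  simp [av, sum_sub_distrib, sub_div]
theorem av_mul_left (c : ℝ) (f : α → ℝ) : av (fun a => c * f a) = c * av f := by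
  simp [av, ← mul_sum, mul_div_assoc]
theorem av_mul_right (c : ℝ) (f : α → ℝ) : av (fun a => f a * c) = av f * c := by
  simp only [mul_comm _ c]; exact av_mul_left c f
theorem av_mono {f g : α → ℝ} (h : ∀ a, f a ≤ g a) : av f ≤ av g :=
  div_le_div_of_nonneg_right (sum_le_sum fun a _ => h a) (Nat.cast_nonneg _)
theorem av_nonneg {f : α → ℝ} (h : ∀ a, 0 ≤ f a) : 0 ≤ av f :=
  div_nonneg (sum_nonneg fun a _ => h a) (Nat.cast_nonneg _)
theorem av_le [Nonempty α] {f : α → ℝ} {c : ℝ} (h : ∀ a, f a ≤ c) : av f ≤ c :=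
  (av_mono h).trans_eq (av_const c)
theorem le_av [Nonempty α] {f : α → ℝ} {c : ℝ} (h : ∀ a, c ≤ f a) : c ≤ av f :=
  (av_const (α := α) c).symm.trans_le (av_mono h)
theorem av_sum {ι : Type} (s : Finset ι) (f : ι → α → ℝ) :
    av (fun a => ∑ i ∈ s, f i a) = ∑ i ∈ s, av (f i) := by
  simp only [av]; rw [sum_comm, sum_div]
theorem av_comm (f : α → β → ℝ) :
    av (fun a => av fun b => f a b) = av fun b => av fun a => f a b := by
  simp only [av, ← sum_div]; rw [sum_comm, div_div, div_div, mul_comm]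
theorem av_prod (f : α → β → ℝ) : av (fun p : α × β => f p.1 p.2) = av fun a => av fun b => f a b := by
  simp only [av, ← sum_div]
  rw [Fintype.sum_prod_type', div_div, Fintype.card_prod, Nat.cast_mul, mul_comm]
theorem av_sq_le [Nonempty α] (f : α → ℝ) : av f ^ 2 ≤ av fun a => f a ^ 2 := by
  have h : 0 ≤ av fun a => (f a - av f) ^ 2 := av_nonneg fun a => sq_nonneg _
  have e : (fun a => (f a - av f) ^ 2) = fun a => f a ^ 2 - (2 * av f) * f a + av f ^ 2 := by
    funext a; ring
  rw [e, av_add, av_sub, av_mul_left, av_const] at h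
  nlinarith
theorem av_exists_ge [Nonempty α] (f : α → ℝ) : ∃ a, av f ≤ f a := by
  obtain ⟨a, -, ha⟩ := exists_max_image univ f univ_nonempty
  exact ⟨a, av_le fun b => ha b (mem_univ b)⟩
theorem av_equiv (e : α ≃ β) (f : β → ℝ) : av (fun a => f (e a)) = av f := by
  simp only [av]; rw [Fintype.card_congr e, Equiv.sum_comp e f]
open Classical in
theorem av_ind (p : α → Prop) : av (fun a => ind (p a)) =
    ((univ.filter p).card : ℝ) / Fintype.card α := by
  simp only [av, ind]; rw [sum_boole]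
end av

section EL
variable {α β : Type} [Fintype α] [Fintype β]

@[simp] theorem EL_zero (f : List α → ℝ) : EL 0 f = f [] := rfl
theorem EL_succ (m : ℕ) (f : List α → ℝ) :
    EL (m + 1) f = av fun a => EL m fun l => f (a :: l) := rfl
theorem EL_const [Nonempty α] (m : ℕ) (c : ℝ) : EL m (fun _ : List α => c) = c := by
  induction m with
  | zero => rfl
  | succ m ih => rw [EL_succ]; simp only [ih]; exact av_const c
theorem EL_add (m : ℕ) (f g : List α → ℝ) : EL m (fun l => f l + g l) = EL m f + EL m g := by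
  induction m generalizing f g with
  | zero => rfl
  | succ m ih => simp only [EL_succ, ih, av_add]
theorem EL_mul_left (m : ℕ) (c : ℝ) (f : List α → ℝ) : EL m (fun l => c * f l) = c * EL m f := by
  induction m generalizing f with
  | zero => rfl
  | succ m ih => simp only [EL_succ, ih, av_mul_left]
theorem EL_mul_right (m : ℕ) (c : ℝ) (f : List α → ℝ) : EL m (fun l => f l * c) = EL m f * c := by
  simp only [mul_comm _ c]; exact EL_mul_left m c f
theorem EL_sub (m : ℕ) (f g : List α → ℝ) : EL m (fun l => f l - g l) = EL m f - EL m g := by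
  induction m generalizing f g with
  | zero => rfl
  | succ m ih => simp only [EL_succ, ih, av_sub]
theorem EL_mono' (m : ℕ) {f g : List α → ℝ} (h : ∀ l, l.length = m → f l ≤ g l) :
    EL m f ≤ EL m g := by
  induction m generalizing f g with
  | zero => exact h [] rfl
  | succ m ih => exact av_mono fun a => ih fun l hl => h _ (by simp [hl])
theorem EL_mono (m : ℕ) {f g : List α → ℝ} (h : ∀ l, f l ≤ g l) : EL m f ≤ EL m g :=
  EL_mono' m fun l _ => h l
theorem EL_congr (m : ℕ) {f g : List α → ℝ} (h : ∀ l, l.length = m → f l = g l) :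
    EL m f = EL m g :=
  le_antisymm (EL_mono' m fun l hl => (h l hl).le) (EL_mono' m fun l hl => (h l hl).ge)
theorem EL_fun_zero (m : ℕ) : EL m (fun _ : List α => (0 : ℝ)) = 0 := by
  simpa using EL_mul_left m 0 (fun _ : List α => (0 : ℝ))
theorem EL_nonneg (m : ℕ) {f : List α → ℝ} (h : ∀ l, 0 ≤ f l) : 0 ≤ EL m f :=
  (EL_fun_zero m).symm.trans_le (EL_mono m h)
theorem EL_le [Nonempty α] (m : ℕ) {f : List α → ℝ} {c : ℝ} (h : ∀ l, l.length = m → f l ≤ c) :
    EL m f ≤ c := (EL_mono' m h).trans_eq (EL_const m c)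
theorem le_EL [Nonempty α] (m : ℕ) {f : List α → ℝ} {c : ℝ} (h : ∀ l, l.length = m → c ≤ f l) :
    c ≤ EL m f := (EL_const (α := α) m c).symm.trans_le (EL_mono' m h)
theorem EL_sum {ι : Type} (m : ℕ) (s : Finset ι) (f : ι → List α → ℝ) :
    EL m (fun l => ∑ i ∈ s, f i l) = ∑ i ∈ s, EL m (f i) := by
  induction m generalizing f with
  | zero => rfl
  | succ m ih => simp only [EL_succ, ih, av_sum]
theorem EL_av (m : ℕ) (f : β → List α → ℝ) :
    EL m (fun l => av fun b => f b l) = av fun b => EL m (f b) := by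
  simp only [av, div_eq_mul_inv, EL_mul_right, EL_sum]
theorem EL_comm (a b : ℕ) (f : List α → List β → ℝ) :
    EL a (fun l => EL b fun l' => f l l') = EL b fun l' => EL a fun l => f l l' := by
  induction a generalizing f with
  | zero => rfl
  | succ a ih => simp only [EL_succ, ih, EL_av]
theorem EL_sq_le [Nonempty α] (m : ℕ) (f : List α → ℝ) : EL m f ^ 2 ≤ EL m fun l => f l ^ 2 := by
  induction m generalizing f with
  | zero => exact le_rfl
  | succ m ih => exact (av_sq_le _).trans (av_mono fun a => ih _)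
theorem EL_exists_ge [Nonempty α] (m : ℕ) (f : List α → ℝ) :
    ∃ l : List α, l.length = m ∧ EL m f ≤ f l := by
  induction m generalizing f with
  | zero => exact ⟨[], rfl, le_rfl⟩
  | succ m ih =>
    obtain ⟨a, ha⟩ := av_exists_ge fun a => EL m fun l => f (a :: l)
    obtain ⟨l, hl, h⟩ := ih fun l => f (a :: l)
    exact ⟨a :: l, by simp [hl], ha.trans h⟩
theorem EL_append (a b : ℕ) (f : List α → ℝ) :
    EL (a + b) f = EL a fun l => EL b fun l' => f (l ++ l') := by
  induction a generalizing f with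
  | zero => simp
  | succ a ih => rw [Nat.add_right_comm]; simp only [EL_succ, ih, List.cons_append]
theorem EL_take [Nonempty α] {k m : ℕ} (h : k ≤ m) (f : List α → ℝ) :
    EL m (fun l => f (l.take k)) = EL k f := by
  obtain ⟨b, rfl⟩ := Nat.exists_eq_add_of_le h
  rw [EL_append]
  refine EL_congr k fun l hl => ?_
  have : ∀ l' : List α, (l ++ l').take k = l := fun l' => by rw [← hl]; simp
  simp only [this, EL_const]
theorem EL_snoc (m : ℕ) (f : List α → ℝ) :
    EL (m + 1) f = EL m fun l => av fun a => f (l ++ [a]) := by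
  rw [EL_append]; rfl
theorem EL_prod (m : ℕ) (g : α → ℝ) : EL m (fun l => (l.map g).prod) = av g ^ m := by
  induction m with
  | zero => simp
  | succ m ih =>
    simp only [EL_succ, List.map_cons, List.prod_cons, EL_mul_left, ih, av_mul_right]; ring
theorem EL_sum_map [Nonempty α] (m : ℕ) (g : α → ℝ) :
    EL m (fun l => (l.map g).sum) = m * av g := by
  induction m with
  | zero => simp
  | succ m ih =>
    simp only [EL_succ, List.map_cons, List.sum_cons, EL_add, EL_const, ih, av_add, av_const]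
    push_cast; ring
theorem EL_eq_sum (m : ℕ) (f : List α → ℝ) :
    EL m f = (∑ v : Fin m → α, f (List.ofFn v)) / (Fintype.card α : ℝ) ^ m := by
  induction m generalizing f with
  | zero => simp
  | succ m ih =>
    rw [EL_succ]; simp only [ih, av, ← sum_div]
    rw [div_div, ← pow_succ, ← (Fin.consEquiv fun _ : Fin (m + 1) => α).sum_comp,
      Fintype.sum_prod_type]
    simp [List.ofFn_succ]
theorem EL_equiv (e : α ≃ β) (m : ℕ) (f : List β → ℝ) :
    EL m (fun l : List α => f (l.map e)) = EL m f := by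
  induction m generalizing f with
  | zero => rfl
  | succ m ih =>
    rw [EL_succ, EL_succ, ← av_equiv e]
    simp only [List.map_cons]
    congr 1; funext a; exact ih fun l => f (e a :: l)
end EL

section it
variable {α β X : Type} [Fintype α] [Fintype β] (st : X → α → X)

@[simp] theorem it_zero (f : X → ℝ) (S : X) : it st 0 f S = f S := rfl
theorem it_succ (m : ℕ) (f : X → ℝ) (S : X) :
    it st (m + 1) f S = av fun a => it st m f (st S a) := rfl
theorem it_succ' (m : ℕ) (f : X → ℝ) (S : X) :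
    it st (m + 1) f S = it st m (fun T => av fun a => f (st T a)) S := by
  simp only [it, EL_snoc, List.foldl_append, List.foldl_cons, List.foldl_nil]
theorem it_add (a b : ℕ) (f : X → ℝ) (S : X) :
    it st (a + b) f S = it st a (it st b f) S := by
  simp only [it, EL_append, List.foldl_append]
theorem it_fun_add (m : ℕ) (f g : X → ℝ) (S : X) :
    it st m (fun T => f T + g T) S = it st m f S + it st m g S := EL_add _ _ _
theorem it_fun_sub (m : ℕ) (f g : X → ℝ) (S : X) :
    it st m (fun T => f T - g T) S = it st m f S - it st m g S := EL_sub _ _ _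
theorem it_mul_left (m : ℕ) (c : ℝ) (f : X → ℝ) (S : X) :
    it st m (fun T => c * f T) S = c * it st m f S := EL_mul_left _ _ _
theorem it_av (m : ℕ) (f : β → X → ℝ) (S : X) :
    it st m (fun T => av fun b => f b T) S = av fun b => it st m (f b) S := EL_av _ _
theorem it_const [Nonempty α] (m : ℕ) (c : ℝ) (S : X) : it st m (fun _ => c) S = c := EL_const _ _
theorem it_mono (m : ℕ) {f g : X → ℝ} (h : ∀ T, f T ≤ g T) (S : X) :
    it st m f S ≤ it st m g S := EL_mono _ fun _ => h _
theorem it_nonneg (m : ℕ) {f : X → ℝ} (h : ∀ T, 0 ≤ f T) (S : X) : 0 ≤ it st m f S :=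
  EL_nonneg _ fun _ => h _
omit [Fintype α] in
theorem foldl_inv {I : X → Prop} (hI : ∀ T a, I T → I (st T a)) (l : List α) {S : X} (hS : I S) :
    I (l.foldl st S) := by
  induction l generalizing S with
  | nil => exact hS
  | cons a l ih => exact ih (hI _ _ hS)
theorem it_mono_inv {I : X → Prop} (hI : ∀ T a, I T → I (st T a)) (m : ℕ) {f g : X → ℝ}
    (h : ∀ T, I T → f T ≤ g T) {S : X} (hS : I S) : it st m f S ≤ it st m g S :=
  EL_mono _ fun l => h _ (foldl_inv st hI l hS)

@[simp] theorem sm_zero (f : X → ℝ) (S : X) : sm st 0 f S = 0 := rfl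
theorem sm_succ (M : ℕ) (f : X → ℝ) (S : X) :
    sm st (M + 1) f S = f S + av fun a => sm st M f (st S a) := by
  simp only [sm, sum_range_succ', it_succ, it_zero, av_sum]; ring
theorem sm_succ' (M : ℕ) (f : X → ℝ) (S : X) :
    sm st (M + 1) f S = sm st M f S + it st M f S := sum_range_succ _ _
theorem sm_fun_add (M : ℕ) (f g : X → ℝ) (S : X) :
    sm st M (fun T => f T + g T) S = sm st M f S + sm st M g S := by
  simp only [sm, it_fun_add, sum_add_distrib]
theorem sm_mul_left (M : ℕ) (c : ℝ) (f : X → ℝ) (S : X) :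
    sm st M (fun T => c * f T) S = c * sm st M f S := by
  simp only [sm, it_mul_left, mul_sum]
theorem sm_av (M : ℕ) (f : β → X → ℝ) (S : X) :
    sm st M (fun T => av fun b => f b T) S = av fun b => sm st M (f b) S := by
  simp only [sm, it_av, av_sum]
theorem sm_mono (M : ℕ) {f g : X → ℝ} (h : ∀ T, f T ≤ g T) (S : X) :
    sm st M f S ≤ sm st M g S := sum_le_sum fun _ _ => it_mono st _ h S
theorem sm_mono_inv {I : X → Prop} (hI : ∀ T a, I T → I (st T a)) (M : ℕ) {f g : X → ℝ}
    (h : ∀ T, I T → f T ≤ g T) {S : X} (hS : I S) : sm st M f S ≤ sm st M g S :=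
  sum_le_sum fun _ _ => it_mono_inv st hI _ h hS
theorem sm_nonneg (M : ℕ) {f : X → ℝ} (h : ∀ T, 0 ≤ f T) (S : X) : 0 ≤ sm st M f S :=
  sum_nonneg fun _ _ => it_nonneg st _ h S
theorem sm_mono_left {M M' : ℕ} (hM : M ≤ M') {f : X → ℝ} (h : ∀ T, 0 ≤ f T) (S : X) :
    sm st M f S ≤ sm st M' f S :=
  sum_le_sum_of_subset_of_nonneg (range_mono hM) fun _ _ _ => it_nonneg st _ h S
theorem sm_le [Nonempty α] (M : ℕ) {f : X → ℝ} {c : ℝ} (h : ∀ T, f T ≤ c) (S : X) :
    sm st M f S ≤ M * c := by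
  refine (sum_le_sum fun m _ => (it_mono st m h S).trans_eq (it_const st m c S)).trans_eq ?_
  simp
theorem sm_split (a b : ℕ) (f : X → ℝ) (S : X) :
    sm st (a + b) f S = sm st a f S + it st a (sm st b f) S := by
  induction b with
  | zero =>
    have : it st a (sm st 0 f) S = 0 := EL_fun_zero a
    simp [this]
  | succ b ih =>
    have : sm st (b + 1) f = fun T => sm st b f T + it st b f T := funext fun T => sm_succ' st b f T
    rw [← add_assoc, sm_succ', ih, this, it_fun_add, it_add]; ring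
/-- the potential lemma, on an invariant family of states -/
theorem potential [Nonempty α] {I : X → Prop} (hI : ∀ T a, I T → I (st T a)) {Φ g : X → ℝ} {B : ℝ}
    (hB : ∀ T, I T → Φ T ≤ B) (hd : ∀ T, I T → Φ T + g T ≤ av fun a => Φ (st T a)) (M : ℕ)
    {S : X} (hS : I S) : sm st M g S ≤ B - Φ S := by
  induction M generalizing S with
  | zero => simpa using hB S hS
  | succ M ih =>
    rw [sm_succ]
    have h1 : (av fun a => sm st M g (st S a)) ≤ av fun a => B - Φ (st S a) :=
      av_mono fun a => ih (hI _ _ hS)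
    rw [av_sub, av_const] at h1
    linarith [hd S hS]
/-- the sum along the first states of one long list -/
theorem EL_sum_take [Nonempty α] {M L : ℕ} (h : M ≤ L + 1) (f : List α → ℝ) :
    EL L (fun l => ∑ m ∈ range M, f (l.take m)) = ∑ m ∈ range M, EL m f := by
  rw [EL_sum]
  exact sum_congr rfl fun m hm => EL_take (by have := mem_range.1 hm; omega) f
end it

section state
variable {V : Type}

theorem mem_cut {S : St V} {x y : V} {σ : V → Fin 3} : σ ∈ cut S x y ↔ σ ∈ S ∧ σ x ≠ σ y := Iff.rfl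
theorem cut_subset (S : St V) (x y : V) : cut S x y ⊆ S := fun _ h => h.1
theorem cut_mono {S T : St V} (h : T ⊆ S) (x y : V) : cut T x y ⊆ cut S x y :=
  fun _ hσ => ⟨h hσ.1, hσ.2⟩
theorem cut_comm (S : St V) (x y a b : V) : cut (cut S x y) a b = cut (cut S a b) x y := by
  ext σ; simp only [mem_cut]; tauto
theorem cut_self (S : St V) (x : V) : cut S x x = ∅ := by ext σ; simp [mem_cut]
theorem cut_nonempty {S : St V} {x y : V} : (cut S x y).Nonempty ↔ ¬ eqv S x y := by
  simp only [eqv, not_forall]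
  exact ⟨fun ⟨σ, h⟩ => ⟨σ, h.1, h.2⟩, fun ⟨σ, h1, h2⟩ => ⟨σ, h1, h2⟩⟩
theorem hs_subset (S : St V) (e : Pr V) : hs S e ⊆ S := cut_subset _ _ _
theorem hs_mono {S T : St V} (h : T ⊆ S) (e : Pr V) : hs T e ⊆ hs S e := cut_mono h _ _
theorem hs_comm (S : St V) (e f : Pr V) : hs (hs S e) f = hs (hs S f) e := cut_comm _ _ _ _ _
theorem hs_empty (e : Pr V) : hs (∅ : St V) e = ∅ := Set.subset_empty_iff.1 (hs_subset _ _)
theorem gs_subset (S : St V) (e : Pr V) : gs S e ⊆ S := by
  unfold gs; split_ifs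
  · exact hs_subset _ _
  · exact le_rfl
theorem gs_nonempty {S : St V} (h : S.Nonempty) (e : Pr V) : (gs S e).Nonempty := by
  unfold gs; split_ifs with h1
  · exact h1
  · exact h
theorem gs_of_alive {S : St V} {e : Pr V} (h : (hs S e).Nonempty) : gs S e = hs S e := if_pos h
theorem gs_of_dead {S : St V} {e : Pr V} (h : ¬ (hs S e).Nonempty) : gs S e = S := if_neg h
theorem mem_foldl_hs {S : St V} {l : List (Pr V)} {σ : V → Fin 3} :
    σ ∈ l.foldl hs S ↔ σ ∈ S ∧ ∀ e ∈ l, σ e.1.1 ≠ σ e.1.2 := by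
  induction l generalizing S with
  | nil => simp
  | cons a l ih => simp only [List.foldl_cons, ih, hs, mem_cut, List.forall_mem_cons]; tauto
theorem mem_hr {l : List (Pr V)} {σ : V → Fin 3} : σ ∈ hr l ↔ ∀ e ∈ l, σ e.1.1 ≠ σ e.1.2 := by
  simp [hr, mem_foldl_hs]
theorem foldl_hs_subset (S : St V) (l : List (Pr V)) : l.foldl hs S ⊆ S :=
  fun _ h => (mem_foldl_hs.1 h).1
theorem foldl_hs_mono {S T : St V} (h : T ⊆ S) (l : List (Pr V)) : l.foldl hs T ⊆ l.foldl hs S :=
  fun _ hσ => mem_foldl_hs.2 ⟨h (mem_foldl_hs.1 hσ).1, (mem_foldl_hs.1 hσ).2⟩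
theorem foldl_gs_subset (S : St V) (l : List (Pr V)) : l.foldl gs S ⊆ S :=
  foldl_inv gs (I := fun T => T ⊆ S) (fun T a h => (gs_subset T a).trans h) l le_rfl
theorem foldl_gs_of_alive {S : St V} {l : List (Pr V)} (h : (l.foldl hs S).Nonempty) :
    l.foldl gs S = l.foldl hs S := by
  induction l generalizing S with
  | nil => rfl
  | cons a l ih =>
    simp only [List.foldl_cons] at h ⊢
    rw [gs_of_alive (h.mono (foldl_hs_subset _ _)), ih h]
theorem gr_of_alive {l : List (Pr V)} (h : (hr l).Nonempty) : gr l = hr l := foldl_gs_of_alive h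
theorem hr_take_anti (l : List (Pr V)) {a b : ℕ} (h : a ≤ b) : hr (l.take b) ⊆ hr (l.take a) :=
  fun _ hσ => mem_hr.2 fun e he => mem_hr.1 hσ e ((List.take_subset_take_left l h) he)
theorem chi_nonneg (S : St V) : 0 ≤ chi S := ind_nonneg _
theorem chi_le_one (S : St V) : chi S ≤ 1 := ind_le_one _
theorem chi_mono {S T : St V} (h : T ⊆ S) : chi T ≤ chi S := ind_mono fun hT => hT.mono h
theorem chi_empty : chi (∅ : St V) = 0 := ind_neg (by simp)
theorem chi_pos {S : St V} (h : S.Nonempty) : chi S = 1 := ind_pos h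
theorem eqv_mono {S T : St V} (h : T ⊆ S) {x y : V} (e : eqv S x y) : eqv T x y :=
  fun σ hσ => e σ (h hσ)
theorem par_mono {S T : St V} (h : T ⊆ S) {v : V} (e : par S v) : par T v :=
  let ⟨w, h1, h2⟩ := e; ⟨w, h1, eqv_mono h h2⟩

variable [Fintype V]

theorem nonempty_of_two (h : 2 ≤ Fintype.card V) : Nonempty V :=
  Fintype.card_pos_iff.1 (by omega)
theorem nonempty_Pr (h : 2 ≤ Fintype.card V) : Nonempty (Pr V) := by
  obtain ⟨x, y, hxy⟩ := Fintype.exists_pair_of_one_lt_card (α := V) (by omega)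
  exact ⟨⟨(x, y), hxy⟩⟩
theorem yy_nonneg (S : St V) : 0 ≤ yy S := av_nonneg fun _ => ind_nonneg _
theorem yy_mono {S T : St V} (h : T ⊆ S) : yy S ≤ yy T := av_mono fun _ => ind_mono (par_mono h)
theorem Tri_mono {S T : St V} (h : T ⊆ S) {δ : ℝ} (e : Tri S δ) : Tri T δ :=
  let ⟨A, h1, h2⟩ := e; ⟨A, h1, fun σ hσ => h2 σ (h hσ)⟩

variable [DecidableEq V]

theorem sum_Pr (f : V → V → ℝ) :
    ∑ e : Pr V, f e.1.1 e.1.2 = ∑ x, ∑ y, f x y - ∑ x, f x x := by
  have h1 : ∑ e : Pr V, f e.1.1 e.1.2 = ∑ p ∈ univ.filter fun p : V × V => p.1 ≠ p.2, f p.1 p.2 :=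
    (sum_subtype _ (by simp) fun p : V × V => f p.1 p.2).symm
  have h2 := sum_filter_add_sum_filter_not univ (fun p : V × V => p.1 ≠ p.2) fun p => f p.1 p.2
  have h3 : ∑ p ∈ univ.filter fun p : V × V => ¬ p.1 ≠ p.2, f p.1 p.2 = ∑ x, f x x := by
    rw [sum_filter, Fintype.sum_prod_type]; simp
  rw [h1, ← Fintype.sum_prod_type', ← h2, h3]; ring
theorem card_Pr : (Fintype.card (Pr V) : ℝ) = Fintype.card V * (Fintype.card V - 1) := by
  have := sum_Pr (V := V) fun _ _ => 1
  simp only [sum_const, card_univ, nsmul_eq_mul, mul_one] at this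
  rw [this]; ring
theorem av_Pr (f : V → V → ℝ) : av (fun e : Pr V => f e.1.1 e.1.2) =
    (∑ x, ∑ y, f x y - ∑ x, f x x) / (Fintype.card V * (Fintype.card V - 1)) := by
  rw [av, sum_Pr, card_Pr]
omit [DecidableEq V] in
theorem av_av (f : V → V → ℝ) : (av fun x => av fun y => f x y) =
    (∑ x, ∑ y, f x y) / (Fintype.card V : ℝ) ^ 2 := by
  simp only [av, ← sum_div]; rw [div_div, sq]
/-- the average over all pairs in terms of the average over letters and the diagonal -/
theorem av_av_eq (h : 2 ≤ Fintype.card V) (f : V → V → ℝ) : (av fun x => av fun y => f x y) =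
    (1 - 1 / (Fintype.card V : ℝ)) * av (fun e : Pr V => f e.1.1 e.1.2) +
      (av fun x => f x x) / Fintype.card V := by
  have h2 : (2 : ℝ) ≤ Fintype.card V := by exact_mod_cast h
  have h0 : (Fintype.card V : ℝ) ≠ 0 := by linarith
  have h1 : (Fintype.card V : ℝ) - 1 ≠ 0 := by linarith
  rw [av_av, av_Pr, av]; field_simp; ring
/-- a nonnegative function that vanishes on the diagonal -/
theorem av_av_le_av_Pr (h : 2 ≤ Fintype.card V) {f : V → V → ℝ} (h0 : ∀ x y, 0 ≤ f x y) :
    (av fun x => av fun y => f x y) ≤ av (fun e : Pr V => f e.1.1 e.1.2) +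
      (av fun x => f x x) / Fintype.card V := by
  rw [av_av_eq h]
  have h1 : 0 ≤ av (fun e : Pr V => f e.1.1 e.1.2) := av_nonneg fun _ => h0 _ _
  have h2 : 0 ≤ 1 / (Fintype.card V : ℝ) := by positivity
  nlinarith
theorem av_Pr_le (h : 2 ≤ Fintype.card V) {f : V → V → ℝ} (h0 : ∀ x y, 0 ≤ f x y) :
    av (fun e : Pr V => f e.1.1 e.1.2) ≤ 2 * av fun x => av fun y => f x y := by
  rw [av_av_eq h]
  have h2 : (2 : ℝ) ≤ Fintype.card V := by exact_mod_cast h
  have h1 : 0 ≤ av (fun e : Pr V => f e.1.1 e.1.2) := av_nonneg fun _ => h0 _ _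
  have h3 : 1 / (Fintype.card V : ℝ) ≤ 1 / 2 := one_div_le_one_div_of_le (by norm_num) h2
  have h4 : 0 ≤ (av fun x => f x x) / Fintype.card V :=
    div_nonneg (av_nonneg fun _ => h0 _ _) (by linarith)
  nlinarith

theorem al_zero (S : St V) : al 0 S = chi S := rfl
theorem al_succ (m : ℕ) (S : St V) : al (m + 1) S = av fun e => al m (hs S e) := rfl
theorem al_nonneg (m : ℕ) (S : St V) : 0 ≤ al m S := it_nonneg _ _ chi_nonneg _
theorem al_mono (m : ℕ) {S T : St V} (h : T ⊆ S) : al m T ≤ al m S :=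
  EL_mono _ fun l => chi_mono (foldl_hs_mono h l)
theorem al_empty (m : ℕ) : al m (∅ : St V) = 0 := by
  have : ∀ l : List (Pr V), chi (l.foldl hs (∅ : St V)) = 0 := fun l => by
    rw [Set.subset_empty_iff.1 (foldl_hs_subset _ l), chi_empty]
  simp only [al, it, this, EL_fun_zero]
theorem al_le_chi (h : 2 ≤ Fintype.card V) (m : ℕ) (S : St V) : al m S ≤ chi S :=
  haveI := nonempty_Pr h
  EL_le _ fun l _ => chi_mono (foldl_hs_subset _ l)
theorem al_le_one (h : 2 ≤ Fintype.card V) (m : ℕ) (S : St V) : al m S ≤ 1 :=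
  (al_le_chi h m S).trans (chi_le_one S)
theorem al_anti (h : 2 ≤ Fintype.card V) (S : St V) : Antitone fun m => al m S := by
  refine antitone_nat_of_succ_le fun m => ?_
  haveI := nonempty_Pr h
  exact av_le fun e => al_mono m (hs_subset S e)
theorem al_cover {ι : Type} (m : ℕ) (s : Finset ι) (T : ι → St V) {S : St V}
    (h : ∀ σ ∈ S, ∃ i ∈ s, σ ∈ T i) : al m S ≤ ∑ i ∈ s, al m (T i) := by
  simp only [al, it, ← EL_sum]
  refine EL_mono _ fun l => le_trans (ind_mono ?_) (ind_exists_le s fun i => (l.foldl hs (T i)).Nonempty)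
  rintro ⟨σ, hσ⟩
  obtain ⟨i, hi, h1⟩ := h σ (mem_foldl_hs.1 hσ).1
  exact ⟨i, hi, σ, mem_foldl_hs.2 ⟨h1, (mem_foldl_hs.1 hσ).2⟩⟩
theorem life_eq (M : ℕ) (S : St V) : life M S = ∑ m ∈ range M, al m S := rfl
theorem life_succ (M : ℕ) (S : St V) : life (M + 1) S = chi S + av fun e => life M (hs S e) :=
  sm_succ _ _ _ _
theorem life_nonneg (M : ℕ) (S : St V) : 0 ≤ life M S := sm_nonneg _ _ chi_nonneg _
theorem life_mono (M : ℕ) {S T : St V} (h : T ⊆ S) : life M T ≤ life M S := by
  rw [life_eq, life_eq]; exact sum_le_sum fun m _ => al_mono m h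
theorem life_mono_left {M M' : ℕ} (h : M ≤ M') (S : St V) : life M S ≤ life M' S :=
  sm_mono_left _ h chi_nonneg S
theorem life_empty (M : ℕ) : life M (∅ : St V) = 0 := by simp [life_eq, al_empty]
theorem life_le (h : 2 ≤ Fintype.card V) (M : ℕ) (S : St V) : life M S ≤ M := by
  haveI := nonempty_Pr h
  exact (sm_le hs M chi_le_one S).trans_eq (mul_one _)
theorem cnt_nonneg (M : ℕ) (P : St V → Prop) (S : St V) : 0 ≤ cnt M P S :=
  sm_nonneg _ _ (fun _ => ind_nonneg _) _
theorem cnt_le_life (M : ℕ) (P : St V → Prop) (S : St V) : cnt M P S ≤ life M S :=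
  sm_mono _ _ (fun _ => ind_mono And.left) _
theorem cnt_mono (M : ℕ) {P P' : St V → Prop} (h : ∀ T, T.Nonempty → P T → P' T) (S : St V) :
    cnt M P S ≤ cnt M P' S := sm_mono _ _ (fun T => ind_mono fun hT => ⟨hT.1, h T hT.1 hT.2⟩) _
theorem cnt_or (M : ℕ) (P P' : St V → Prop) (S : St V) :
    cnt M (fun T => P T ∨ P' T) S ≤ cnt M P S + cnt M P' S := by
  unfold cnt; rw [← sm_fun_add]
  exact sm_mono _ _ (fun T => (ind_mono (by tauto)).trans (ind_or_le _ _)) _
theorem cnt_eq_zero (M : ℕ) {P : St V → Prop} (h : ∀ T, T.Nonempty → ¬ P T) (S : St V) :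
    cnt M P S = 0 := by
  have : (fun T : St V => ind (T.Nonempty ∧ P T)) = fun _ => 0 * (0 : ℝ) :=
    funext fun T => by rw [ind_neg fun hT => h T hT.1 hT.2]; ring
  unfold cnt; rw [this, sm_mul_left]; ring
/-- for a property inherited by subsets, counting it is counting life -/
theorem life_eq_cnt (M : ℕ) {P : St V → Prop} (h : ∀ S T : St V, T ⊆ S → P S → P T) {S : St V}
    (hS : P S) : life M S = cnt M P S :=
  le_antisymm (sm_mono_inv hs (I := P) (fun T a hT => h _ _ (hs_subset T a) hT) M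
    (fun _ hT => ind_mono fun h1 => ⟨h1, hT⟩) hS) (cnt_le_life M P S)
/-- states with a short life are counted at most that often -/
theorem first_hit (h : 2 ≤ Fintype.card V) {P : St V → Prop} {L : ℝ} (hL : 0 ≤ L) (M : ℕ)
    (hP : ∀ T, T.Nonempty → P T → ∀ M', M' ≤ M → life M' T ≤ L) (S : St V) : cnt M P S ≤ L := by
  haveI := nonempty_Pr h
  induction M generalizing S with
  | zero => exact hL
  | succ M ih =>
    by_cases hS : S.Nonempty ∧ P S
    · exact (cnt_le_life _ _ _).trans (hP S hS.1 hS.2 _ le_rfl)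
    · unfold cnt; rw [sm_succ, ind_neg hS, zero_add]
      exact av_le fun e => ih (fun T h1 h2 M' h3 => hP T h1 h2 M' (by omega)) _
/-- the potential lemma for counts -/
theorem cnt_potential (h : 2 ≤ Fintype.card V) {P : St V → Prop} {Φ : St V → ℝ} {B γ : ℝ}
    (hγ : 0 < γ) (h0 : ∀ T, 0 ≤ Φ T) (hB : ∀ T, Φ T ≤ B) (hm : ∀ T e, Φ T ≤ Φ (hs T e))
    (hd : ∀ T, T.Nonempty → P T → Φ T + γ ≤ av fun e => Φ (hs T e)) (M : ℕ) (S : St V) :
    cnt M P S ≤ B / γ := by
  haveI := nonempty_Pr h
  have := potential hs (I := fun _ => True) (fun _ _ _ => trivial) (Φ := Φ)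
    (g := fun T => γ * ind (T.Nonempty ∧ P T)) (B := B) (fun T _ => hB T) (fun T _ => by
      by_cases hT : T.Nonempty ∧ P T
      · rw [ind_pos hT, mul_one]; exact hd T hT.1 hT.2
      · rw [ind_neg hT, mul_zero, add_zero]; exact le_av (hm T)) M (S := S) trivial
  rw [sm_mul_left] at this
  rw [le_div_iff₀ hγ]; unfold cnt; linarith [h0 S]
theorem hz_nonneg (S : St V) : 0 ≤ hz S := av_nonneg fun _ => ind_nonneg _
theorem hz_mono {S T : St V} (h : T ⊆ S) : hz S ≤ hz T :=
  av_mono fun e => ind_mono fun h1 h2 => h1 (h2.mono (hs_mono h e))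
theorem av_chi (h : 2 ≤ Fintype.card V) (S : St V) : (av fun e => chi (hs S e)) = 1 - hz S := by
  haveI := nonempty_Pr h
  simp only [hz, ind_not, av_sub, av_const, chi]; ring
theorem hz_le (h : 2 ≤ Fintype.card V) (S : St V) : hz S ≤ 2 * yy S ^ 2 := by
  have h1 : hz S ≤ av fun e : Pr V => ind (par S e.1.1) * ind (par S e.1.2) := by
    refine av_mono fun e => ?_
    rw [← ind_and]
    refine ind_mono fun hd => ?_
    have he : eqv S e.1.1 e.1.2 := not_not.1 fun h2 => hd (cut_nonempty.2 h2)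
    exact ⟨⟨_, e.2.symm, he⟩, ⟨_, e.2, fun σ hσ => (he σ hσ).symm⟩⟩
  refine h1.trans ((av_Pr_le h (f := fun x y => ind (par S x) * ind (par S y))
    fun x y => mul_nonneg (ind_nonneg _) (ind_nonneg _)).trans_eq ?_)
  simp only [av_mul_left, av_mul_right, yy]; ring
/-- the probabilities of dying at the single steps add up to at most one -/
theorem sm_hz_le (h : 2 ≤ Fintype.card V) (M : ℕ) (S : St V) :
    sm hs M (fun T => chi T * hz T) S ≤ 1 := by
  haveI := nonempty_Pr h
  have := potential hs (I := fun _ => True) (fun _ _ _ => trivial) (Φ := fun T : St V => 1 - chi T)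
    (g := fun T => chi T * hz T) (B := 1) (fun T _ => by linarith [chi_nonneg T]) (fun T _ => by
      rw [av_sub, av_const, av_chi h]
      by_cases hT : T.Nonempty
      · rw [chi_pos hT]; linarith
      · rw [Set.not_nonempty_iff_eq_empty.1 hT, chi_empty]
        have : hz (∅ : St V) = 1 := by
          simp only [hz, hs_empty]; rw [ind_pos (by simp), av_const]
        rw [this]; linarith) M (S := S) trivial
  linarith [chi_le_one S]
theorem sm_hs_eq (M : ℕ) (f : St V → ℝ) :
    sm hs M f Set.univ = ∑ m ∈ range M, EL m fun l : List (Pr V) => f (hr l) := rfl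
end state

theorem pp_nonneg (n m : ℕ) : 0 ≤ pp n m := al_nonneg _ _
theorem pp_le_one {n : ℕ} (h : 2 ≤ n) (m : ℕ) : pp n m ≤ 1 := al_le_one (by simpa using h) _ _
theorem pp_anti {n : ℕ} (h : 2 ≤ n) : Antitone (pp n) := al_anti (by simpa using h) _
theorem pp_zero (n : ℕ) : pp n 0 = 1 := chi_pos Set.univ_nonempty
theorem pp_eq (n m : ℕ) : pp n m = EL m fun l : List (Pr (Fin n)) => chi (hr l) := rfl
theorem pl_nonneg (n m : ℕ) : 0 ≤ pl n m := it_nonneg _ _ chi_nonneg _
theorem pl_zero (n : ℕ) : pl n 0 = 1 := chi_pos Set.univ_nonempty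
theorem pl_anti {n : ℕ} (h : 1 ≤ n) : Antitone (pl n) := by
  refine antitone_nat_of_succ_le fun m => ?_
  haveI : Nonempty (Fin n) := ⟨⟨0, h⟩⟩
  unfold pl
  rw [it_succ']
  exact it_mono _ _ (fun T => av_le fun e => chi_mono (cut_subset _ _ _)) _

end Pool.Agent.MP_81f5b7_pr.H42
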