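import Pool.Agent.MP_81f5b7_pr.H42.Spec

/-! Row LIM: a nearly superadditive ratio converges. -/

set_option autoImplicit false

namespace Pool.Agent.MP_81f5b7_pr.H42

open Finset Filter

namespace LIM

/-- The fourth root. -/
noncomputable def rt (x : ℝ) : ℝ := Real.sqrt (Real.sqrt x)

theorem rt_pos {x : ℝ} (hx : 0 < x) : 0 < rt x :=
  Real.sqrt_pos.2 (Real.sqrt_pos.2 hx)

theorem rt_mono {x y : ℝ} (h : x ≤ y) : rt x ≤ rt y :=
  Real.sqrt_le_sqrt (Real.sqrt_le_sqrt h)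

theorem rt_pow {x : ℝ} (hx : 0 ≤ x) : rt x ^ 4 = x := by
  have h1 : rt x ^ 2 = Real.sqrt x := Real.sq_sqrt (Real.sqrt_nonneg x)
  have h2 : Real.sqrt x ^ 2 = x := Real.sq_sqrt hx
  calc rt x ^ 4 = (rt x ^ 2) ^ 2 := by ring
    _ = x := by rw [h1, h2]

theorem rt_gain {x y : ℝ} (hx : 0 < x) (h : 3 * x ≤ 2 * y) : 11 * rt x ≤ 10 * rt y := by
  have hy : 0 < y := by linarith
  have hx4 := rt_pow hx.le
  have hy4 := rt_pow hy.le
  have hp := rt_pos hx
  have hq := rt_pos hy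
  by_contra hc
  push Not at hc
  have h4 : (10 * rt y) ^ 4 < (11 * rt x) ^ 4 :=
    pow_lt_pow_left₀ hc (by positivity) (by norm_num)
  have e1 : (10 * rt y) ^ 4 = 10000 * y := by rw [mul_pow, hy4]; norm_num
  have e2 : (11 * rt x) ^ 4 = 14641 * x := by rw [mul_pow, hx4]; norm_num
  rw [e1, e2] at h4
  linarith

theorem rt_tendsto (B : ℝ) : Tendsto (fun n : ℕ => B / rt n) atTop (nhds 0) := by
  have h : Tendsto (fun n : ℕ => rt n) atTop atTop :=
    Real.tendsto_sqrt_atTop.comp (Real.tendsto_sqrt_atTop.comp tendsto_natCast_atTop_atTop)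
  exact h.const_div_atTop B

theorem mult (c : ℕ → ℝ) (A : ℝ) (hA : 0 ≤ A) (n₀ : ℕ)
    (h : ∀ n₁ n₂ : ℕ, n₀ ≤ n₁ → n₀ ≤ n₂ → n₁ ≤ 2 * n₂ → n₂ ≤ 2 * n₁ →
      min (c n₁) (c n₂) - A / rt ((n₁ : ℝ) + n₂) ≤ c (n₁ + n₂))
    (N : ℕ) (hN : n₀ ≤ N) (hN1 : 1 ≤ N) (k : ℕ) (hk : 1 ≤ k) :
    c N - 10 * A / rt N + 10 * A / rt ((k : ℝ) * N) ≤ c (k * N) := by
  induction k using Nat.strong_induction_on with
  | _ k ih =>
    rcases Nat.eq_or_lt_of_le hk with h1 | h2
    · subst h1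
      simp
    · set k₁ := k / 2 with hk₁
      set k₂ := k - k / 2 with hk₂
      have a1 : 1 ≤ k₁ := by omega
      have a2 : 1 ≤ k₂ := by omega
      have a3 : k₁ < k := by omega
      have a4 : k₂ < k := by omega
      have a5 : k₁ + k₂ = k := by omega
      have a6 : k₁ ≤ k₂ := by omega
      have a7 : k₂ ≤ 2 * k₁ := by omega
      have i1 := ih k₁ a3 a1
      have i2 := ih k₂ a4 a2
      have b1 : n₀ ≤ k₁ * N := le_trans hN (Nat.le_mul_of_pos_left N a1)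
      have b2 : n₀ ≤ k₂ * N := le_trans hN (Nat.le_mul_of_pos_left N a2)
      have b3 : k₁ * N ≤ 2 * (k₂ * N) := by
        have := Nat.mul_le_mul_right N a6
        omega
      have b4 : k₂ * N ≤ 2 * (k₁ * N) := by
        have := Nat.mul_le_mul_right N a7
        rw [mul_assoc] at this
        exact this
      have hh := h (k₁ * N) (k₂ * N) b1 b2 b3 b4
      have e1 : k₁ * N + k₂ * N = k * N := by rw [← add_mul, a5]
      have e2 : ((k₁ * N : ℕ) : ℝ) + ((k₂ * N : ℕ) : ℝ) = (k : ℝ) * N := by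
        rw [← Nat.cast_add, e1, Nat.cast_mul]
      rw [e1, e2] at hh
      have hNp : (0 : ℝ) < N := by exact_mod_cast hN1
      have p1 : (0 : ℝ) < (k₁ : ℝ) * N := mul_pos (by exact_mod_cast a1) hNp
      have p2 : (0 : ℝ) < (k₂ : ℝ) * N := mul_pos (by exact_mod_cast a2) hNp
      have p3 : (0 : ℝ) < (k : ℝ) * N := mul_pos (by exact_mod_cast hk) hNp
      have m1 : (k₁ : ℝ) * N ≤ (k₂ : ℝ) * N :=
        mul_le_mul_of_nonneg_right (by exact_mod_cast a6) hNp.le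
      have m2 : 3 * ((k₂ : ℝ) * N) ≤ 2 * ((k : ℝ) * N) := by
        have : 3 * k₂ ≤ 2 * k := by omega
        have h3 : (3 : ℝ) * k₂ ≤ 2 * k := by exact_mod_cast this
        nlinarith
      have g := rt_gain p2 m2
      have r1 := rt_pos p1
      have r2 := rt_pos p2
      have r3 := rt_pos p3
      have d1 : 10 * A / rt ((k₂ : ℝ) * N) ≤ 10 * A / rt ((k₁ : ℝ) * N) :=
        div_le_div_of_nonneg_left (by positivity) r1 (rt_mono m1)
      have d2 : 10 * A / rt ((k : ℝ) * N) + A / rt ((k : ℝ) * N) ≤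
          10 * A / rt ((k₂ : ℝ) * N) := by
        rw [← add_div, div_le_div_iff₀ r3 r2]
        nlinarith
      have d3 : c N - 10 * A / rt N + 10 * A / rt ((k₂ : ℝ) * N) ≤
          min (c (k₁ * N)) (c (k₂ * N)) := le_min (by linarith) i2
      linarith

end LIM

open LIM in
theorem rowLIM : RowLIM := by
  intro c h0 h3 hsup hj
  obtain ⟨A', n₀, hA'⟩ := hsup
  set A : ℝ := max A' 0 with hAdef
  have hA : 0 ≤ A := le_max_right _ _
  have h : ∀ n₁ n₂ : ℕ, n₀ ≤ n₁ → n₀ ≤ n₂ → n₁ ≤ 2 * n₂ → n₂ ≤ 2 * n₁ →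
      min (c n₁) (c n₂) - A / rt ((n₁ : ℝ) + n₂) ≤ c (n₁ + n₂) := by
    intro n₁ n₂ a b d e
    have h1 := hA' n₁ n₂ a b d e
    have h2 : A' / rt ((n₁ : ℝ) + n₂) ≤ A / rt ((n₁ : ℝ) + n₂) :=
      div_le_div_of_nonneg_right (le_max_left _ _) (Real.sqrt_nonneg _)
    have h4 : A' / Real.sqrt (Real.sqrt ((n₁ : ℝ) + n₂)) = A' / rt ((n₁ : ℝ) + n₂) := rfl
    linarith
  set N₀ := max n₀ 1 with hN₀
  have low : ∀ N, N₀ ≤ N → ∀ ε : ℝ, 0 < ε → ∀ᶠ m in atTop, c N - 10 * A / rt N - ε ≤ c m := by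
    intro N hN ε hε
    have hN1 : 1 ≤ N := le_trans (le_max_right _ _) hN
    have hNn : n₀ ≤ N := le_trans (le_max_left _ _) hN
    have hall : ∀ᶠ n in atTop, ∀ j ∈ range N, c n - ε ≤ c (n + j) :=
      (eventually_all_finset (range N)).2 fun j _ => hj j ε hε
    obtain ⟨n₁, hn₁⟩ := eventually_atTop.1 hall
    refine eventually_atTop.2 ⟨n₁ + N, fun m hm => ?_⟩
    have hdm := Nat.div_add_mod m N
    have hlt : m % N < N := Nat.mod_lt _ hN1
    have hk : 1 ≤ m / N := Nat.div_pos (by omega) hN1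
    have hcomm : m / N * N = N * (m / N) := mul_comm _ _
    have hge : n₁ ≤ m / N * N := by omega
    have h5 := hn₁ _ hge (m % N) (mem_range.2 hlt)
    have h6 : m / N * N + m % N = m := by omega
    rw [h6] at h5
    have h7 := mult c A hA n₀ h N hNn hN1 (m / N) hk
    have h8 : 0 ≤ 10 * A / rt (((m / N : ℕ) : ℝ) * N) :=
      div_nonneg (by positivity) (Real.sqrt_nonneg _)
    linarith
  set D : Set ℝ := {x | ∃ N, N₀ ≤ N ∧ x = c N - 10 * A / rt N} with hD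
  have hne : D.Nonempty := ⟨_, N₀, le_rfl, rfl⟩
  have hbd : BddAbove D := by
    refine ⟨3, ?_⟩
    rintro x ⟨N, -, rfl⟩
    have h8 : 0 ≤ 10 * A / rt N := div_nonneg (by positivity) (Real.sqrt_nonneg _)
    have := h3 N
    linarith
  refine ⟨sSup D, tendsto_order.2 ⟨fun a ha => ?_, fun a ha => ?_⟩⟩
  · obtain ⟨x, ⟨N, hN, rfl⟩, hx⟩ := exists_lt_of_lt_csSup hne ha
    filter_upwards [low N hN ((c N - 10 * A / rt N - a) / 2) (by linarith)] with m hm
    linarith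
  · have ht := (tendsto_order.1 (rt_tendsto (10 * A))).2 (a - sSup D) (by linarith)
    filter_upwards [ht, eventually_ge_atTop N₀] with m hm hm₀
    have := le_csSup hbd (show c m - 10 * A / rt m ∈ D from ⟨m, hm₀, rfl⟩)
    linarith

end Pool.Agent.MP_81f5b7_pr.H42
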