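import Mathlib

/-! The random 3-colourable graph process, driven by an ordering of all pairs of vertices. -/

set_option autoImplicit false

namespace Pool.Agent.MP_81f5b7_pr.H42

/-- Unordered pairs of distinct vertices. -/
abbrev Pair (n : ℕ) : Type := {e : Sym2 (Fin n) // ¬ e.IsDiag}

/-- Orderings of all pairs: `π t` is the pair examined at step `t` (steps start at `0`). -/
abbrev Scan (n : ℕ) : Type := Fin (Fintype.card (Pair n)) ≃ Pair n

/-- The graph `G` with the pair `e` added as an edge. -/
def plus {n : ℕ} (G : SimpleGraph (Fin n)) (e : Pair n) : SimpleGraph (Fin n) :=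
  G ⊔ SimpleGraph.fromEdgeSet {e.1}

open Classical in
/-- The graph after the first `t` pairs are examined: a pair is added when the graph stays
3-colourable. -/
noncomputable def graph {n : ℕ} (π : Scan n) : ℕ → SimpleGraph (Fin n)
  | 0 => ⊥
  | t + 1 =>
    if h : t < Fintype.card (Pair n) then
      if (plus (graph π t) (π ⟨t, h⟩)).Colorable 3 then plus (graph π t) (π ⟨t, h⟩) else graph π t
    else graph π t

/-- The pair examined at step `t` is not added. -/
def Rejected {n : ℕ} (π : Scan n) (t : ℕ) : Prop :=
  ∃ h : t < Fintype.card (Pair n), ¬ (plus (graph π t) (π ⟨t, h⟩)).Colorable 3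

/-- Step `t` is the first step whose pair is not added. -/
def FirstRej {n : ℕ} (π : Scan n) (t : ℕ) : Prop :=
  Rejected π t ∧ ∀ s < t, ¬ Rejected π s

/-- The probability of an event for a uniformly random ordering. -/
noncomputable def prob {n : ℕ} (P : Scan n → Prop) : ℝ :=
  (Nat.card {π : Scan n // P π} : ℝ) / (Nat.card (Scan n) : ℝ)

/-- Some other vertex has the colour of `v` in every proper 3-colouring. -/
def Partnered {n : ℕ} (G : SimpleGraph (Fin n)) (v : Fin n) : Prop :=
  ∃ w, w ≠ v ∧ ∀ c : G.Coloring (Fin 3), c v = c w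

/-- Three sets of at least `δ n` vertices each such that every proper 3-colouring is constant on
each set and takes different values on different sets. -/
def Frozen {n : ℕ} (G : SimpleGraph (Fin n)) (δ : ℝ) : Prop :=
  ∃ A : Fin 3 → Finset (Fin n), (∀ i, δ * n ≤ (A i).card) ∧
    ∀ c : G.Coloring (Fin 3), ∀ i j, ∀ x ∈ A i, ∀ y ∈ A j, (c x = c y ↔ i = j)

end Pool.Agent.MP_81f5b7_pr.H42
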