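import Pool.Agent.MP_81f5b7_pr.H42.Defs

/-! The rows of the proof. -/

set_option autoImplicit false

namespace Pool.Agent.MP_81f5b7_pr.H42

open Finset Filter

/-- Lemma A: one colour left. -/
def RowLA : Prop := ∀ (V : Type) [Fintype V] [DecidableEq V], 2 ≤ Fintype.card V →
  ∀ (Q : Lst V) (j : ℕ) (u : ℝ) (S : St V) (M : ℕ), (∀ σ, (Q σ).Nonempty) → 0 < u →
    2 * (j : ℝ) ≤ u * Fintype.card V → u ≤ rho S Q j → life M S ≤ 2 * (j : ℝ) ^ 3 / u ^ 2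

/-- Lemma B: two colours left. -/
def RowLB : Prop := ∀ (V : Type) [Fintype V] [DecidableEq V], 2 ≤ Fintype.card V →
  ∀ (Q : Lst V) (j : ℕ) (s : ℝ) (S : St V) (M : ℕ), (∀ σ, 2 ≤ (Q σ).card) → 0 < s →
    (8 : ℝ) ^ j ≤ Fintype.card V * s ^ 3 →
    cnt M (fun T => s ^ 3 ≤ rho T Q j) S ≤ 32 ^ j / s ^ 4

/-- A state covered by few short-lived states is short-lived. -/
def RowUNI : Prop := ∀ (V : Type) [Fintype V] [DecidableEq V], 2 ≤ Fintype.card V →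
  ∀ (ι : Type) (s : Finset ι) (T : ι → St V) (S : St V) (L : ℝ) (q M : ℕ), 0 ≤ L →
    (∀ i ∈ s, ∀ T' : St V, T' ⊆ T i → ∀ M', life M' T' ≤ L) → (∀ σ ∈ S, ∃ i ∈ s, σ ∈ T i) →
    s.card ≤ 2 ^ q → life M S ≤ 2 * (2 * L + 1) * (q + 1)

/-- Two-level Bonferroni inequality with anchors. -/
def RowBON : Prop := ∀ (V : Type) [Fintype V] [Nonempty V] (k r : ℕ) (w : List V → V → V → Prop)
  (α : ℝ), EL k (fun z => av fun a => (av fun b => ind (w z a b)) ^ 2) ≤ α →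
    EL k (fun z => av fun b => (av fun a => ind (w z a b)) ^ 2) ≤ α →
    ∃ X Y : List V, X.length = r ∧ Y.length = r ∧
      (r : ℝ) ^ 2 * EL k (fun z => av fun a => av fun b => ind (w z a b)) - (r : ℝ) ^ 4 * α ≤
        EL k fun z => ind (∃ a ∈ X, ∃ b ∈ Y, w z a b)

/-- The anchor case of Lemma C. -/
def RowANC : Prop := ∀ (V : Type) [Fintype V] [DecidableEq V], 2 ≤ Fintype.card V →
  ∀ (k : ℕ) (t : ℝ) (S : St V) (M : ℕ), 0 < t → t ≤ 1 →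
    (8 : ℝ) ^ (k + 2) ≤ Fintype.card V * t ^ 21 →
    t ^ 29 ≤ rho S U (k + 2) → rho S U (k + 1) ≤ (t / 2) ^ 29 →
    (av fun e : Pr V => JJ S U (k + 1) e.1.1 e.1.2) ≤ t ^ 49 / 16 →
    life M S ≤ 20000 * ((k : ℝ) + 1) ^ 3 / t ^ 28

/-- Lemma C: three colours. -/
def RowLC : Prop := ∀ (V : Type) [Fintype V] [DecidableEq V], 2 ≤ Fintype.card V →
  ∀ (k : ℕ) (t : ℝ) (S : St V) (M : ℕ), 0 < t → t ≤ 1 → M ≤ 3 * Fintype.card V →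
    cnt M (fun T => t ^ 29 ≤ rho T U k) S ≤ (2 ^ 30) ^ k / t ^ 28

/-- Dyadic layers. -/
def RowLAY : Prop := ∀ (V : Type) [Fintype V] [DecidableEq V], 2 ≤ Fintype.card V →
  ∀ (k : ℕ) (s : ℝ) (S : St V) (M : ℕ), 0 < s → s ≤ 1 → M ≤ 3 * Fintype.card V →
    sm hs M (fun T => ind (T.Nonempty ∧ rho T U k ≤ s ^ 29) * rho T U k) S ≤
      2 ^ 29 * (2 ^ 30) ^ k * s

/-- The cavity bound. -/
def RowCAV : Prop := ∃ a : ℝ, 0 ≤ a ∧ ∀ (V : Type) [Fintype V] [DecidableEq V],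
  2 ≤ Fintype.card V → ∀ (M : ℕ) (P : St V → Prop) (H : ℕ → ℝ), M ≤ 3 * Fintype.card V →
    (∀ S T : St V, T ⊆ S → P T → P S) →
    (∀ i, sm hs M (fun T => ind (T.Nonempty ∧ P T) * rho T U i) Set.univ ≤ H i) →
    ∑ m ∈ range M, EL m (fun l : List (Pr V) => ind ((hr l).Nonempty ∧ P (hr l)) * yg l) ≤
      ∑ d ∈ range (Fintype.card V + 1), ∑ i ∈ range (M + 1),
        a ^ d / d.factorial * ((a * d) ^ i / i.factorial) * H i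

/-- Few vertices lie in triangles. -/
def RowBETA : Prop := ∃ C : ℝ, ∀ (V : Type) [Fintype V] [DecidableEq V], 2 ≤ Fintype.card V →
  ∀ m : ℕ, m ≤ 4 * Fintype.card V →
    EL m (fun l : List (Pr V) => beta l) ≤ C / Fintype.card V

/-- The total mass of partnered vertices before death is bounded. -/
def RowY : Prop := ∃ C : ℝ, ∀ (V : Type) [Fintype V] [DecidableEq V], 2 ≤ Fintype.card V →
  ∀ M : ℕ, M ≤ 3 * Fintype.card V →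
    sm hs M (fun T : St V => chi T * yy T) Set.univ ≤ C

/-- It is small on states where random tuples are rarely rainbow. -/
def RowYP : Prop := ∀ η : ℝ, 0 < η → ∃ (k : ℕ) (ε : ℝ), 1 ≤ k ∧ 0 < ε ∧
  ∀ (V : Type) [Fintype V] [DecidableEq V], 2 ≤ Fintype.card V →
    ∀ M : ℕ, M ≤ 3 * Fintype.card V →
      ∑ m ∈ range M, EL m (fun l : List (Pr V) =>
        ind ((hr l).Nonempty ∧ rho (hr l) U k ≤ ε) * yg l) ≤ η

/-- Variance of the life time. -/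
def RowVAR : Prop := ∀ (V : Type) [Fintype V] [DecidableEq V], 2 ≤ Fintype.card V →
  ∀ (M : ℕ) (S : St V), ∑ m ∈ range M, (2 * (m : ℝ) + 1) * al m S - life M S ^ 2 ≤
    2 * M * Real.sqrt (2 * M) * sm hs M (fun T => chi T * yy T) S

/-- First moment. -/
def RowFM : Prop := Tendsto (fun n : ℕ => pp n (3 * n)) atTop (nhds 0)

/-- Interpolation. -/
def RowBGT : Prop := (∀ n m : ℕ, 2 ≤ n → pl n m = (1 - 1 / (n : ℝ)) ^ m * pp n m) ∧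
  ∀ n₁ n₂ m : ℕ, 1 ≤ n₁ → 1 ≤ n₂ →
    ∑ k ∈ range (m + 1), (m.choose k : ℝ) * ((n₁ : ℝ) / (n₁ + n₂)) ^ k *
      (1 - (n₁ : ℝ) / (n₁ + n₂)) ^ (m - k) * (pl n₁ k * pl n₂ (m - k)) ≤ pl (n₁ + n₂) m

/-- Chebyshev for a tail sequence. -/
def RowCHE : Prop := ∀ (p : ℕ → ℝ) (M m : ℕ) (W D : ℝ), (∀ i, 0 ≤ p i) → (∀ i, p i ≤ 1) →
  Antitone p → 0 < D →
  ∑ i ∈ range M, (2 * (i : ℝ) + 1) * p i - (∑ i ∈ range M, p i) ^ 2 ≤ W →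
    ((m : ℝ) + D ≤ ∑ i ∈ range M, p i → 1 - W / D ^ 2 ≤ p m) ∧
    (m < M → ∑ i ∈ range M, p i + D ≤ m → p m ≤ W / D ^ 2)

/-- Chebyshev for the binomial law. -/
def RowBIN : Prop := ∀ (θ D : ℝ) (m k₁ k₂ : ℕ) (f g : ℕ → ℝ), 0 ≤ θ → θ ≤ 1 → 0 < D →
  (∀ i, 0 ≤ f i) → (∀ i, 0 ≤ g i) → Antitone f → Antitone g →
  m * θ + D ≤ k₁ → m * (1 - θ) + D ≤ k₂ →
    (1 - m / D ^ 2) * (f k₁ * g k₂) ≤
      ∑ k ∈ range (m + 1), (m.choose k : ℝ) * θ ^ k * (1 - θ) ^ (m - k) * (f k * g (m - k))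

/-- A nearly superadditive ratio converges. -/
def RowLIM : Prop := ∀ c : ℕ → ℝ, (∀ n, 0 ≤ c n) → (∀ n, c n ≤ 3) →
  (∃ (A : ℝ) (n₀ : ℕ), ∀ n₁ n₂ : ℕ, n₀ ≤ n₁ → n₀ ≤ n₂ → n₁ ≤ 2 * n₂ → n₂ ≤ 2 * n₁ →
    min (c n₁) (c n₂) - A / Real.sqrt (Real.sqrt ((n₁ : ℝ) + n₂)) ≤ c (n₁ + n₂)) →
  (∀ (j : ℕ) (ε : ℝ), 0 < ε → ∀ᶠ n in atTop, c n - ε ≤ c (n + j)) →
  ∃ c₀ : ℝ, Tendsto c atTop (nhds c₀)

/-- The threshold exists in the model with independent letters. -/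
def RowTHR : Prop := ∃ c : ℝ, 0 ≤ c ∧ c ≤ 3 ∧ ∀ ε η : ℝ, 0 < ε → 0 < η → ∀ᶠ n : ℕ in atTop,
  ∀ m : ℕ, ((m : ℝ) ≤ (c - ε) * n → 1 - η ≤ pp n m) ∧ ((c + ε) * n ≤ m → pp n m ≤ η)

/-- Three classes freeze in the greedy process. -/
def RowTRI : Prop := ∀ (V : Type) [Fintype V] [DecidableEq V], 2 ≤ Fintype.card V →
  ∀ (k K : ℕ) (ε δ : ℝ) (S : St V), 1 ≤ k → 1 ≤ K → 0 < δ → 2 * k * δ ≤ ε → S.Nonempty →
    ε ≤ rho S U k → it gs K (fun T => ind (¬ Tri T δ)) S ≤ ((k : ℝ) + 1) / (K * δ ^ 4)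

/-- Sudden freezing in the model with independent letters. -/
def RowIGN : Prop := ∀ η : ℝ, 0 < η → ∃ δ : ℝ, 0 < δ ∧ ∀ ζ : ℝ, 0 < ζ → ∃ K : ℕ,
  ∀ᶠ n : ℕ in atTop, EL (3 * n + K) (fun l : List (Pr (Fin n)) => ind (¬ ∃ t, t < 3 * n ∧
    (hr (l.take t)).Nonempty ∧ ¬ (hr (l.take (t + 1))).Nonempty ∧
    yy (hr (l.take (t - K))) ≤ ζ ∧ Tri (gr (l.take (t + K))) δ)) ≤ η

/-- From independent letters to orderings. -/
def RowLINK : Prop := ∃ C : ℝ, 0 < C ∧ ∀ᶠ n : ℕ in atTop, ∀ L : ℕ, L ≤ 4 * n →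
  ∀ (Bad : Scan n → Prop) (B : List (Pr (Fin n)) → Prop),
    (∀ π l, l.length = L → Match π l → Bad π → B l) → prob Bad ≤ C * EL L fun l => ind (B l)

/-- The states are the sets of proper colourings of the graphs of the process. -/
def RowSEM : Prop := ∀ (n : ℕ) (π : Scan n) (l : List (Pr (Fin n))), Match π l →
  (∀ t, t ≤ l.length → gr (l.take t) = {σ | ∀ x y, (graph π t).Adj x y → σ x ≠ σ y}) ∧
  (∀ t, t < l.length →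
    (FirstRej π t ↔ (hr (l.take t)).Nonempty ∧ ¬ (hr (l.take (t + 1))).Nonempty))

/-- First hand-in. -/
def GoalA : Prop := ∃ c : ℝ, ∀ ε : ℝ, 0 < ε → Tendsto (fun n : ℕ =>
  prob fun π : Scan n => ∃ t : ℕ, FirstRej π t ∧ |(t : ℝ) - c * n| ≤ ε * n) atTop (nhds 1)

/-- Second hand-in. -/
def GoalB : Prop := ∀ η : ℝ, 0 < η → ∃ δ : ℝ, 0 < δ ∧ ∀ ζ : ℝ, 0 < ζ → ∃ K : ℕ,
  ∀ᶠ n : ℕ in atTop, 1 - η ≤ prob fun π : Scan n => ∃ t : ℕ, FirstRej π t ∧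
    (Nat.card {v : Fin n // Partnered (graph π (t - K)) v} : ℝ) ≤ ζ * n ∧
    Frozen (graph π (t + K)) δ

end Pool.Agent.MP_81f5b7_pr.H42
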